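import Mathlib
import Pool.Agent.Lib.MP_9cfc0a_nt.EMMain
import Pool.Agent.Lib.MP_9cfc0a_nt.EMChars
import Pool.Agent.Lib.MP_9cfc0a_nt.C2H9d

set_option autoImplicit false

/-! Definitions of the campaign MY (MP_9cfc0a, ManyClasses). -/

namespace Pool.Agent.MY

open Complex Finset

/-- Taylor coefficient of `F` at `s`. -/
noncomputable def TC (F : ℂ → ℂ) (s : ℂ) (k : ℕ) : ℂ := iteratedDeriv k F s / (k.factorial : ℂ)

/-- `g_i(y) = y^{-s} (-log y)^i / i!`. -/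
noncomputable def gi (s : ℂ) (i : ℕ) (y : ℝ) : ℂ :=
  (y : ℂ) ^ (-s) * (((-Real.log y) ^ i / (i.factorial : ℝ) : ℝ) : ℂ)

/-- The class of `n` modulo `q` (and `1` if `n` is not coprime to `q`). -/
noncomputable def un (q n : ℕ) : (ZMod q)ˣ :=
  if h : Nat.Coprime n q then ZMod.unitOfCoprime n h else 1

/-- The non principal characters. -/
noncomputable def nt (q : ℕ) [NeZero q] : Finset (DirichletCharacter ℂ q) :=
  letI : DecidablePred fun χ : DirichletCharacter ℂ q => χ ≠ 1 := Classical.decPred _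
  Finset.univ.filter fun χ => χ ≠ 1

/-- `D_k(a)`: Taylor coefficient at `s` of `(1/φ(q)) ∑_{χ ≠ χ₀} χ(a)⁻¹ (- L'/L)(·, χ)`. -/
noncomputable def Dk (q : ℕ) [NeZero q] (s : ℂ) (k : ℕ) (a : (ZMod q)ˣ) : ℂ :=
  (1 / (q.totient : ℂ)) * ∑ χ ∈ nt q, χ ((a⁻¹ : (ZMod q)ˣ) : ZMod q) *
    TC (fun z => -logDeriv χ.LFunction z) s k

/-- The shifted coefficient `D_k(a; n)`. -/
noncomputable def Dn (q : ℕ) [NeZero q] (s : ℂ) (k : ℕ) (a : (ZMod q)ˣ) (n : ℕ) : ℂ :=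
  ∑ i ∈ range (k + 1), gi s i n * Dk q s (k - i) a

open Classical in
/-- `{1 < r < q : (r, q) = 1, a / r ∈ B}`. -/
noncomputable def Ra (q : ℕ) (B : Finset (ZMod q)ˣ) (a : (ZMod q)ˣ) : Finset ℕ :=
  (Icc 2 (q - 1)).filter fun r => Nat.Coprime r q ∧ a * (un q r)⁻¹ ∈ B

/-- The divisors of the elements of `Ra`, and `1`. -/
noncomputable def Ds (q : ℕ) (B : Finset (ZMod q)ˣ) (a : (ZMod q)ˣ) : Finset ℕ :=
  insert 1 ((Ra q B a).biUnion Nat.divisors)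

/-- The coefficients of (Möbius on `D`) * (smooth cutoff at `U`). -/
noncomputable def cn (D : Finset ℕ) (U : ℝ) (n : ℕ) : ℝ :=
  ∑ d ∈ D.filter (fun d => d ∣ n),
    (ArithmeticFunction.moebius d : ℝ) * MC.C2.vv (((n / d : ℕ) : ℝ) / U)

/-- `ψ(x; q, c)` for a unit `c`. -/
noncomputable def psiU (q : ℕ) (c : (ZMod q)ˣ) (x : ℝ) : ℝ :=
  ∑ n ∈ (Icc 1 ⌊x⌋₊).filter (fun n : ℕ => (n : ZMod q) = (c : ZMod q)),
    ArithmeticFunction.vonMangoldt n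

/-- The kernel. -/
noncomputable def KK (S : ℝ) (k n : ℕ) (x : ℝ) : ℝ :=
  (S * (Real.log (n * x)) ^ (k + 1) / ((k + 1).factorial : ℝ)
    + (Real.log (n * x)) ^ k / (k.factorial : ℝ)) / ((n * x) ^ 2 * x)

/-- The bound for the difference of two classes outside `B`. -/
noncomputable def bet (S τ θ Y : ℝ) (k n : ℕ) : ℝ :=
  (1 + S) * (τ * (n : ℝ) ^ (-θ) * ((2 - θ) ^ k)⁻¹
    + 60 * (n : ℝ)⁻¹ * ((1 / 4 : ℝ) ^ k + 2 ^ k * Y ^ (-(1 / 2) : ℝ)))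

/-- The maximum of `f` over `B` (`0` if `B` is empty). -/
noncomputable def mx {q : ℕ} (B : Finset (ZMod q)ˣ) (f : (ZMod q)ˣ → ℝ) : ℝ :=
  if h : B.Nonempty then B.sup' h f else 0

/-- The analytic error term. -/
noncomputable def Err (q κ : ℕ) (U : ℝ) (k : ℕ) : ℝ :=
  q * (4 / 7 : ℝ) ^ k + (q : ℝ) ^ (κ + 1) * U ^ (-(κ : ℝ)) * (4 / 3 : ℝ) ^ k

end Pool.Agent.MY
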