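import Mathlib
import Pool.Agent.Lib.MP_9cfc0a_nt.MY.Defs
import Pool.Agent.Lib.MP_9cfc0a_nt.Mg.G026
import Pool.Agent.Lib.MP_9cfc0a_nt.SD.VA
import Pool.Agent.Lib.MP_9cfc0a_nt.Mg.G078

set_option autoImplicit false

namespace Pool.Agent.MY

open Complex Finset

/-- `1 / φ(q)` is at most `K q^e / q`. -/
lemma C2_phi (e : ℝ) (he : 0 < e) (q : ℕ) (hq : 1 ≤ q) :
    (q : ℝ) ≤ (1 + 2 / e) * (q : ℝ) ^ e * (q.totient : ℝ) := by
  have hqr : (1 : ℝ) ≤ q := by exact_mod_cast hq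
  have h1 := Pool.Agent.SD.totient_log q hq
  have h2 : Real.log q ≤ (q : ℝ) ^ e / e := Real.log_le_rpow_div (by linarith) he
  have h3 : (1 : ℝ) ≤ (q : ℝ) ^ e := Real.one_le_rpow hqr he.le
  have h4 : 1 + 2 * Real.log q ≤ (1 + 2 / e) * (q : ℝ) ^ e := by
    have h5 : (1 + 2 / e) * (q : ℝ) ^ e = (q : ℝ) ^ e + 2 * ((q : ℝ) ^ e / e) := by ring
    rw [h5]
    linarith
  exact h1.trans (mul_le_mul_of_nonneg_right h4 (Nat.cast_nonneg _))

open Classical in
/-- C2. The weights: the total of the far and average weights is `≤ 1/2`, and the total weight.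
Parameters `δ = ν = ε₀ / 40`. -/
lemma weights (θ ε₀ : ℝ) (hθ : 1 / 2 ≤ θ) (hθ1 : θ < 1) (h0 : 0 < ε₀) (h1 : ε₀ ≤ 1 / 10) :
    ∃ (C : ℝ) (q₀ : ℕ), 1 ≤ C ∧
    ∀ (q : ℕ) [NeZero q], q₀ ≤ q → ∀ (B : Finset (ZMod q)ˣ), B.Nonempty →
    (B.card : ℝ) ≤ (q : ℝ) ^ (θ / (2 - θ) - ε₀) → ∀ a : (ZMod q)ˣ,
    4 * (B.card : ℝ) ≤ q.totient ∧
    2 * (B.card : ℝ) / q.totient * (C * ((B.card : ℝ) * q) ^ (1 - θ) * (q : ℝ) ^ (ε₀ / 4)) ≤ 1 ∧
    ((Ds q B a).card : ℝ) ≤ q ∧
    (∑ n ∈ (Icc 2 (q * ⌈2 * (q : ℝ) ^ (1 + ε₀ / 40)⌉₊)).filter (fun n => Nat.Coprime n q),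
        (|cn (Ds q B a) ((q : ℝ) ^ (1 + ε₀ / 40)) n| *
          ((if q < n ∧ a * (un q n)⁻¹ ∈ B then 1 else 0) + 2 * B.card / q.totient)) *
        (n : ℝ) ^ (-θ + 3 * (ε₀ / 40))) ≤ 1 / 2 ∧
    (∑ n ∈ Icc 2 (q * ⌈2 * (q : ℝ) ^ (1 + ε₀ / 40)⌉₊),
        |cn (Ds q B a) ((q : ℝ) ^ (1 + ε₀ / 40)) n| * (n : ℝ) ^ (-θ))
      ≤ C * ((B.card : ℝ) * q) ^ (1 - θ) * (q : ℝ) ^ (ε₀ / 4) := by
  have hθ0 : 0 ≤ θ := by linarith
  have h1θ : 0 < 1 - θ := by linarith
  have h2θ : 0 < 2 - θ := by linarith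
  set e : ℝ := ε₀ / 40 with he
  have he0 : 0 < e := by positivity
  have he1 : e ≤ 1 / 400 := by linarith
  obtain ⟨C', hC', hDs⟩ := Ds_card e he0
  obtain ⟨C'', hC'', hdiv⟩ := MC.C2.divisor_bound e he0
  set C1 : ℝ := 1 + C' with hC1
  set K1 : ℝ := 1 + 2 / e with hK1
  set c1 : ℝ := 1 / (1 - θ) with hc1
  set c2 : ℝ := 2 / (1 - θ) ^ 2 with hc2
  have hK1pos : 1 ≤ K1 := by
    have : 0 < 2 / e := by positivity
    linarith
  have hC1pos : 2 ≤ C1 := by linarith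
  have hc1pos : 1 ≤ c1 := by
    rw [hc1, le_div_iff₀ h1θ]
    linarith
  have hc2pos : 1 ≤ c2 := by
    rw [hc2, le_div_iff₀ (by positivity)]
    have h2 : (1 - θ) ^ 2 ≤ 1 := pow_le_one₀ h1θ.le (by linarith)
    linarith
  have hp0 : 0 ≤ c2 * C1 * K1 := by positivity
  have hp1 : 0 ≤ c1 * C'' := by positivity
  set K3 : ℝ := 4 * K1 + C1 + 2 * (c2 * C1 * K1)
    + 6 * (c1 * C'' + 3 * C1 + 2 * (c2 * C1 * K1)) with hK3
  have hK3a : 4 * K1 ≤ K3 := by linarith
  have hK3b : C1 ≤ K3 := by linarith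
  have hK3c : 2 * (c2 * C1 * K1) ≤ K3 := by linarith
  have hK3d : 6 * (c1 * C'' + 3 * C1 + 2 * (c2 * C1 * K1)) ≤ K3 := by linarith
  have hK3pos : 1 ≤ K3 := by linarith
  have hcC : 1 ≤ c2 * C1 := one_le_mul_of_one_le_of_one_le hc2pos (by linarith)
  refine ⟨c2 * C1, max 2 ⌈K3 ^ (1 / e)⌉₊, hcC, ?_⟩
  intro q _ hq B hBne hB a
  have hq2 : 2 ≤ q := (le_max_left _ _).trans hq
  have hQ2 : (2 : ℝ) ≤ q := by exact_mod_cast hq2
  set Q : ℝ := (q : ℝ) with hQ
  have hQ0 : 0 < Q := by linarith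
  have hQ1 : 1 ≤ Q := by linarith
  set x : ℝ := Q ^ e with hx
  have hxK : K3 ≤ x := by
    have h2 : K3 ^ (1 / e) ≤ Q := by
      have h3 : K3 ^ (1 / e) ≤ (⌈K3 ^ (1 / e)⌉₊ : ℝ) := Nat.le_ceil _
      have h4 : ((⌈K3 ^ (1 / e)⌉₊ : ℕ) : ℝ) ≤ Q := by
        rw [hQ]
        exact_mod_cast (le_max_right _ _).trans hq
      linarith
    have h5 := Real.rpow_le_rpow (by positivity) h2 he0.le
    rw [← Real.rpow_mul (by linarith), one_div_mul_cancel he0.ne', Real.rpow_one] at h5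
    exact h5
  have hx1 : 1 ≤ x := by linarith
  have hx0 : 0 < x := by linarith
  have hb1 : (1 : ℝ) ≤ B.card := by exact_mod_cast hBne.card_pos
  set b : ℝ := (B.card : ℝ) with hb
  have hb0 : 0 < b := by linarith
  set T : ℝ := Q ^ θ with hT
  set V : ℝ := Q ^ (1 - θ) with hV
  set G : ℝ := b ^ (1 - θ) with hG
  set R : ℝ := b ^ θ with hR
  have hT0 : 0 < T := Real.rpow_pos_of_pos hQ0 _
  have hV0 : 0 < V := Real.rpow_pos_of_pos hQ0 _
  have hG0 : 0 < G := Real.rpow_pos_of_pos hb0 _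
  have hR0 : 0 < R := Real.rpow_pos_of_pos hb0 _
  have hG1 : 1 ≤ G := Real.one_le_rpow hb1 h1θ.le
  have hTV : T * V = Q := by
    rw [hT, hV, ← Real.rpow_add hQ0]
    have : θ + (1 - θ) = 1 := by ring
    rw [this, Real.rpow_one]
  have hRG : R * G = b := by
    rw [hR, hG, ← Real.rpow_add hb0]
    have : θ + (1 - θ) = 1 := by ring
    rw [this, Real.rpow_one]
  have hTQ : T ≤ Q := by
    calc T ≤ Q ^ (1 : ℝ) := Real.rpow_le_rpow_of_exponent_le hQ1 hθ1.le
      _ = Q := Real.rpow_one Q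
  have hpow : ∀ m : ℕ, Q ^ ((m : ℝ) * e) = x ^ m := by
    intro m
    rw [hx, ← Real.rpow_natCast, ← Real.rpow_mul hQ0.le]
    congr 1
    ring
  have hb2 : b ^ (2 - θ) = b * G := by
    have : (2 - θ : ℝ) = 1 + (1 - θ) := by ring
    rw [this, Real.rpow_add hb0, Real.rpow_one]
  have hbQ : (b * Q) ^ (1 - θ) = G * V := by
    rw [Real.mul_rpow hb0.le hQ0.le]
  have hbQθ : (b * Q) ^ θ = R * T := by
    rw [Real.mul_rpow hb0.le hQ0.le]
  have hx10 : Q ^ (ε₀ / 4) = x ^ 10 := by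
    rw [← hpow 10]
    congr 1
    rw [he]
    push_cast
    ring
  have hUx : Q ^ (1 + e) = Q * x := by
    rw [Real.rpow_add hQ0, Real.rpow_one]
  -- the main size condition
  have hmain : b * G * x ^ 40 ≤ T := by
    have h2 : b ^ (2 - θ) ≤ (Q ^ (θ / (2 - θ) - ε₀)) ^ (2 - θ) :=
      Real.rpow_le_rpow hb0.le hB h2θ.le
    rw [← Real.rpow_mul hQ0.le] at h2
    rw [← hb2, ← hpow 40]
    calc b ^ (2 - θ) * Q ^ (((40 : ℕ) : ℝ) * e)
        ≤ Q ^ ((θ / (2 - θ) - ε₀) * (2 - θ)) * Q ^ (((40 : ℕ) : ℝ) * e) :=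
          mul_le_mul_of_nonneg_right h2 (Real.rpow_nonneg hQ0.le _)
      _ = Q ^ ((θ / (2 - θ) - ε₀) * (2 - θ) + ((40 : ℕ) : ℝ) * e) := by
          rw [← Real.rpow_add hQ0]
      _ ≤ T := by
          refine Real.rpow_le_rpow_of_exponent_le hQ1 ?_
          have h3 : (θ / (2 - θ) - ε₀) * (2 - θ) = θ - ε₀ * (2 - θ) := by
            field_simp
          have h4 : ε₀ * 1 ≤ ε₀ * (2 - θ) := mul_le_mul_of_nonneg_left (by linarith) h0.le
          rw [h3, he]
          push_cast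
          linarith
  have hφ0 : (0 : ℝ) < (q.totient : ℝ) := by
    exact_mod_cast Nat.totient_pos.2 (by omega)
  set φ : ℝ := (q.totient : ℝ) with hφ
  have hφ1 : Q ≤ K1 * x * φ := C2_phi e he0 q (by omega)
  have hinv : 1 / φ ≤ K1 * x / Q := by
    rw [div_le_div_iff₀ hφ0 hQ0]
    linarith
  have hbs : b * x ^ 40 ≤ T := by
    have h2 : b ≤ b * G := le_mul_of_one_le_right hb0.le hG1
    exact (mul_le_mul_of_nonneg_right h2 (by positivity)).trans hmain
  have hDle : ((Ds q B a).card : ℝ) ≤ C1 * (b * x) := by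
    have h2 := hDs q hq2 B a
    have h3 : 1 ≤ b * x := one_le_mul_of_one_le_of_one_le hb1 hx1
    calc ((Ds q B a).card : ℝ) ≤ 1 + C' * b * x := h2
      _ ≤ b * x + C' * (b * x) := by linarith
      _ = _ := by rw [hC1]; ring
  have hD0 : (0 : ℝ) ≤ ((Ds q B a).card : ℝ) := Nat.cast_nonneg _
  obtain ⟨hD1, hDq⟩ := Ds_mem q hq2 B a
  have hUq : Q ≤ Q * x := le_mul_of_one_le_right hQ0.le hx1
  have hU1 : 1 ≤ Q * x := by linarith
  -- the total weight
  have htot : ∀ M : ℕ, ∑ n ∈ Icc 2 M, |cn (Ds q B a) (Q * x) n| * (n : ℝ) ^ (-θ) ≤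
      c2 * (C1 * x ^ 2 * (G * V)) := by
    intro M
    have h2 := sum_cn θ hθ0 hθ1 (Ds q B a) (fun d hd => (hDq d hd).1) (Q * x) hU1 M
    have h3 : ∑ n ∈ Icc 2 M, |cn (Ds q B a) (Q * x) n| * (n : ℝ) ^ (-θ) ≤
        ∑ n ∈ Icc 1 M, |cn (Ds q B a) (Q * x) n| * (n : ℝ) ^ (-θ) := by
      refine Finset.sum_le_sum_of_subset_of_nonneg (Finset.Icc_subset_Icc (by norm_num) le_rfl) ?_
      intro n _ _
      exact mul_nonneg (abs_nonneg _) (Real.rpow_nonneg (Nat.cast_nonneg n) _)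
    refine h3.trans (h2.trans ?_)
    refine mul_le_mul_of_nonneg_left ?_ (by positivity)
    have h4 : ((Ds q B a).card : ℝ) * (Q * x) ≤ (C1 * x ^ 2) * (b * Q) := by
      calc ((Ds q B a).card : ℝ) * (Q * x) ≤ C1 * (b * x) * (Q * x) :=
            mul_le_mul_of_nonneg_right hDle (by positivity)
        _ = (C1 * x ^ 2) * (b * Q) := by ring
    have h5 : 1 ≤ C1 * x ^ 2 := by
      exact one_le_mul_of_one_le_of_one_le (by linarith) (one_le_pow₀ hx1)
    calc (((Ds q B a).card : ℝ) * (Q * x)) ^ (1 - θ) ≤ ((C1 * x ^ 2) * (b * Q)) ^ (1 - θ) :=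
          Real.rpow_le_rpow (by positivity) h4 h1θ.le
      _ = (C1 * x ^ 2) ^ (1 - θ) * (G * V) := by
          rw [Real.mul_rpow (by positivity) (by positivity), hbQ]
      _ ≤ (C1 * x ^ 2) ^ (1 : ℝ) * (G * V) := by
          refine mul_le_mul_of_nonneg_right ?_ (by positivity)
          exact Real.rpow_le_rpow_of_exponent_le h5 (by linarith)
      _ = C1 * x ^ 2 * (G * V) := by rw [Real.rpow_one]
  have hx240 : x ^ 2 ≤ x ^ 40 := pow_le_pow_right₀ hx1 (by norm_num)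
  refine ⟨?_, ?_, ?_, ?_, ?_⟩
  · -- `4 b ≤ φ`
    have h2 : 4 * K1 * x ≤ x ^ 40 := by
      calc 4 * K1 * x ≤ x * x := mul_le_mul_of_nonneg_right (hK3a.trans hxK) hx0.le
        _ = x ^ 2 := by ring
        _ ≤ x ^ 40 := hx240
    have h3 : 4 * b * (K1 * x) ≤ T := by
      calc 4 * b * (K1 * x) = b * (4 * K1 * x) := by ring
        _ ≤ b * x ^ 40 := mul_le_mul_of_nonneg_left h2 hb0.le
        _ ≤ T := hbs
    have h5 : 4 * b * (K1 * x) ≤ φ * (K1 * x) := by linarith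
    exact le_of_mul_le_mul_right h5 (by positivity)
  · rw [hbQ, hx10]
    have h2 : 2 * (c2 * C1 * K1) * x ^ 11 ≤ x ^ 40 := by
      calc 2 * (c2 * C1 * K1) * x ^ 11 ≤ x * x ^ 11 :=
            mul_le_mul_of_nonneg_right (hK3c.trans hxK) (by positivity)
        _ = x ^ 12 := by ring
        _ ≤ x ^ 40 := pow_le_pow_right₀ hx1 (by norm_num)
    calc 2 * b / φ * (c2 * C1 * (G * V) * x ^ 10)
        = (2 * b * (c2 * C1 * (G * V) * x ^ 10)) * (1 / φ) := by ring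
      _ ≤ (2 * b * (c2 * C1 * (G * V) * x ^ 10)) * (K1 * x / Q) :=
          mul_le_mul_of_nonneg_left hinv (by positivity)
      _ = (b * G * (2 * (c2 * C1 * K1) * x ^ 11)) / T := by
          rw [← hTV]
          field_simp
      _ ≤ (b * G * x ^ 40) / T := by
          refine div_le_div_of_nonneg_right ?_ hT0.le
          exact mul_le_mul_of_nonneg_left h2 (by positivity)
      _ ≤ 1 := by
          rw [div_le_one hT0]
          exact hmain
  · have h2 : C1 * x ≤ x ^ 40 := by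
      calc C1 * x ≤ x * x := mul_le_mul_of_nonneg_right (hK3b.trans hxK) hx0.le
        _ = x ^ 2 := by ring
        _ ≤ x ^ 40 := hx240
    calc ((Ds q B a).card : ℝ) ≤ C1 * (b * x) := hDle
      _ = b * (C1 * x) := by ring
      _ ≤ b * x ^ 40 := mul_le_mul_of_nonneg_left h2 hb0.le
      _ ≤ T := hbs
      _ ≤ Q := hTQ
  · rw [hUx]
    set M : ℕ := q * ⌈2 * (Q * x)⌉₊ with hM
    have hMle : (M : ℝ) ≤ 3 * (Q ^ 2 * x) := by
      have h2 : ((⌈2 * (Q * x)⌉₊ : ℕ) : ℝ) < 2 * (Q * x) + 1 :=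
        Nat.ceil_lt_add_one (by positivity)
      rw [hM]
      push_cast
      rw [← hQ]
      have h3 := mul_le_mul_of_nonneg_left h2.le hQ0.le
      have h4 := mul_le_mul_of_nonneg_left hU1 hQ0.le
      have h5 : Q * (2 * (Q * x) + 1) = 2 * (Q ^ 2 * x) + Q * 1 := by ring
      have h6 : Q * (Q * x) = Q ^ 2 * x := by ring
      linarith
    have hnpow : ∀ n : ℕ, 1 ≤ n → n ≤ M → (n : ℝ) ^ (-θ + 3 * e) ≤
        (3 * x ^ 7) * (n : ℝ) ^ (-θ) := by
      intro n hn hnM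
      have hn0 : (0 : ℝ) < n := by exact_mod_cast hn
      have hnr : (n : ℝ) ≤ 3 * (Q ^ 2 * x) := by
        have : (n : ℝ) ≤ M := by exact_mod_cast hnM
        linarith
      rw [Real.rpow_add hn0, mul_comm]
      refine mul_le_mul_of_nonneg_right ?_ (Real.rpow_nonneg hn0.le _)
      have h2 : (n : ℝ) ^ (3 * e) ≤ (3 * (Q ^ 2 * x)) ^ (3 * e) :=
        Real.rpow_le_rpow hn0.le hnr (by positivity)
      refine h2.trans ?_
      rw [Real.mul_rpow (by norm_num) (by positivity)]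
      have h3 : (3 : ℝ) ^ (3 * e) ≤ 3 := by
        calc (3 : ℝ) ^ (3 * e) ≤ (3 : ℝ) ^ (1 : ℝ) :=
              Real.rpow_le_rpow_of_exponent_le (by norm_num) (by linarith)
          _ = 3 := Real.rpow_one 3
      have h4 : (Q ^ 2 * x) ^ (3 * e) ≤ x ^ 7 := by
        have h5 : Q ^ 2 * x = Q ^ (2 + e) := by
          have h6 : Q ^ 2 = Q ^ (2 : ℝ) := by
            rw [← Real.rpow_natCast]
            norm_num
          rw [h6, Real.rpow_add hQ0]
        rw [h5, ← Real.rpow_mul hQ0.le, ← hpow 7]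
        refine Real.rpow_le_rpow_of_exponent_le hQ1 ?_
        push_cast
        have h6 : (2 + e) * (3 * e) = e * (6 + 3 * e) := by ring
        have h7 : e * (6 + 3 * e) ≤ e * 7 := mul_le_mul_of_nonneg_left (by linarith) he0.le
        linarith
      exact mul_le_mul h3 h4 (by positivity) (by norm_num)
    -- pass to the weight `n ^ (-θ)`
    have hstep : ∀ n ∈ (Icc 2 M).filter (fun n => Nat.Coprime n q),
        (|cn (Ds q B a) (Q * x) n| *
          ((if q < n ∧ a * (un q n)⁻¹ ∈ B then 1 else 0) + 2 * b / φ)) *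
        (n : ℝ) ^ (-θ + 3 * e) ≤
        (3 * x ^ 7) * ((if q < n ∧ a * (un q n)⁻¹ ∈ B then
            |cn (Ds q B a) (Q * x) n| * (n : ℝ) ^ (-θ) else 0) +
          2 * b / φ * (|cn (Ds q B a) (Q * x) n| * (n : ℝ) ^ (-θ))) := by
      intro n hn
      rw [Finset.mem_filter, Finset.mem_Icc] at hn
      have h2 := hnpow n (by omega) hn.1.2
      have h3 : 0 ≤ |cn (Ds q B a) (Q * x) n| *
          ((if q < n ∧ a * (un q n)⁻¹ ∈ B then (1 : ℝ) else 0) + 2 * b / φ) := by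
        refine mul_nonneg (abs_nonneg _) (add_nonneg ?_ (by positivity))
        split_ifs
        · exact zero_le_one
        · exact le_rfl
      refine (mul_le_mul_of_nonneg_left h2 h3).trans (le_of_eq ?_)
      split_ifs
      · ring
      · ring
    refine (Finset.sum_le_sum hstep).trans ?_
    rw [← Finset.mul_sum, Finset.sum_add_distrib]
    -- first part
    have hE : ∀ n : ℕ, 1 ≤ n → n ≤ q ^ 2 → (n.divisors.card : ℝ) ≤ C'' * x ^ 2 := by
      intro n hn hnq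
      refine (hdiv n hn).trans (mul_le_mul_of_nonneg_left ?_ hC'')
      have h2 : (n : ℝ) ≤ Q ^ (2 : ℝ) := by
        have h3 : (n : ℝ) ≤ ((q ^ 2 : ℕ) : ℝ) := by exact_mod_cast hnq
        push_cast at h3
        rw [hQ]
        have h4 : ((q : ℝ)) ^ (2 : ℝ) = (q : ℝ) ^ 2 := by
          rw [← Real.rpow_natCast]
          norm_num
        rw [h4]
        exact h3
      calc (n : ℝ) ^ e ≤ (Q ^ (2 : ℝ)) ^ e := Real.rpow_le_rpow (Nat.cast_nonneg n) h2 he0.le
        _ = x ^ 2 := by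
            rw [← Real.rpow_mul hQ0.le, ← hpow 2]
            congr 1
    have hfar := sum_far θ hθ0 hθ1 q hq2 B (by exact_mod_cast hBne.card_pos) a (Ds q B a) hDq
      (Q * x) (by rw [← hQ]; exact hUq) M (C'' * x ^ 2) hE
    have hp1 : ∑ n ∈ (Icc 2 M).filter (fun n => Nat.Coprime n q),
        (if q < n ∧ a * (un q n)⁻¹ ∈ B then
            |cn (Ds q B a) (Q * x) n| * (n : ℝ) ^ (-θ) else 0) ≤
        (c1 * C'' + 3 * C1) * x ^ 3 * (b * G) / T := by
      rw [← Finset.sum_filter]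
      have h2 : ((Icc 2 M).filter (fun n => Nat.Coprime n q)).filter
            (fun n => q < n ∧ a * (un q n)⁻¹ ∈ B) ⊆
          (Icc (q + 1) M).filter (fun n => Nat.Coprime n q ∧ a * (un q n)⁻¹ ∈ B) := by
        intro n hn
        rw [Finset.mem_filter, Finset.mem_filter, Finset.mem_Icc] at hn
        rw [Finset.mem_filter, Finset.mem_Icc]
        exact ⟨⟨hn.2.1, hn.1.1.2⟩, hn.1.2, hn.2.2⟩
      refine (Finset.sum_le_sum_of_subset_of_nonneg h2 fun n _ _ =>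
        mul_nonneg (abs_nonneg _) (Real.rpow_nonneg (Nat.cast_nonneg n) _)).trans ?_
      refine hfar.trans ?_
      rw [← hb, ← hQ, hb2, hbQθ, ← hT, ← hc1]
      have h3 : 2 * (Q * x) / Q + 1 ≤ 3 * x := by
        have : 2 * (Q * x) / Q = 2 * x := by
          field_simp
        rw [this]
        linarith
      have h4 : ((Ds q B a).card : ℝ) * b * (2 * (Q * x) / Q + 1) ≤
          C1 * (b * x) * b * (3 * x) := by
        refine mul_le_mul ?_ h3 (by positivity) (by positivity)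
        exact mul_le_mul_of_nonneg_right hDle hb0.le
      have h5 : ((Ds q B a).card : ℝ) * b * (2 * (Q * x) / Q + 1) / (R * T) ≤
          C1 * (b * x) * b * (3 * x) / (R * T) :=
        div_le_div_of_nonneg_right h4 (by positivity)
      have h6 : C1 * (b * x) * b * (3 * x) / (R * T) = 3 * C1 * x ^ 2 * (b * G) / T := by
        have h7 : b / R = G := by
          rw [div_eq_iff hR0.ne', mul_comm]
          exact hRG.symm
        calc C1 * (b * x) * b * (3 * x) / (R * T) = 3 * C1 * x ^ 2 * (b * (b / R)) / T := by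
              field_simp
          _ = 3 * C1 * x ^ 2 * (b * G) / T := by rw [h7]
      have h7 : c1 * (C'' * x ^ 2) * (b * G) / T + 3 * C1 * x ^ 2 * (b * G) / T =
          (c1 * C'' + 3 * C1) * x ^ 2 * (b * G) / T := by ring
      have h8 : (c1 * C'' + 3 * C1) * x ^ 2 * (b * G) / T ≤
          (c1 * C'' + 3 * C1) * x ^ 3 * (b * G) / T := by
        refine div_le_div_of_nonneg_right (mul_le_mul_of_nonneg_right
          (mul_le_mul_of_nonneg_left ?_ (by positivity)) (by positivity)) hT0.le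
        exact pow_le_pow_right₀ hx1 (by norm_num)
      linarith
    have hp2 : ∑ n ∈ (Icc 2 M).filter (fun n => Nat.Coprime n q),
        2 * b / φ * (|cn (Ds q B a) (Q * x) n| * (n : ℝ) ^ (-θ)) ≤
        2 * (c2 * C1 * K1) * x ^ 3 * (b * G) / T := by
      rw [← Finset.mul_sum]
      have h2 : ∑ n ∈ (Icc 2 M).filter (fun n => Nat.Coprime n q),
          |cn (Ds q B a) (Q * x) n| * (n : ℝ) ^ (-θ) ≤ c2 * (C1 * x ^ 2 * (G * V)) := by
        refine le_trans (Finset.sum_le_sum_of_subset_of_nonneg (Finset.filter_subset _ _) ?_) (htot M)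
        intro n _ _
        exact mul_nonneg (abs_nonneg _) (Real.rpow_nonneg (Nat.cast_nonneg n) _)
      calc 2 * b / φ * ∑ n ∈ (Icc 2 M).filter (fun n => Nat.Coprime n q),
            |cn (Ds q B a) (Q * x) n| * (n : ℝ) ^ (-θ)
          ≤ 2 * b / φ * (c2 * (C1 * x ^ 2 * (G * V))) :=
            mul_le_mul_of_nonneg_left h2 (by positivity)
        _ = (2 * b * (c2 * (C1 * x ^ 2 * (G * V)))) * (1 / φ) := by ring
        _ ≤ (2 * b * (c2 * (C1 * x ^ 2 * (G * V)))) * (K1 * x / Q) :=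
            mul_le_mul_of_nonneg_left hinv (by positivity)
        _ = 2 * (c2 * C1 * K1) * x ^ 3 * (b * G) / T := by
            rw [← hTV]
            field_simp
    have hsum := add_le_add hp1 hp2
    have h2 : (3 * x ^ 7) * ((c1 * C'' + 3 * C1) * x ^ 3 * (b * G) / T +
        2 * (c2 * C1 * K1) * x ^ 3 * (b * G) / T) ≤ 1 / 2 := by
      have h3 : 6 * (c1 * C'' + 3 * C1 + 2 * (c2 * C1 * K1)) * x ^ 10 ≤ x ^ 40 := by
        calc 6 * (c1 * C'' + 3 * C1 + 2 * (c2 * C1 * K1)) * x ^ 10 ≤ x * x ^ 10 :=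
              mul_le_mul_of_nonneg_right (hK3d.trans hxK) (by positivity)
          _ = x ^ 11 := by ring
          _ ≤ x ^ 40 := pow_le_pow_right₀ hx1 (by norm_num)
      have h4 : (3 * x ^ 7) * ((c1 * C'' + 3 * C1) * x ^ 3 * (b * G) / T +
          2 * (c2 * C1 * K1) * x ^ 3 * (b * G) / T) =
          1 / 2 * ((b * G * (6 * (c1 * C'' + 3 * C1 + 2 * (c2 * C1 * K1)) * x ^ 10)) / T) := by
        ring
      rw [h4]
      have h5 : (b * G * (6 * (c1 * C'' + 3 * C1 + 2 * (c2 * C1 * K1)) * x ^ 10)) / T ≤ 1 := by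
        rw [div_le_one hT0]
        exact (mul_le_mul_of_nonneg_left h3 (by positivity)).trans hmain
      linarith
    refine le_trans ?_ h2
    exact mul_le_mul_of_nonneg_left hsum (by positivity)
  · rw [hUx, hbQ, hx10]
    refine (htot _).trans ?_
    have h2 : x ^ 2 ≤ x ^ 10 := pow_le_pow_right₀ hx1 (by norm_num)
    calc c2 * (C1 * x ^ 2 * (G * V)) = c2 * C1 * (G * V) * x ^ 2 := by ring
      _ ≤ c2 * C1 * (G * V) * x ^ 10 := mul_le_mul_of_nonneg_left h2 (by positivity)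

end Pool.Agent.MY
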