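import Mathlib
import Pool.Agent.Lib.MP_9cfc0a_nt.MY.Defs
import Pool.Agent.Lib.MP_9cfc0a_nt.Mg.G024

set_option autoImplicit false

namespace Pool.Agent.MY

open Complex Finset

lemma mem_nt (q : ℕ) [NeZero q] (χ : DirichletCharacter ℂ q) : χ ∈ nt q ↔ χ ≠ 1 := by
  unfold nt
  simp

lemma un_coe (q n : ℕ) (h : Nat.Coprime n q) : ((un q n : (ZMod q)ˣ) : ZMod q) = n := by
  unfold un
  rw [dif_pos h, ZMod.coe_unitOfCoprime]

lemma logDeriv_analyticAt (q : ℕ) [NeZero q] (χ : DirichletCharacter ℂ q) (s : ℂ) (hs : 1 < s.re) :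
    AnalyticAt ℂ (fun z => -logDeriv χ.LFunction z) s := by
  have hz : s ≠ 1 := by
    intro h
    rw [h, Complex.one_re] at hs
    exact lt_irrefl _ hs
  have h2 : AnalyticAt ℂ χ.LFunction s := by
    refine DifferentiableOn.analyticAt (s := {1}ᶜ) (fun w hw => ?_)
      (isOpen_compl_singleton.mem_nhds hz)
    exact (χ.differentiableAt_LFunction w (.inl hw)).differentiableWithinAt
  have h3 : χ.LFunction s ≠ 0 :=
    DirichletCharacter.LFunction_ne_zero_of_one_le_re χ (.inr hz) hs.le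
  exact (h2.deriv.div h2 h3).neg

lemma A2_totient (q : ℕ) [NeZero q] : (q.totient : ℂ) ≠ 0 := by
  exact_mod_cast (Nat.totient_pos.mpr (Nat.pos_of_ne_zero (NeZero.ne q))).ne'

lemma sum_units (q : ℕ) [NeZero q] (f : ZMod q → ℂ) (hf : ∀ b, ¬ IsUnit b → f b = 0) :
    ∑ b, f b = ∑ u : (ZMod q)ˣ, f (u : ZMod q) := by
  classical
  have h1 : ∑ u : (ZMod q)ˣ, f (u : ZMod q)
      = ∑ b ∈ (univ : Finset (ZMod q)ˣ).image (fun u : (ZMod q)ˣ => (u : ZMod q)), f b := by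
    rw [sum_image (fun x _ y _ h => Units.ext h)]
  rw [h1]
  symm
  refine sum_subset (subset_univ _) fun b _ hb => hf b fun hu => hb ?_
  obtain ⟨u, hu⟩ := hu
  exact mem_image.mpr ⟨u, mem_univ _, hu⟩

lemma orth (q : ℕ) [NeZero q] (χ ψ : DirichletCharacter ℂ q) [Decidable (χ = ψ)] :
    ∑ a : (ZMod q)ˣ, χ (a : ZMod q) * ψ ((a⁻¹ : (ZMod q)ˣ) : ZMod q)
      = if χ = ψ then (q.totient : ℂ) else 0 := by
  classical
  have h1 : ∀ a : (ZMod q)ˣ, χ (a : ZMod q) * ψ ((a⁻¹ : (ZMod q)ˣ) : ZMod q)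
      = (χ * ψ⁻¹) (a : ZMod q) := by
    intro a
    rw [MulChar.mul_apply, MulChar.inv_apply]
    congr 2
    rw [Ring.inverse_unit]
  rw [sum_congr rfl fun a _ => h1 a,
    ← sum_units q (fun b => (χ * ψ⁻¹) b) (fun b hb => MulChar.map_nonunit _ hb)]
  split_ifs with h
  · subst h
    rw [mul_inv_cancel]
    rw [sum_units q (fun b => (1 : DirichletCharacter ℂ q) b) (fun b hb => MulChar.map_nonunit _ hb)]
    have h2 : ∀ u : (ZMod q)ˣ, (1 : DirichletCharacter ℂ q) (u : ZMod q) = 1 := fun u =>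
      MulChar.one_apply_coe u
    rw [sum_congr rfl fun u _ => h2 u, sum_const, card_univ, ZMod.card_units_eq_totient]
    simp
  · refine MulChar.sum_eq_zero_of_ne_one fun h2 => h ?_
    exact mul_inv_eq_one.mp h2

/-- A2. The class form of the multiplication by a Dirichlet polynomial. -/
lemma ident (q : ℕ) [NeZero q] (s : ℂ) (hs : 1 < s.re) (k N : ℕ) (c : ℕ → ℂ) (a : (ZMod q)ˣ) :
    (1 / (q.totient : ℂ)) * ∑ χ ∈ nt q, χ ((a⁻¹ : (ZMod q)ˣ) : ZMod q) *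
        TC (fun z => (-logDeriv χ.LFunction z) * ∑ n ∈ Icc 1 N, c n * χ n * (n : ℂ) ^ (-z)) s k
      = ∑ n ∈ (Icc 1 N).filter (fun n => Nat.Coprime n q), c n * Dn q s k (a * (un q n)⁻¹) n := by
  have h1 : ∀ χ : DirichletCharacter ℂ q,
      TC (fun z => (-logDeriv χ.LFunction z) * ∑ n ∈ Icc 1 N, c n * χ n * (n : ℂ) ^ (-z)) s k
      = ∑ n ∈ (Icc 1 N).filter (fun n => Nat.Coprime n q), c n * χ n * ∑ i ∈ range (k + 1),
        gi s i n * TC (fun z => -logDeriv χ.LFunction z) s (k - i) := by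
    intro χ
    have h2 : (fun z => (-logDeriv χ.LFunction z) * ∑ n ∈ Icc 1 N, c n * χ n * (n : ℂ) ^ (-z))
        = fun z => ∑ n ∈ Icc 1 N, (c n * χ n) *
          ((fun n : ℕ => fun z : ℂ => (n : ℂ) ^ (-z) * (-logDeriv χ.LFunction z)) n z) := by
      funext z
      rw [mul_sum]
      refine sum_congr rfl fun n _ => ?_
      ring
    have hL := logDeriv_analyticAt q χ s hs
    rw [h2, TC_sum (Icc 1 N) (fun n => c n * χ n)
      (fun n : ℕ => fun z : ℂ => (n : ℂ) ^ (-z) * (-logDeriv χ.LFunction z)) s (fun n hn => ?_) k]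
    · rw [sum_filter]
      refine sum_congr rfl fun n hn => ?_
      rw [mem_Icc] at hn
      split_ifs with hc
      · rw [TC_shift _ s hL n hn.1 k]
      · rw [show χ (n : ZMod q) = 0 from MulChar.map_nonunit χ (fun hu => hc
          ((ZMod.isUnit_iff_coprime n q).mp hu))]
        simp
    · rw [mem_Icc] at hn
      have hn0 : (n : ℂ) ≠ 0 := by exact_mod_cast (by omega : n ≠ 0)
      have h3 : Differentiable ℂ (fun z : ℂ => (n : ℂ) ^ (-z)) := fun z =>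
        ((hasDerivAt_neg z).const_cpow (c := (n : ℂ)) (.inl hn0)).differentiableAt
      exact (h3.analyticAt s).mul hL
  rw [sum_congr rfl fun χ _ => by rw [h1 χ]]
  unfold Dn Dk
  simp only [mul_sum]
  rw [sum_comm]
  refine sum_congr rfl fun n hn => ?_
  rw [mem_filter] at hn
  rw [sum_comm]
  refine sum_congr rfl fun i _ => ?_
  refine sum_congr rfl fun χ _ => ?_
  have h3 : (((a * (un q n)⁻¹)⁻¹ : (ZMod q)ˣ) : ZMod q) = ((a⁻¹ : (ZMod q)ˣ) : ZMod q) * n := by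
    rw [mul_inv, inv_inv, Units.val_mul, un_coe q n hn.2]
  rw [h3, map_mul]
  ring

lemma Dn_one (q : ℕ) [NeZero q] (s : ℂ) (k : ℕ) (a : (ZMod q)ˣ) : Dn q s k a 1 = Dk q s k a := by
  unfold Dn
  rw [sum_eq_single 0]
  · rw [Nat.cast_one, gi_one]
    simp
  · intro i _ hi
    rw [Nat.cast_one, gi_one, if_neg hi, zero_mul]
  · intro h
    exact absurd (mem_range.mpr (Nat.succ_pos k)) h

lemma A2_sum_Dk (q : ℕ) [NeZero q] (s : ℂ) (k : ℕ) : ∑ a : (ZMod q)ˣ, Dk q s k a = 0 := by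
  classical
  unfold Dk
  rw [← mul_sum, sum_comm]
  rw [sum_eq_zero, mul_zero]
  intro χ hχ
  rw [mem_nt] at hχ
  rw [← sum_mul]
  have h1 := orth q 1 χ
  rw [if_neg (Ne.symm hχ)] at h1
  have h2 : ∑ a : (ZMod q)ˣ, χ ((a⁻¹ : (ZMod q)ˣ) : ZMod q) = 0 := by
    rw [← h1]
    refine sum_congr rfl fun a _ => ?_
    rw [MulChar.one_apply_coe, one_mul]
  rw [h2, zero_mul]

/-- The sum over all classes vanishes. -/
lemma sum_Dn (q : ℕ) [NeZero q] (s : ℂ) (k n : ℕ) : ∑ a : (ZMod q)ˣ, Dn q s k a n = 0 := by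
  unfold Dn
  rw [sum_comm]
  refine sum_eq_zero fun i _ => ?_
  rw [← mul_sum, A2_sum_Dk, mul_zero]

/-- Fourier inversion. -/
lemma A2_inv (q : ℕ) [NeZero q] (s : ℂ) (k : ℕ) (χ : DirichletCharacter ℂ q) (hχ : χ ≠ 1) :
    TC (fun z => -logDeriv χ.LFunction z) s k = ∑ a : (ZMod q)ˣ, χ (a : ZMod q) * Dk q s k a := by
  classical
  unfold Dk
  have h1 : ∀ a : (ZMod q)ˣ, χ (a : ZMod q) * (1 / (q.totient : ℂ) * ∑ ψ ∈ nt q,
      ψ ((a⁻¹ : (ZMod q)ˣ) : ZMod q) * TC (fun z => -logDeriv ψ.LFunction z) s k)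
      = ∑ ψ ∈ nt q, (1 / (q.totient : ℂ)) * TC (fun z => -logDeriv ψ.LFunction z) s k *
        (χ (a : ZMod q) * ψ ((a⁻¹ : (ZMod q)ˣ) : ZMod q)) := by
    intro a
    rw [mul_sum, mul_sum]
    refine sum_congr rfl fun ψ _ => ?_
    ring
  rw [sum_congr rfl fun a _ => h1 a, sum_comm]
  have h2 : ∀ ψ ∈ nt q, ∑ a : (ZMod q)ˣ, (1 / (q.totient : ℂ)) *
      TC (fun z => -logDeriv ψ.LFunction z) s k *
        (χ (a : ZMod q) * ψ ((a⁻¹ : (ZMod q)ˣ) : ZMod q))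
      = if χ = ψ then TC (fun z => -logDeriv ψ.LFunction z) s k else 0 := by
    intro ψ _
    rw [← mul_sum, orth q χ ψ]
    split_ifs with h
    · field_simp [A2_totient q]
    · rw [mul_zero]
  rw [sum_congr rfl h2, sum_ite_eq, if_pos ((mem_nt q χ).mpr hχ)]

/-- Parseval. -/
lemma parseval (q : ℕ) [NeZero q] (s : ℂ) (k : ℕ) :
    ∑ a : (ZMod q)ˣ, ‖Dk q s k a‖ ^ 2
      = (1 / (q.totient : ℝ)) * ∑ χ ∈ nt q, ‖TC (fun z => -logDeriv χ.LFunction z) s k‖ ^ 2 := by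
  classical
  have key : ((∑ a : (ZMod q)ˣ, ‖Dk q s k a‖ ^ 2 : ℝ) : ℂ)
      = (((1 / (q.totient : ℝ)) * ∑ χ ∈ nt q,
        ‖TC (fun z => -logDeriv χ.LFunction z) s k‖ ^ 2 : ℝ) : ℂ) := by
    push_cast
    have h1 : ∀ χ ∈ nt q, ((‖TC (fun z => -logDeriv χ.LFunction z) s k‖ : ℝ) : ℂ) ^ 2
        = ∑ a : (ZMod q)ˣ, starRingEnd ℂ (TC (fun z => -logDeriv χ.LFunction z) s k) *
          (χ (a : ZMod q) * Dk q s k a) := by
      intro χ hχ
      rw [← Complex.conj_mul', ← mul_sum, ← A2_inv q s k χ ((mem_nt q χ).mp hχ)]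
    rw [sum_congr rfl h1, sum_comm, mul_sum]
    refine sum_congr rfl fun a _ => ?_
    rw [← Complex.conj_mul']
    have h2 : starRingEnd ℂ (Dk q s k a) = (1 / (q.totient : ℂ)) * ∑ χ ∈ nt q,
        χ (a : ZMod q) * starRingEnd ℂ (TC (fun z => -logDeriv χ.LFunction z) s k) := by
      unfold Dk
      rw [map_mul, map_div₀, map_one, map_natCast, map_sum]
      congr 1
      refine sum_congr rfl fun χ _ => ?_
      rw [map_mul]
      congr 1
      have h3 := EM.X1_star q χ ((a⁻¹ : (ZMod q)ˣ) : ZMod q) (Units.isUnit _)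
      rw [RCLike.star_def] at h3
      rw [h3, ZMod.inv_coe_unit, inv_inv]
    rw [h2, mul_assoc, sum_mul]
    congr 1
    refine sum_congr rfl fun χ _ => ?_
    ring
  exact_mod_cast key

/-- The coefficients of one character from the classes. -/
lemma coeff_le (q : ℕ) [NeZero q] (s : ℂ) (k : ℕ) (χ : DirichletCharacter ℂ q) (hχ : χ ≠ 1) :
    ‖TC (fun z => -logDeriv χ.LFunction z) s k‖ ≤ ∑ a : (ZMod q)ˣ, ‖Dk q s k a‖ := by
  rw [A2_inv q s k χ hχ]
  refine (norm_sum_le _ _).trans (sum_le_sum fun a _ => ?_)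
  rw [norm_mul]
  calc ‖χ (a : ZMod q)‖ * ‖Dk q s k a‖ ≤ 1 * ‖Dk q s k a‖ := by
        gcongr
        exact χ.norm_le_one _
    _ = _ := one_mul _

end Pool.Agent.MY
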