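import Mathlib
import Pool.Agent.Lib.MP_9cfc0a_nt.MY.Defs
import Pool.Agent.Lib.MP_9cfc0a_nt.MY.A2

set_option autoImplicit false

namespace Pool.Agent.MY

open Complex Finset

open MeasureTheory

lemma psiU_nonneg (q : ℕ) (c : (ZMod q)ˣ) (x : ℝ) : 0 ≤ psiU q c x :=
  sum_nonneg fun _ _ => ArithmeticFunction.vonMangoldt_nonneg

lemma psiU_le (q : ℕ) (c : (ZMod q)ˣ) (x : ℝ) (hx : 0 ≤ x) : psiU q c x ≤ 6 * x := by
  have h1 : psiU q c x ≤ Chebyshev.psi x := by
    unfold psiU Chebyshev.psi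
    have hI : Finset.Icc 1 ⌊x⌋₊ = Finset.Ioc 0 ⌊x⌋₊ := by
      ext n; simp [Nat.succ_le_iff]
    rw [hI]
    exact sum_le_sum_of_subset_of_nonneg (filter_subset _ _)
      (fun _ _ _ => ArithmeticFunction.vonMangoldt_nonneg)
  have h2 := Chebyshev.psi_le_const_mul_self hx
  have h3 : Real.log 4 + 4 ≤ 6 := by
    have : Real.log 4 = 2 * Real.log 2 := by
      rw [show (4 : ℝ) = 2 ^ 2 by norm_num, Real.log_pow]; norm_num
    have := Real.log_two_lt_d9
    linarith
  nlinarith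

lemma psiU_meas (q : ℕ) (c : (ZMod q)ˣ) : Measurable (psiU q c) := by
  have h1 : Monotone (psiU q c) := by
    intro x y hxy
    refine sum_le_sum_of_subset_of_nonneg ?_ fun _ _ _ => ArithmeticFunction.vonMangoldt_nonneg
    exact filter_subset_filter _ (Icc_subset_Icc le_rfl (Nat.floor_le_floor hxy))
  exact h1.measurable

/-- `∫ ψ(t; c) g_j(t) / t dt`. -/
noncomputable def mu (q : ℕ) (s : ℂ) (j : ℕ) (c : (ZMod q)ˣ) : ℂ :=
  ∫ t in Set.Ioi (1 : ℝ), (psiU q c t : ℂ) * (gi s j t / t)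

lemma D1_gi_meas (s : ℂ) (j : ℕ) : Measurable (fun t : ℝ => gi s j t) := by
  unfold gi
  have h1 : Measurable (fun t : ℝ => (t : ℂ) ^ (-s)) :=
    Complex.measurable_ofReal.pow_const _
  have h2 : Measurable (fun t : ℝ => (((-Real.log t) ^ j / (j.factorial : ℝ) : ℝ) : ℂ)) :=
    Complex.measurable_ofReal.comp (((Real.measurable_log.neg).pow_const j).div_const _)
  exact h1.mul h2

/-- A measurable function of size `≤ C t` against `g_j(n t) / t`. -/
lemma D1_int (f : ℝ → ℂ) (C : ℝ) (hf : Measurable f) (hb : ∀ t : ℝ, 1 < t → ‖f t‖ ≤ C * t) (s : ℂ)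
    (hs : s.re = 2) (j : ℕ) : IntegrableOn (fun t : ℝ => f t * (gi s j t / t)) (Set.Ioi 1) := by
  have hC : 0 ≤ C := by
    have h1 := (norm_nonneg _).trans (hb 2 (by norm_num))
    linarith
  obtain ⟨K, hK, hlog⟩ := EM.W1_log_pow j (1 / 2) (by norm_num)
  have hm : Measurable (fun t : ℝ => (Real.log t : ℂ) ^ j * f t) :=
    ((Complex.measurable_ofReal.comp Real.measurable_log).pow_const j).mul hf
  have h1 := (MC.MT_integrable (fun t : ℝ => (Real.log t : ℂ) ^ j * f t) (K * C) (3 / 2) hm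
    (fun t ht => ?_) s (by rw [hs]; norm_num)).const_mul ((-1) ^ j / (j.factorial : ℂ))
  · refine h1.congr ?_
    refine (ae_restrict_iff' measurableSet_Ioi).mpr (ae_of_all _ fun t ht => ?_)
    have ht1 : (1 : ℝ) < t := ht
    have ht0 : (t : ℂ) ≠ 0 := by exact_mod_cast (by linarith : t ≠ 0)
    simp only
    unfold gi
    rw [neg_add, Complex.cpow_add _ _ ht0, Complex.cpow_neg_one]
    push_cast
    rw [neg_pow]
    ring
  · have ht0 : 0 < t := by linarith
    rw [norm_mul, norm_pow, Complex.norm_real, Real.norm_of_nonneg (Real.log_nonneg ht.le)]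
    calc (Real.log t) ^ j * ‖f t‖ ≤ (K * t ^ (1 / 2 : ℝ)) * (C * t) := by
          gcongr
          · exact hlog t ht
          · exact hb t ht
      _ = K * C * (t ^ (1 / 2 : ℝ) * t) := by ring
      _ = K * C * t ^ (3 / 2 : ℝ) := by
          rw [show (3 / 2 : ℝ) = 1 / 2 + 1 by norm_num, Real.rpow_add_one ht0.ne']

lemma D1_psiC (q : ℕ) [NeZero q] (χ : DirichletCharacter ℂ q) (t : ℝ) :
    EM.psiC χ t = ∑ c : (ZMod q)ˣ, χ (c : ZMod q) * (psiU q c t : ℂ) := by
  classical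
  unfold EM.psiC
  rw [← Finset.sum_fiberwise (Finset.Icc 1 ⌊t⌋₊) (fun n : ℕ => (n : ZMod q))]
  rw [sum_units q (fun b => ∑ n ∈ (Finset.Icc 1 ⌊t⌋₊).filter (fun n : ℕ => (n : ZMod q) = b),
    χ n * ((ArithmeticFunction.vonMangoldt n : ℝ) : ℂ))]
  · refine sum_congr rfl fun c _ => ?_
    unfold psiU
    rw [Complex.ofReal_sum, mul_sum]
    refine sum_congr rfl fun n hn => ?_
    rw [mem_filter] at hn
    rw [hn.2]
  · intro b hb
    refine sum_eq_zero fun n hn => ?_
    rw [mem_filter] at hn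
    rw [hn.2, MulChar.map_nonunit χ hb, zero_mul]

/-- `m_j(χ)`. -/
lemma D1_TC (q : ℕ) [NeZero q] (χ : DirichletCharacter ℂ q) (s : ℂ) (hs : s.re = 2) (j : ℕ) :
    TC (fun z => -logDeriv χ.LFunction z) s j
      = s * (∫ t in Set.Ioi (1 : ℝ), EM.psiC χ t * (gi s j t / t))
        + (if j = 0 then 0 else ∫ t in Set.Ioi (1 : ℝ), EM.psiC χ t * (gi s (j - 1) t / t)) := by
  have hs1 : 1 < s.re := by rw [hs]; norm_num
  have hMT : ∀ j : ℕ, ∫ t in Set.Ioi (1 : ℝ), EM.psiC χ t * (gi s j t / t)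
      = (-1) ^ j / (j.factorial : ℂ) * MC.MT (EM.W1f χ j) s := by
    intro j
    unfold MC.MT
    rw [← integral_const_mul]
    refine setIntegral_congr_fun measurableSet_Ioi fun t ht => ?_
    have ht1 : (1 : ℝ) < t := ht
    have ht0 : (t : ℂ) ≠ 0 := by exact_mod_cast (by linarith : t ≠ 0)
    unfold gi EM.W1f
    rw [neg_add, Complex.cpow_add _ _ ht0, Complex.cpow_neg_one]
    push_cast
    rw [neg_pow]
    ring
  have hneg : ∀ j : ℕ, iteratedDeriv j (fun z => -logDeriv χ.LFunction z) s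
      = -iteratedDeriv j (logDeriv χ.LFunction) s := by
    intro j
    exact iteratedDeriv_fun_neg j _ s
  unfold TC
  rw [hneg]
  rcases Nat.eq_zero_or_pos j with h | h
  · subst h
    rw [if_pos rfl, hMT, iteratedDeriv_zero, EM.W1_logDeriv χ s hs1]
    simp
  · obtain ⟨n, rfl⟩ : ∃ n, j = n + 1 := ⟨j - 1, by omega⟩
    rw [if_neg (by omega), hMT, Nat.add_sub_cancel, hMT, EM.W1_iter χ n s hs1]
    have h1 : ((n + 1).factorial : ℂ) = (n + 1) * (n.factorial : ℂ) := by
      rw [Nat.factorial_succ]; push_cast; ring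
    have h2 : (n.factorial : ℂ) ≠ 0 := by exact_mod_cast n.factorial_ne_zero
    have h3 : ((n : ℂ) + 1) ≠ 0 := by exact_mod_cast (by omega : n + 1 ≠ 0)
    rw [h1]
    field_simp

/-- The class coefficient with all characters. -/
noncomputable def Zc (q : ℕ) [NeZero q] (s : ℂ) (j : ℕ) (c : (ZMod q)ˣ) : ℂ :=
  (1 / (q.totient : ℂ)) * ∑ χ : DirichletCharacter ℂ q, χ ((c⁻¹ : (ZMod q)ˣ) : ZMod q) *
    TC (fun z => -logDeriv χ.LFunction z) s j

lemma Zc_eq (q : ℕ) [NeZero q] (s : ℂ) (hs : s.re = 2) (j : ℕ) (c : (ZMod q)ˣ) :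
    Zc q s j c = s * mu q s j c + (if j = 0 then 0 else mu q s (j - 1) c) := by
  classical
  have hint : ∀ (j : ℕ) (b : (ZMod q)ˣ), IntegrableOn
      (fun t : ℝ => (psiU q b t : ℂ) * (gi s j t / t)) (Set.Ioi 1) := by
    intro j b
    refine D1_int (fun t => (psiU q b t : ℂ)) 6 (Complex.measurable_ofReal.comp (psiU_meas q b))
      (fun t ht => ?_) s hs j
    rw [Complex.norm_real, Real.norm_of_nonneg (psiU_nonneg q b t)]
    exact psiU_le q b t (by linarith)
  have hpsi : ∀ (χ : DirichletCharacter ℂ q) (j : ℕ),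
      ∫ t in Set.Ioi (1 : ℝ), EM.psiC χ t * (gi s j t / t)
      = ∑ b : (ZMod q)ˣ, χ (b : ZMod q) * mu q s j b := by
    intro χ j
    unfold mu
    have h1 : (fun t : ℝ => EM.psiC χ t * (gi s j t / t))
        = fun t : ℝ => ∑ b : (ZMod q)ˣ, χ (b : ZMod q) * ((psiU q b t : ℂ) * (gi s j t / t)) := by
      funext t
      rw [D1_psiC, sum_mul]
      refine sum_congr rfl fun b _ => ?_
      ring
    rw [h1, integral_finsetSum _ (fun b _ => (hint j b).const_mul _)]
    refine sum_congr rfl fun b _ => ?_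
    rw [integral_const_mul]
  have horth : ∀ j : ℕ, (1 / (q.totient : ℂ)) * ∑ χ : DirichletCharacter ℂ q,
      χ ((c⁻¹ : (ZMod q)ˣ) : ZMod q) * (∑ b : (ZMod q)ˣ, χ (b : ZMod q) * mu q s j b)
      = mu q s j c := by
    intro j
    simp only [mul_sum]
    rw [sum_comm]
    have h1 : ∀ b : (ZMod q)ˣ, ∑ χ : DirichletCharacter ℂ q, 1 / (q.totient : ℂ) *
        (χ ((c⁻¹ : (ZMod q)ˣ) : ZMod q) * (χ (b : ZMod q) * mu q s j b))
        = if c = b then mu q s j b else 0 := by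
      intro b
      have h2 := DirichletCharacter.sum_char_inv_mul_char_eq ℂ (Units.isUnit c) (b : ZMod q)
      have h3 : ∑ χ : DirichletCharacter ℂ q, 1 / (q.totient : ℂ) *
          (χ ((c⁻¹ : (ZMod q)ˣ) : ZMod q) * (χ (b : ZMod q) * mu q s j b))
          = 1 / (q.totient : ℂ) * mu q s j b * ∑ χ : DirichletCharacter ℂ q,
            χ ((c : ZMod q)⁻¹) * χ (b : ZMod q) := by
        rw [mul_sum]
        refine sum_congr rfl fun χ _ => ?_
        rw [ZMod.inv_coe_unit]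
        ring
      rw [h3, h2]
      by_cases h : c = b
      · subst h
        rw [if_pos rfl, if_pos rfl]
        field_simp [A2_totient q]
      · rw [if_neg (fun h4 => h (Units.ext h4)), if_neg h]
        simp
    rw [sum_congr rfl fun b _ => h1 b, sum_ite_eq, if_pos (mem_univ c)]
  unfold Zc
  have h1 : ∀ χ : DirichletCharacter ℂ q, χ ((c⁻¹ : (ZMod q)ˣ) : ZMod q) *
      TC (fun z => -logDeriv χ.LFunction z) s j
      = s * (χ ((c⁻¹ : (ZMod q)ˣ) : ZMod q) * (∑ b : (ZMod q)ˣ, χ (b : ZMod q) * mu q s j b))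
        + (if j = 0 then 0 else χ ((c⁻¹ : (ZMod q)ˣ) : ZMod q) *
          (∑ b : (ZMod q)ˣ, χ (b : ZMod q) * mu q s (j - 1) b)) := by
    intro χ
    rw [D1_TC q χ s hs j, hpsi, hpsi]
    split_ifs <;> ring
  rw [sum_congr rfl fun χ _ => h1 χ, sum_add_distrib, mul_add, ← mul_sum, mul_left_comm, horth]
  congr 1
  split_ifs with h
  · simp
  · exact horth _

/-- `Zc` and `Dk` differ by a quantity independent of the class. -/
lemma Zc_Dk (q : ℕ) [NeZero q] (s : ℂ) (j : ℕ) (c : (ZMod q)ˣ) :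
    Zc q s j c = Dk q s j c + (1 / (q.totient : ℂ)) *
      TC (fun z => -logDeriv (1 : DirichletCharacter ℂ q).LFunction z) s j := by
  classical
  unfold Zc Dk
  rw [← mul_add]
  congr 1
  have h1 : (univ : Finset (DirichletCharacter ℂ q)) = insert 1 (nt q) := by
    ext χ
    simp only [mem_univ, mem_insert, mem_nt, true_iff]
    exact em _
  rw [h1, sum_insert (by rw [mem_nt]; simp), add_comm]
  congr 1
  rw [MulChar.one_apply_coe, one_mul]

/-- The shifted coefficients as an integral. -/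
lemma Zc_shift (q : ℕ) [NeZero q] (s : ℂ) (hs : s.re = 2) (k n : ℕ) (hn : 1 ≤ n) (c : (ZMod q)ˣ) :
    ∑ i ∈ range (k + 2), gi s i n * Zc q s (k + 1 - i) c
      = ∫ t in Set.Ioi (1 : ℝ), (psiU q c t : ℂ) *
        ((s * gi s (k + 1) (n * t) + gi s k (n * t)) / t) := by
  have hn0 : (0 : ℝ) < n := by exact_mod_cast hn
  have hint : ∀ (j : ℕ), IntegrableOn
      (fun t : ℝ => (psiU q c t : ℂ) * (gi s j t / t)) (Set.Ioi 1) := by
    intro j
    refine D1_int (fun t => (psiU q c t : ℂ)) 6 (Complex.measurable_ofReal.comp (psiU_meas q c))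
      (fun t ht => ?_) s hs j
    rw [Complex.norm_real, Real.norm_of_nonneg (psiU_nonneg q c t)]
    exact psiU_le q c t (by linarith)
  have hconv : ∀ j : ℕ, ∑ i ∈ range (j + 1), gi s i n * mu q s (j - i) c
      = ∫ t in Set.Ioi (1 : ℝ), (psiU q c t : ℂ) * (gi s j (n * t) / t) := by
    intro j
    unfold mu
    have h1 : ∫ t in Set.Ioi (1 : ℝ), (psiU q c t : ℂ) * (gi s j (n * t) / t)
        = ∫ t in Set.Ioi (1 : ℝ), ∑ i ∈ range (j + 1), gi s i n *
          ((psiU q c t : ℂ) * (gi s (j - i) t / t)) := by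
      refine setIntegral_congr_fun measurableSet_Ioi fun t ht => ?_
      have ht0 : (0 : ℝ) < t := by have : (1 : ℝ) < t := ht; linarith
      rw [← gi_conv s n t hn0 ht0 j, Finset.sum_div, mul_sum]
      refine sum_congr rfl fun i _ => ?_
      ring
    rw [h1, integral_finsetSum _ (fun i _ => (hint (j - i)).const_mul _)]
    refine sum_congr rfl fun i _ => ?_
    rw [integral_const_mul]
  have hintn : ∀ j : ℕ, IntegrableOn
      (fun t : ℝ => (psiU q c t : ℂ) * (gi s j (n * t) / t)) (Set.Ioi 1) := by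
    intro j
    have h1 : IntegrableOn (fun t : ℝ => ∑ i ∈ range (j + 1), gi s i n *
          ((psiU q c t : ℂ) * (gi s (j - i) t / t))) (Set.Ioi 1) :=
      integrable_finsetSum _ (fun i _ => (hint (j - i)).const_mul _)
    refine h1.congr ?_
    refine (ae_restrict_iff' measurableSet_Ioi).mpr (ae_of_all _ fun t ht => ?_)
    have ht0 : (0 : ℝ) < t := by have : (1 : ℝ) < t := ht; linarith
    simp only
    rw [← gi_conv s n t hn0 ht0 j, Finset.sum_div, mul_sum]
    refine sum_congr rfl fun i _ => ?_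
    ring
  have hsplit : ∫ t in Set.Ioi (1 : ℝ), (psiU q c t : ℂ) *
        ((s * gi s (k + 1) (n * t) + gi s k (n * t)) / t)
      = s * (∫ t in Set.Ioi (1 : ℝ), (psiU q c t : ℂ) * (gi s (k + 1) (n * t) / t))
        + ∫ t in Set.Ioi (1 : ℝ), (psiU q c t : ℂ) * (gi s k (n * t) / t) := by
    rw [← integral_const_mul, ← integral_add ((hintn (k + 1)).const_mul s) (hintn k)]
    refine setIntegral_congr_fun measurableSet_Ioi fun t _ => ?_
    ring
  rw [hsplit, ← hconv, ← hconv, mul_sum, sum_range_succ _ (k + 1)]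
  have h2 : ∀ i ∈ range (k + 1), gi s i n * Zc q s (k + 1 - i) c
      = s * (gi s i n * mu q s (k + 1 - i) c) + gi s i n * mu q s (k - i) c := by
    intro i hi
    rw [mem_range] at hi
    rw [Zc_eq q s hs, if_neg (by omega), show k + 1 - i - 1 = k - i by omega]
    ring
  rw [sum_congr rfl h2, sum_add_distrib, Nat.sub_self, Zc_eq q s hs, if_pos rfl,
    sum_range_succ (fun i => s * (gi s i n * mu q s (k + 1 - i) c)) (k + 1), Nat.sub_self]
  ring

/-- The norm of the kernel. -/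
lemma D1_KK (s : ℂ) (hs : s.re = 2) (S : ℝ) (hS : ‖s‖ ≤ S) (k n : ℕ) (hn : 1 ≤ n) (t : ℝ)
    (ht : 1 ≤ t) : ‖(s * gi s (k + 1) (n * t) + gi s k (n * t)) / (t : ℂ)‖ ≤ KK S k n t := by
  have hn1 : (1 : ℝ) ≤ n := by exact_mod_cast hn
  have ht0 : 0 < t := by linarith
  have hnt : 1 ≤ (n : ℝ) * t := by nlinarith
  have hl : 0 ≤ Real.log (n * t) := Real.log_nonneg hnt
  rw [norm_div, Complex.norm_real, Real.norm_of_nonneg ht0.le]
  unfold KK
  have h1 : ‖s * gi s (k + 1) (n * t) + gi s k (n * t)‖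
      ≤ S * ((Real.log (n * t)) ^ (k + 1) / ((k + 1).factorial : ℝ) / (n * t) ^ 2)
        + (Real.log (n * t)) ^ k / (k.factorial : ℝ) / (n * t) ^ 2 := by
    refine (norm_add_le _ _).trans ?_
    rw [norm_mul]
    have e1 := gi_norm s hs (k + 1) ((n : ℝ) * t) hnt
    have e2 := gi_norm s hs k ((n : ℝ) * t) hnt
    rw [e1, e2]
    gcongr
  calc ‖s * gi s (k + 1) (n * t) + gi s k (n * t)‖ / t
      ≤ (S * ((Real.log (n * t)) ^ (k + 1) / ((k + 1).factorial : ℝ) / (n * t) ^ 2)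
        + (Real.log (n * t)) ^ k / (k.factorial : ℝ) / (n * t) ^ 2) / t := by gcongr
    _ = _ := by
        field_simp

/-- A measurable function of size `≤ C t` against `g_j(n t) / t`. -/
lemma D1_intn (f : ℝ → ℂ) (C : ℝ) (hf : Measurable f) (hb : ∀ t : ℝ, 1 < t → ‖f t‖ ≤ C * t) (s : ℂ)
    (hs : s.re = 2) (j n : ℕ) (hn : 1 ≤ n) :
    IntegrableOn (fun t : ℝ => f t * (gi s j (n * t) / t)) (Set.Ioi 1) := by
  have hn0 : (0 : ℝ) < n := by exact_mod_cast hn
  have h1 : IntegrableOn (fun t : ℝ => ∑ i ∈ range (j + 1), gi s i n *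
        (f t * (gi s (j - i) t / t))) (Set.Ioi 1) :=
    integrable_finsetSum _ (fun i _ => (D1_int f C hf hb s hs (j - i)).const_mul _)
  refine h1.congr ?_
  refine (ae_restrict_iff' measurableSet_Ioi).mpr (ae_of_all _ fun t ht => ?_)
  have ht0 : (0 : ℝ) < t := by have : (1 : ℝ) < t := ht; linarith
  simp only
  rw [← gi_conv s n t hn0 ht0 j, Finset.sum_div, mul_sum]
  refine sum_congr rfl fun i _ => ?_
  ring

lemma D1_gi_two (j : ℕ) (y : ℝ) (hy : 0 < y) :
    gi 2 j y = (((-1) ^ j * ((Real.log y) ^ j / (j.factorial : ℝ) / y ^ 2) : ℝ) : ℂ) := by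
  unfold gi
  rw [Complex.cpow_neg, Complex.cpow_ofNat]
  push_cast
  rw [neg_pow]
  have : (y : ℂ) ≠ 0 := by exact_mod_cast hy.ne'
  field_simp

/-- The real integrand is integrable. -/
lemma D1_intKK (f : ℝ → ℝ) (C : ℝ) (hf : Measurable f) (hb : ∀ t : ℝ, 1 < t → |f t| ≤ C * t)
    (S : ℝ) (k n : ℕ) (hn : 1 ≤ n) :
    IntegrableOn (fun t : ℝ => f t * KK S k n t) (Set.Ioi 1) := by
  have hn0 : (0 : ℝ) < n := by exact_mod_cast hn
  have hfC : Measurable (fun t => (f t : ℂ)) := Complex.measurable_ofReal.comp hf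
  have hbC : ∀ t : ℝ, 1 < t → ‖(f t : ℂ)‖ ≤ C * t := fun t ht => by
    rw [Complex.norm_real, Real.norm_eq_abs]; exact hb t ht
  have h1 := (((D1_intn (fun t => (f t : ℂ)) C hfC hbC 2 (by simp) (k + 1) n hn).const_mul
    ((S : ℂ) * (-1) ^ (k + 1))).add ((D1_intn (fun t => (f t : ℂ)) C hfC hbC 2 (by simp) k n hn).const_mul
    ((-1) ^ k : ℂ))).re
  refine h1.congr ?_
  refine (ae_restrict_iff' measurableSet_Ioi).mpr (ae_of_all _ fun t ht => ?_)
  have ht0 : (0 : ℝ) < t := by have : (1 : ℝ) < t := ht; linarith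
  have hnt : 0 < (n : ℝ) * t := by positivity
  have e1 := D1_gi_two (k + 1) ((n : ℝ) * t) hnt
  have e2 := D1_gi_two k ((n : ℝ) * t) hnt
  have e3 : (S : ℂ) * (-1) ^ (k + 1) * ((f t : ℂ) * (gi 2 (k + 1) (n * t) / (t : ℂ)))
      + (-1) ^ k * ((f t : ℂ) * (gi 2 k (n * t) / (t : ℂ))) = ((f t * KK S k n t : ℝ) : ℂ) := by
    rw [e1, e2]
    unfold KK
    push_cast
    have hp : ((-1 : ℂ)) ^ k * (-1) ^ k = 1 := by rw [← mul_pow]; simp
    have hp1 : ((-1 : ℂ)) ^ (k + 1) * (-1) ^ (k + 1) = 1 := by rw [← mul_pow]; simp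
    have ht1 : (t : ℂ) ≠ 0 := by exact_mod_cast ht0.ne'
    have hn1 : (n : ℂ) ≠ 0 := by exact_mod_cast hn0.ne'
    calc _ = (S : ℂ) * ((-1) ^ (k + 1) * (-1) ^ (k + 1)) * ((f t : ℂ) *
            ((Real.log (n * t) : ℂ) ^ (k + 1) / ((k + 1).factorial : ℂ) / ((n : ℂ) * t) ^ 2 / t))
          + ((-1) ^ k * (-1) ^ k) * ((f t : ℂ) *
            ((Real.log (n * t) : ℂ) ^ k / (k.factorial : ℂ) / ((n : ℂ) * t) ^ 2 / t)) := by ring
      _ = _ := by
          rw [hp, hp1]
          have : ((k + 1).factorial : ℂ) ≠ 0 := by exact_mod_cast (k + 1).factorial_ne_zero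
          have : (k.factorial : ℂ) ≠ 0 := by exact_mod_cast k.factorial_ne_zero
          field_simp
  show RCLike.re _ = _
  simp only [Pi.add_apply]
  rw [e3]
  simp

/-- D1. The difference of two classes as an integral. -/
lemma Dn_diff_le (q : ℕ) [NeZero q] (s : ℂ) (hs : s.re = 2) (S : ℝ) (hS : ‖s‖ ≤ S) (k n : ℕ)
    (hn : 1 ≤ n) (c c' : (ZMod q)ˣ) :
    IntegrableOn (fun x : ℝ => |psiU q c x - psiU q c' x| * KK S k n x) (Set.Ioi 1) ∧
    ‖Dn q s (k + 1) c n - Dn q s (k + 1) c' n‖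
      ≤ ∫ x in Set.Ioi (1 : ℝ), |psiU q c x - psiU q c' x| * KK S k n x := by
  have hm : Measurable (fun x => |psiU q c x - psiU q c' x|) :=
    ((psiU_meas q c).sub (psiU_meas q c')).abs
  have hb : ∀ t : ℝ, 1 < t → |(|psiU q c t - psiU q c' t|)| ≤ 6 * t := fun t ht => by
    rw [abs_abs, abs_le]
    have h1 := psiU_nonneg q c t
    have h2 := psiU_nonneg q c' t
    have h3 := psiU_le q c t (by linarith)
    have h4 := psiU_le q c' t (by linarith)
    constructor <;> linarith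
  have hI := D1_intKK (fun x => |psiU q c x - psiU q c' x|) 6 hm hb S k n hn
  refine ⟨hI, ?_⟩
  have hintn : ∀ (j : ℕ) (c : (ZMod q)ˣ), IntegrableOn
      (fun t : ℝ => (psiU q c t : ℂ) * (gi s j (n * t) / t)) (Set.Ioi 1) := by
    intro j c
    refine D1_intn (fun t => (psiU q c t : ℂ)) 6 (Complex.measurable_ofReal.comp (psiU_meas q c))
      (fun t ht => ?_) s hs j n hn
    rw [Complex.norm_real, Real.norm_of_nonneg (psiU_nonneg q c t)]
    exact psiU_le q c t (by linarith)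
  have hint2 : ∀ c : (ZMod q)ˣ, IntegrableOn (fun t : ℝ => (psiU q c t : ℂ) *
        ((s * gi s (k + 1) (n * t) + gi s k (n * t)) / t)) (Set.Ioi 1) := by
    intro c
    refine (((hintn (k + 1) c).const_mul s).add (hintn k c)).congr ?_
    refine (ae_restrict_iff' measurableSet_Ioi).mpr (ae_of_all _ fun t ht => ?_)
    simp only [Pi.add_apply]
    ring
  have h1 : Dn q s (k + 1) c n - Dn q s (k + 1) c' n
      = ∫ t in Set.Ioi (1 : ℝ), ((psiU q c t - psiU q c' t : ℝ) : ℂ) *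
        ((s * gi s (k + 1) (n * t) + gi s k (n * t)) / t) := by
    have h2 : Dn q s (k + 1) c n - Dn q s (k + 1) c' n
        = ∑ i ∈ range (k + 2), gi s i n * Zc q s (k + 1 - i) c
          - ∑ i ∈ range (k + 2), gi s i n * Zc q s (k + 1 - i) c' := by
      unfold Dn
      rw [← sum_sub_distrib, ← sum_sub_distrib]
      refine sum_congr rfl fun i _ => ?_
      rw [Zc_Dk, Zc_Dk]
      ring
    rw [h2, Zc_shift q s hs k n hn, Zc_shift q s hs k n hn, ← integral_sub (hint2 c) (hint2 c')]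
    refine setIntegral_congr_fun measurableSet_Ioi fun t _ => ?_
    push_cast
    ring
  rw [h1]
  refine (norm_integral_le_integral_norm _).trans ?_
  refine setIntegral_mono_on ?_ hI measurableSet_Ioi fun t ht => ?_
  · refine (((hint2 c).sub (hint2 c')).congr ?_).norm
    refine (ae_restrict_iff' measurableSet_Ioi).mpr (ae_of_all _ fun t ht => ?_)
    simp only [Pi.sub_apply]
    push_cast
    ring
  · have ht1 : (1 : ℝ) < t := ht
    rw [norm_mul, Complex.norm_real, Real.norm_eq_abs]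
    exact mul_le_mul_of_nonneg_left (D1_KK s hs S hS k n hn t ht1.le) (abs_nonneg _)

end Pool.Agent.MY
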