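import Mathlib
import Pool.Agent.Lib.MP_9cfc0a_nt.MY.Defs
import Pool.Agent.Lib.MP_9cfc0a_nt.Mg.G027
import Pool.Agent.Lib.MP_9cfc0a_nt.Mg.G030
import Pool.Agent.Lib.MP_9cfc0a_nt.MY.C2
import Pool.Agent.Lib.MP_9cfc0a_nt.Mg.G031

set_option autoImplicit false

namespace Pool.Agent.MY

open Complex Finset

/-- A geometric sequence against a power of `X`. -/
lemma C3_geo (r c m X : ℝ) (hr : 0 ≤ r) (hrc : r ≤ 1 - c) (hX : 1 ≤ X) (k : ℕ)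
    (hk : m * Real.log X ≤ c * k) : r ^ k ≤ X ^ (-m) := by
  have hX0 : 0 < X := by linarith
  have h1 : r ≤ Real.exp (-c) := by
    have := Real.add_one_le_exp (-c)
    linarith
  calc r ^ k ≤ (Real.exp (-c)) ^ k := pow_le_pow_left₀ hr h1 k
    _ = Real.exp (-(c * k)) := by
        rw [← Real.exp_nat_mul]
        congr 1
        ring
    _ ≤ Real.exp (-(m * Real.log X)) := Real.exp_le_exp.mpr (by linarith)
    _ = X ^ (-m) := by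
        rw [Real.rpow_def_of_pos hX0]
        congr 1
        ring

/-- Growing powers. -/
lemma C3_up (r c K₃ X : ℝ) (hr : 0 ≤ r) (hrc : r ≤ Real.exp c) (hc : 0 ≤ c) (hX : 1 ≤ X) (k : ℕ)
    (hk : (k : ℝ) ≤ K₃ * Real.log X) : r ^ k ≤ X ^ (c * K₃) := by
  have hX0 : 0 < X := by linarith
  calc r ^ k ≤ (Real.exp c) ^ k := pow_le_pow_left₀ hr hrc k
    _ = Real.exp (c * k) := by
        rw [← Real.exp_nat_mul]
        congr 1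
        ring
    _ ≤ Real.exp (c * (K₃ * Real.log X)) :=
        Real.exp_le_exp.mpr (mul_le_mul_of_nonneg_left hk hc)
    _ = X ^ (c * K₃) := by
        rw [Real.rpow_def_of_pos hX0]
        congr 1
        ring

/-- The value of `ρ ^ k * bet`. -/
lemma C3_bet (S τ θ Y : ℝ) (hS : 0 ≤ S) (hτ : 0 ≤ τ) (hθ : 1 / 2 ≤ θ) (hθ1 : θ < 1)
    (hY : 0 ≤ Y) (k n : ℕ) (hn : 1 ≤ n) :
    (2 - θ) ^ k * bet S τ θ Y k n
      ≤ (1 + S) * (τ + 60 * ((3 / 8 : ℝ) ^ k + 3 ^ k * Y ^ (-(1 / 2) : ℝ)))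
        * (n : ℝ) ^ (-θ) := by
  have hnr : (1 : ℝ) ≤ n := by exact_mod_cast hn
  have hρ0 : 0 < 2 - θ := by linarith
  have hρk : 0 < (2 - θ) ^ k := pow_pos hρ0 k
  have hYn : 0 ≤ Y ^ (-(1 / 2) : ℝ) := Real.rpow_nonneg hY _
  have h2 : (n : ℝ)⁻¹ ≤ (n : ℝ) ^ (-θ) := by
    rw [← Real.rpow_neg_one]
    exact Real.rpow_le_rpow_of_exponent_le hnr (by linarith)
  have h3 : (2 - θ) ^ k * (1 / 4 : ℝ) ^ k ≤ (3 / 8 : ℝ) ^ k := by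
    rw [← mul_pow]
    exact pow_le_pow_left₀ (by positivity) (by linarith) k
  have h4 : (2 - θ) ^ k * 2 ^ k ≤ (3 : ℝ) ^ k := by
    rw [← mul_pow]
    exact pow_le_pow_left₀ (by positivity) (by linarith) k
  have h5 : (2 - θ) ^ k * bet S τ θ Y k n
      = (1 + S) * (τ * (n : ℝ) ^ (-θ) + 60 * (n : ℝ)⁻¹ *
        ((2 - θ) ^ k * (1 / 4 : ℝ) ^ k + (2 - θ) ^ k * 2 ^ k * Y ^ (-(1 / 2) : ℝ))) := by
    unfold bet
    field_simp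
  rw [h5]
  have h6 : τ * (n : ℝ) ^ (-θ) ≤ τ * (n : ℝ) ^ (-θ) := le_rfl
  have h7 : (2 - θ) ^ k * (1 / 4 : ℝ) ^ k + (2 - θ) ^ k * 2 ^ k * Y ^ (-(1 / 2) : ℝ)
      ≤ (3 / 8 : ℝ) ^ k + 3 ^ k * Y ^ (-(1 / 2) : ℝ) :=
    add_le_add h3 (mul_le_mul_of_nonneg_right h4 hYn)
  have h8 : 60 * (n : ℝ)⁻¹ *
        ((2 - θ) ^ k * (1 / 4 : ℝ) ^ k + (2 - θ) ^ k * 2 ^ k * Y ^ (-(1 / 2) : ℝ))
      ≤ 60 * (n : ℝ) ^ (-θ) * ((3 / 8 : ℝ) ^ k + 3 ^ k * Y ^ (-(1 / 2) : ℝ)) := by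
    refine mul_le_mul (mul_le_mul_of_nonneg_left h2 (by norm_num)) h7 ?_ (by positivity)
    positivity
  calc (1 + S) * (τ * (n : ℝ) ^ (-θ) + 60 * (n : ℝ)⁻¹ *
        ((2 - θ) ^ k * (1 / 4 : ℝ) ^ k + (2 - θ) ^ k * 2 ^ k * Y ^ (-(1 / 2) : ℝ)))
      ≤ (1 + S) * (τ * (n : ℝ) ^ (-θ) + 60 * (n : ℝ) ^ (-θ) *
        ((3 / 8 : ℝ) ^ k + 3 ^ k * Y ^ (-(1 / 2) : ℝ))) :=
        mul_le_mul_of_nonneg_left (add_le_add h6 h8) (by linarith)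
    _ = (1 + S) * (τ + 60 * ((3 / 8 : ℝ) ^ k + 3 ^ k * Y ^ (-(1 / 2) : ℝ)))
        * (n : ℝ) ^ (-θ) := by ring

/-- The sum of the `bet`. -/
lemma C3_betsum (S τ θ Y : ℝ) (hS : 0 ≤ S) (hτ : 0 ≤ τ) (hθ : 1 / 2 ≤ θ) (hθ1 : θ < 1)
    (hY : 0 ≤ Y) (k : ℕ) (I : Finset ℕ) (hI : ∀ n ∈ I, 1 ≤ n) (c : ℕ → ℝ) (W : ℝ)
    (hW : ∑ n ∈ I, |c n| * (n : ℝ) ^ (-θ) ≤ W) :
    (2 - θ) ^ k * ∑ n ∈ I, |c n| * (2 * bet S τ θ Y k n)
      ≤ 2 * (1 + S) * (τ + 60 * ((3 / 8 : ℝ) ^ k + 3 ^ k * Y ^ (-(1 / 2) : ℝ))) * W := by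
  have hYn : 0 ≤ Y ^ (-(1 / 2) : ℝ) := Real.rpow_nonneg hY _
  rw [Finset.mul_sum]
  have h1 : ∀ n ∈ I, (2 - θ) ^ k * (|c n| * (2 * bet S τ θ Y k n))
      ≤ 2 * (1 + S) * (τ + 60 * ((3 / 8 : ℝ) ^ k + 3 ^ k * Y ^ (-(1 / 2) : ℝ)))
        * (|c n| * (n : ℝ) ^ (-θ)) := by
    intro n hn
    have h2 := C3_bet S τ θ Y hS hτ hθ hθ1 hY k n (hI n hn)
    calc (2 - θ) ^ k * (|c n| * (2 * bet S τ θ Y k n))
        = 2 * |c n| * ((2 - θ) ^ k * bet S τ θ Y k n) := by ring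
      _ ≤ 2 * |c n| * ((1 + S) * (τ + 60 * ((3 / 8 : ℝ) ^ k + 3 ^ k * Y ^ (-(1 / 2) : ℝ)))
        * (n : ℝ) ^ (-θ)) :=
          mul_le_mul_of_nonneg_left h2 (by positivity)
      _ = 2 * (1 + S) * (τ + 60 * ((3 / 8 : ℝ) ^ k + 3 ^ k * Y ^ (-(1 / 2) : ℝ)))
        * (|c n| * (n : ℝ) ^ (-θ)) := by ring
  refine (Finset.sum_le_sum h1).trans ?_
  rw [← Finset.mul_sum]
  refine mul_le_mul_of_nonneg_left hW ?_
  positivity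

/-- `ρ ^ k * Err`. -/
lemma C3_err (q κ : ℕ) (U θ : ℝ) (hU : 0 ≤ U) (hθ : 1 / 2 ≤ θ) (hθ1 : θ < 1) (k : ℕ) :
    (2 - θ) ^ k * Err q κ U k
      ≤ q * (6 / 7 : ℝ) ^ k + (q : ℝ) ^ (κ + 1) * U ^ (-(κ : ℝ)) * 2 ^ k := by
  have hρ0 : 0 < 2 - θ := by linarith
  have h1 : (2 - θ) ^ k * (4 / 7 : ℝ) ^ k ≤ (6 / 7 : ℝ) ^ k := by
    rw [← mul_pow]
    exact pow_le_pow_left₀ (by positivity) (by linarith) k
  have h2 : (2 - θ) ^ k * (4 / 3 : ℝ) ^ k ≤ (2 : ℝ) ^ k := by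
    rw [← mul_pow]
    exact pow_le_pow_left₀ (by positivity) (by linarith) k
  have h3 : 0 ≤ U ^ (-(κ : ℝ)) := Real.rpow_nonneg hU _
  unfold Err
  calc (2 - θ) ^ k * (q * (4 / 7 : ℝ) ^ k + (q : ℝ) ^ (κ + 1) * U ^ (-(κ : ℝ)) * (4 / 3 : ℝ) ^ k)
      = q * ((2 - θ) ^ k * (4 / 7 : ℝ) ^ k)
        + (q : ℝ) ^ (κ + 1) * U ^ (-(κ : ℝ)) * ((2 - θ) ^ k * (4 / 3 : ℝ) ^ k) := by ring
    _ ≤ q * (6 / 7 : ℝ) ^ k + (q : ℝ) ^ (κ + 1) * U ^ (-(κ : ℝ)) * 2 ^ k := by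
        refine add_le_add (mul_le_mul_of_nonneg_left h1 (Nat.cast_nonneg _))
          (mul_le_mul_of_nonneg_left h2 ?_)
        positivity

/-- The second error term. -/
lemma C3_err2 (Q e X A K₃ : ℝ) (κ k : ℕ) (hQ : 1 ≤ Q) (hX : Q ≤ X) (hXA : X ≤ Q ^ A)
    (hK : 0 ≤ K₃) (hk : (k : ℝ) ≤ K₃ * Real.log X) (hκ : 12 + A * K₃ ≤ e * κ) :
    Q ^ (κ + 1) * (Q ^ (1 + e)) ^ (-(κ : ℝ)) * 2 ^ k ≤ Q ^ (-11 : ℝ) := by
  have hQ0 : 0 < Q := by linarith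
  have h2 : (2 : ℝ) ≤ Real.exp 1 := by
    have := Real.add_one_le_exp (1 : ℝ)
    linarith
  have h3 : (2 : ℝ) ^ k ≤ X ^ (1 * K₃) :=
    C3_up 2 1 K₃ X (by norm_num) h2 (by norm_num) (by linarith) k hk
  have h4 : X ^ (1 * K₃) ≤ Q ^ (A * K₃) := by
    rw [one_mul, Real.rpow_mul hQ0.le]
    exact Real.rpow_le_rpow (by linarith) hXA hK
  have h5 : Q ^ (κ + 1) * (Q ^ (1 + e)) ^ (-(κ : ℝ)) = Q ^ (1 - e * κ) := by
    rw [← Real.rpow_natCast Q (κ + 1), ← Real.rpow_mul hQ0.le, ← Real.rpow_add hQ0]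
    congr 1
    push_cast
    ring
  rw [h5]
  calc Q ^ (1 - e * κ) * 2 ^ k ≤ Q ^ (1 - e * κ) * Q ^ (A * K₃) :=
        mul_le_mul_of_nonneg_left (h3.trans h4) (Real.rpow_nonneg hQ0.le _)
    _ = Q ^ (1 - e * κ + A * K₃) := by rw [← Real.rpow_add hQ0]
    _ ≤ Q ^ (-11 : ℝ) := Real.rpow_le_rpow_of_exponent_le hQ (by linarith)

/-- The third error term. -/
lemma C3_err3 (Q X K₃ : ℝ) (K k : ℕ) (hQ : 1 ≤ Q) (hX : Q ≤ X)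
    (hk1 : 60 * Real.log X ≤ k) (hk : (k : ℝ) ≤ K₃ * Real.log X) (hK : 4 * K₃ + 20 ≤ K) :
    (3 / 8 : ℝ) ^ k + 3 ^ k * (X ^ K) ^ (-(1 / 2) : ℝ) ≤ 2 * Q ^ (-10 : ℝ) := by
  have hQ0 : 0 < Q := by linarith
  have hX0 : 0 < X := by linarith
  have hX1 : 1 ≤ X := by linarith
  have hlog : 0 ≤ Real.log X := Real.log_nonneg hX1
  have hXQ : X ^ (-10 : ℝ) ≤ Q ^ (-10 : ℝ) :=
    Real.rpow_le_rpow_of_nonpos hQ0 hX (by norm_num)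
  have h1 : (3 / 8 : ℝ) ^ k ≤ X ^ (-10 : ℝ) :=
    C3_geo (3 / 8) (5 / 8) 10 X (by norm_num) (by norm_num) hX1 k (by linarith)
  have h3e : (3 : ℝ) ≤ Real.exp 2 := by
    have := Real.add_one_le_exp (2 : ℝ)
    linarith
  have h2 : (3 : ℝ) ^ k ≤ X ^ (2 * K₃) :=
    C3_up 3 2 K₃ X (by norm_num) h3e (by norm_num) hX1 k hk
  have h3 : (X ^ K) ^ (-(1 / 2) : ℝ) = X ^ (-((K : ℝ) / 2)) := by
    rw [← Real.rpow_natCast X K, ← Real.rpow_mul hX0.le]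
    congr 1
    ring
  have h4 : (3 : ℝ) ^ k * (X ^ K) ^ (-(1 / 2) : ℝ) ≤ X ^ (-10 : ℝ) := by
    rw [h3]
    calc (3 : ℝ) ^ k * X ^ (-((K : ℝ) / 2)) ≤ X ^ (2 * K₃) * X ^ (-((K : ℝ) / 2)) :=
          mul_le_mul_of_nonneg_right h2 (Real.rpow_nonneg hX0.le _)
      _ = X ^ (2 * K₃ + -((K : ℝ) / 2)) := by rw [← Real.rpow_add hX0]
      _ ≤ X ^ (-10 : ℝ) := Real.rpow_le_rpow_of_exponent_le hX1 (by linarith)
  linarith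

/-- The initial values. -/
lemma C3_init (CD ν X Q : ℝ) (hCD : 0 ≤ CD) (hν : 0 < ν) (hν1 : ν < 1) (hQ : 1 ≤ Q) (hX : Q ≤ X)
    (hl : 1 ≤ Real.log X) (k k₁ : ℕ) (hk₁ : (k₁ : ℝ) ≤ 60 * Real.log X + 1)
    (hk : (61 + 80 / ν) * Real.log X ≤ k) :
    CD * 2 ^ k₁ * (1 - ν) ^ ((k : ℝ) - k₁) ≤ 3 * CD * Q ^ (-6 : ℝ) := by
  have hQ0 : 0 < Q := by linarith
  have hX0 : 0 < X := by linarith
  have hX1 : 1 ≤ X := by linarith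
  have hν0 : 0 < 1 - ν := by linarith
  have h2 : (2 : ℝ) ≤ Real.exp 1 := by
    have := Real.add_one_le_exp (1 : ℝ)
    linarith
  have h3 : (2 : ℝ) ^ k₁ ≤ Real.exp (60 * Real.log X + 1) := by
    calc (2 : ℝ) ^ k₁ ≤ (Real.exp 1) ^ k₁ := pow_le_pow_left₀ (by norm_num) h2 _
      _ = Real.exp k₁ := by rw [← Real.exp_nat_mul, mul_one]
      _ ≤ Real.exp (60 * Real.log X + 1) := Real.exp_le_exp.mpr hk₁
  have h80 : 80 / ν * ν = 80 := by field_simp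
  have hkk : 80 / ν * Real.log X ≤ (k : ℝ) - k₁ := by
    have h9 : (61 + 80 / ν) * Real.log X = 61 * Real.log X + 80 / ν * Real.log X := by ring
    linarith
  have h5 : 80 * Real.log X ≤ ν * ((k : ℝ) - k₁) := by
    have h7 := mul_le_mul_of_nonneg_left hkk hν.le
    have h8 : ν * (80 / ν * Real.log X) = 80 * Real.log X := by
      calc ν * (80 / ν * Real.log X) = (80 / ν * ν) * Real.log X := by ring
        _ = 80 * Real.log X := by rw [h80]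
    linarith
  have h4 : (1 - ν) ^ ((k : ℝ) - k₁) ≤ Real.exp (-(80 * Real.log X)) := by
    rw [Real.rpow_def_of_pos hν0]
    refine Real.exp_le_exp.mpr ?_
    have h6 : Real.log (1 - ν) ≤ -ν := by
      have := Real.log_le_sub_one_of_pos hν0
      linarith
    have h7 : 0 ≤ (k : ℝ) - k₁ := by
      have h9 : 0 ≤ 80 / ν * Real.log X := by positivity
      linarith
    have h8 := mul_le_mul_of_nonneg_right h6 h7
    linarith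
  have h6 : (2 : ℝ) ^ k₁ * (1 - ν) ^ ((k : ℝ) - k₁) ≤ 3 * X ^ (-6 : ℝ) := by
    calc (2 : ℝ) ^ k₁ * (1 - ν) ^ ((k : ℝ) - k₁)
        ≤ Real.exp (60 * Real.log X + 1) * Real.exp (-(80 * Real.log X)) :=
          mul_le_mul h3 h4 (Real.rpow_nonneg hν0.le _) (Real.exp_pos _).le
      _ = Real.exp 1 * Real.exp (-(20 * Real.log X)) := by
          rw [← Real.exp_add, ← Real.exp_add]
          congr 1
          ring
      _ ≤ 3 * Real.exp (-(6 * Real.log X)) := by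
          refine mul_le_mul ?_ (Real.exp_le_exp.mpr (by linarith)) (Real.exp_pos _).le (by norm_num)
          have := Real.exp_one_lt_d9
          linarith
      _ = 3 * X ^ (-6 : ℝ) := by
          rw [Real.rpow_def_of_pos hX0]
          congr 2
          ring
  have h7 : X ^ (-6 : ℝ) ≤ Q ^ (-6 : ℝ) := Real.rpow_le_rpow_of_nonpos hQ0 hX (by norm_num)
  calc CD * 2 ^ k₁ * (1 - ν) ^ ((k : ℝ) - k₁) = CD * (2 ^ k₁ * (1 - ν) ^ ((k : ℝ) - k₁)) := by ring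
    _ ≤ CD * (3 * Q ^ (-6 : ℝ)) := mul_le_mul_of_nonneg_left (by linarith) hCD
    _ = 3 * CD * Q ^ (-6 : ℝ) := by ring

/-- The size of the parameters. -/
lemma C3_size (Q X e : ℝ) (hQ : 9 ≤ Q) (hX : Q ≤ X) (he0 : 0 < e) (he : e ≤ 1 / 2) :
    12 * Real.log (Q * ((⌈2 * Q ^ (1 + e)⌉₊ : ℕ) : ℝ) * X) ≤ 60 * Real.log X := by
  have hQ0 : 0 < Q := by linarith
  have hX0 : 0 < X := by linarith
  have hlog : 0 ≤ Real.log X := Real.log_nonneg (by linarith)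
  have hU1 : 1 ≤ Q ^ (1 + e) := Real.one_le_rpow (by linarith) (by linarith)
  have h1 : ((⌈2 * Q ^ (1 + e)⌉₊ : ℕ) : ℝ) ≤ 2 * Q ^ (1 + e) + 1 :=
    (Nat.ceil_lt_add_one (by positivity)).le
  have h2 : Q ^ (1 + e) ≤ Q ^ (3 / 2 : ℝ) :=
    Real.rpow_le_rpow_of_exponent_le (by linarith) (by linarith)
  have h3 : (3 : ℝ) ≤ Q ^ (1 / 2 : ℝ) := by
    have h4 : (9 : ℝ) ^ (1 / 2 : ℝ) ≤ Q ^ (1 / 2 : ℝ) :=
      Real.rpow_le_rpow (by norm_num) hQ (by norm_num)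
    have h5 : (9 : ℝ) ^ (1 / 2 : ℝ) = 3 := by
      rw [show (9 : ℝ) = 3 ^ (2 : ℝ) by norm_num, ← Real.rpow_mul (by norm_num)]
      norm_num
    linarith
  have h4 : Q ^ (1 / 2 : ℝ) * Q ^ (3 / 2 : ℝ) = Q ^ 2 := by
    rw [← Real.rpow_add hQ0, ← Real.rpow_natCast]
    norm_num
  have h5 : 0 ≤ Q ^ (3 / 2 : ℝ) := Real.rpow_nonneg hQ0.le _
  have h6 : ((⌈2 * Q ^ (1 + e)⌉₊ : ℕ) : ℝ) ≤ Q ^ 2 := by
    have h7 := mul_le_mul_of_nonneg_right h3 h5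
    linarith
  have h7 : Q * ((⌈2 * Q ^ (1 + e)⌉₊ : ℕ) : ℝ) * X ≤ X ^ 5 := by
    have hc0 : (0 : ℝ) ≤ ((⌈2 * Q ^ (1 + e)⌉₊ : ℕ) : ℝ) := Nat.cast_nonneg _
    have h8 : Q ^ 2 ≤ X ^ 2 := pow_le_pow_left₀ hQ0.le hX 2
    calc Q * ((⌈2 * Q ^ (1 + e)⌉₊ : ℕ) : ℝ) * X ≤ X * X ^ 2 * X := by
          refine mul_le_mul_of_nonneg_right (mul_le_mul hX (h6.trans h8) hc0 hX0.le) hX0.le
      _ = X ^ 4 := by ring
      _ ≤ X ^ 5 := pow_le_pow_right₀ (by linarith) (by norm_num)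
  have h8 : 0 < Q * ((⌈2 * Q ^ (1 + e)⌉₊ : ℕ) : ℝ) * X := by
    have h9 : (0 : ℝ) < ((⌈2 * Q ^ (1 + e)⌉₊ : ℕ) : ℝ) := by
      have : 0 < ⌈2 * Q ^ (1 + e)⌉₊ := Nat.ceil_pos.mpr (by positivity)
      exact_mod_cast this
    positivity
  have h9 := Real.log_le_log h8 h7
  rw [Real.log_pow] at h9
  push_cast at h9
  linarith

/-- The weight is at most `q ^ 2`. -/
lemma C3_W (Q b θ ε₀ : ℝ) (hQ : 1 ≤ Q) (hb0 : 0 ≤ b) (hθ : 1 / 2 ≤ θ) (hθ1 : θ < 1)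
    (hε : 0 < ε₀) (hε1 : ε₀ ≤ 1 / 10)
    (hb : b ≤ Q ^ (θ / (2 - θ) - ε₀)) : (b * Q) ^ (1 - θ) * Q ^ (ε₀ / 4) ≤ Q ^ 2 := by
  have hQ0 : 0 < Q := by linarith
  have h1 : b ≤ Q := by
    have h2 : Q ^ (θ / (2 - θ) - ε₀) ≤ Q ^ (1 : ℝ) := by
      refine Real.rpow_le_rpow_of_exponent_le hQ ?_
      have h3 : θ / (2 - θ) ≤ 1 := by
        rw [div_le_one (by linarith)]
        linarith
      linarith
    rw [Real.rpow_one] at h2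
    exact hb.trans h2
  have h2 : (b * Q) ^ (1 - θ) ≤ Q := by
    calc (b * Q) ^ (1 - θ) ≤ (Q ^ (2 : ℝ)) ^ (1 - θ) := by
          refine Real.rpow_le_rpow (by positivity) ?_ (by linarith)
          have h3 : Q ^ (2 : ℝ) = Q * Q := by
            rw [show (2 : ℝ) = 1 + 1 by norm_num, Real.rpow_add hQ0, Real.rpow_one]
          rw [h3]
          exact mul_le_mul_of_nonneg_right h1 hQ0.le
      _ = Q ^ (2 * (1 - θ)) := by rw [← Real.rpow_mul hQ0.le]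
      _ ≤ Q ^ (1 : ℝ) := Real.rpow_le_rpow_of_exponent_le hQ (by linarith)
      _ = Q := Real.rpow_one Q
  have h3 : Q ^ (ε₀ / 4) ≤ Q := by
    calc Q ^ (ε₀ / 4) ≤ Q ^ (1 : ℝ) := Real.rpow_le_rpow_of_exponent_le hQ (by linarith)
      _ = Q := Real.rpow_one Q
  calc (b * Q) ^ (1 - θ) * Q ^ (ε₀ / 4) ≤ Q * Q :=
        mul_le_mul h2 h3 (Real.rpow_nonneg hQ0.le _) hQ0.le
    _ = Q ^ 2 := by ring

/-- The recursion at a class of `B` in normalised form. -/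
lemma C3_step (Cw CD Cs S A K₃ ε₀ : ℝ) (κ K k₁ k₃ q : ℕ) [NeZero q] (hq9 : 9 ≤ q)
    (h0 : 0 < ε₀) (h1 : ε₀ ≤ 1 / 10) (hCw : 1 ≤ Cw) (hCD : 0 ≤ CD) (hCs : 0 ≤ Cs) (hS : 3 ≤ S)
    (hK3 : 1 ≤ K₃) (hκ : 12 + A * K₃ ≤ ε₀ / 40 * κ) (hK : 4 * K₃ + 20 ≤ K)
    (X : ℝ) (hqX : (q : ℝ) ≤ X) (hXA : X ≤ (q : ℝ) ^ A)
    (B : Finset (ZMod q)ˣ) (hBne : B.Nonempty)
    (θ : ℝ) (hθ : 1 / 2 ≤ θ) (hθ1 : θ < 1)
    (hBcard : (B.card : ℝ) ≤ (q : ℝ) ^ (θ / (2 - θ) - ε₀)) (τ : ℝ) (hτ : 0 ≤ τ)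
    (s : ℂ)
    (hk₁ : 60 * Real.log X ≤ k₁) (hk₃ : (k₃ : ℝ) ≤ K₃ * Real.log X) (hk10 : 1 ≤ k₁)
    (hDs : ∀ a : (ZMod q)ˣ, ((Ds q B a).card : ℝ) ≤ q)
    (hΩ : ∀ a : (ZMod q)ˣ, (∑ n ∈ (Icc 2 (q * ⌈2 * (q : ℝ) ^ (1 + ε₀ / 40)⌉₊)).filter
        (fun n => Nat.Coprime n q),
        (|cn (Ds q B a) ((q : ℝ) ^ (1 + ε₀ / 40)) n| *
          ((if q < n ∧ a * (un q n)⁻¹ ∈ B then 1 else 0) + 2 * B.card / q.totient)) *
        (n : ℝ) ^ (-θ + 3 * (ε₀ / 40))) ≤ 1 / 2)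
    (hW : ∀ a : (ZMod q)ˣ, (∑ n ∈ Icc 2 (q * ⌈2 * (q : ℝ) ^ (1 + ε₀ / 40)⌉₊),
        |cn (Ds q B a) ((q : ℝ) ^ (1 + ε₀ / 40)) n| * (n : ℝ) ^ (-θ))
      ≤ Cw * (((B.card : ℝ) * q) ^ (1 - θ) * (q : ℝ) ^ (ε₀ / 4)))
    (hstep : ∀ k : ℕ, 1 ≤ k →
      12 * Real.log (q * ((⌈2 * (q : ℝ) ^ (1 + ε₀ / 40)⌉₊ : ℕ) : ℝ) * X) ≤ k → ∀ a ∈ B,
      ‖Dk q s k a‖ ≤
        (∑ n ∈ (Icc 2 (q * ⌈2 * (q : ℝ) ^ (1 + ε₀ / 40)⌉₊)).filter (fun n => Nat.Coprime n q),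
        (|cn (Ds q B a) ((q : ℝ) ^ (1 + ε₀ / 40)) n| *
          ((if q < n ∧ a * (un q n)⁻¹ ∈ B then 1 else 0) + 2 * B.card / q.totient)) *
        ((∑ i ∈ range (k + 1), (Real.log n) ^ i / (i.factorial : ℝ)
          * mx B (fun b => ‖Dk q s (k - i) b‖)) / (n : ℝ) ^ 2))
      + (∑ n ∈ Icc 2 (q * ⌈2 * (q : ℝ) ^ (1 + ε₀ / 40)⌉₊),
          |cn (Ds q B a) ((q : ℝ) ^ (1 + ε₀ / 40)) n| * (2 * bet S τ θ (X ^ K) k n))
      + Cs * (Ds q B a).card * Err q κ ((q : ℝ) ^ (1 + ε₀ / 40)) k)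
    (hD : ∀ k a, ‖Dk q s k a‖ ≤ CD * (4 / 3 : ℝ) ^ k) :
    ∀ k ≤ k₃, (2 - θ) ^ k * mx B (fun b => ‖Dk q s k b‖)
      ≤ CD * 2 ^ k₁ * (1 - ε₀ / 40) ^ ((k : ℝ) - k₁)
        + 2 * (2 * (1 + S) * τ * (Cw * (((B.card : ℝ) * q) ^ (1 - θ) * (q : ℝ) ^ (ε₀ / 4)))
          + (240 * (1 + S) * Cw + 2 * Cs) * (q : ℝ) ^ (-6 : ℝ)) := by
  have hQ9 : (9 : ℝ) ≤ q := by exact_mod_cast hq9
  have hQ1 : (1 : ℝ) ≤ q := by linarith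
  have hQ0 : (0 : ℝ) < q := by linarith
  have hX1 : 1 ≤ X := by linarith
  have hX0 : 0 < X := by linarith
  have hlogX : 0 ≤ Real.log X := Real.log_nonneg hX1
  have hρ0 : 0 < 2 - θ := by linarith
  have he0 : 0 < ε₀ / 40 := by positivity
  set W : ℝ := Cw * (((B.card : ℝ) * q) ^ (1 - θ) * (q : ℝ) ^ (ε₀ / 4)) with hWdef
  have hW0 : 0 ≤ W := by positivity
  have hWq : W ≤ Cw * (q : ℝ) ^ 2 := mul_le_mul_of_nonneg_left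
    (C3_W q B.card θ ε₀ hQ1 (Nat.cast_nonneg _) hθ hθ1 h0 h1 hBcard) (by linarith)
  set T : ℝ := 2 * (1 + S) * τ * W + (240 * (1 + S) * Cw + 2 * Cs) * (q : ℝ) ^ (-6 : ℝ) with hT
  have hT0 : 0 ≤ T := by positivity
  have hq6 : 0 ≤ (q : ℝ) ^ (-6 : ℝ) := Real.rpow_nonneg hQ0.le _
  refine recur θ (ε₀ / 40) (2 - θ) hθ he0 (by linarith) hρ0.le le_rfl
    (fun k => (2 - θ) ^ k * mx B (fun b => ‖Dk q s k b‖)) (fun k => ?_) k₁ k₃ (CD * 2 ^ k₁) T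
    (by positivity) hT0 ?_ ?_
  · exact mul_nonneg (pow_nonneg hρ0.le k) (mx_nonneg B _ fun b => norm_nonneg _)
  · intro k hk
    obtain ⟨a, _, ha⟩ := mx_mem B hBne (fun b => ‖Dk q s k b‖)
    rw [ha]
    calc (2 - θ) ^ k * ‖Dk q s k a‖ ≤ (2 - θ) ^ k * (CD * (4 / 3 : ℝ) ^ k) :=
          mul_le_mul_of_nonneg_left (hD k a) (pow_nonneg hρ0.le k)
      _ = CD * ((2 - θ) * (4 / 3)) ^ k := by rw [mul_pow]; ring
      _ ≤ CD * 2 ^ k := mul_le_mul_of_nonneg_left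
          (pow_le_pow_left₀ (by positivity) (by linarith) k) hCD
      _ ≤ CD * 2 ^ k₁ := mul_le_mul_of_nonneg_left
          (pow_le_pow_right₀ (by norm_num) hk.le) hCD
  · intro k hkk₁ hkk₃
    have hkr1 : (k₁ : ℝ) ≤ k := by exact_mod_cast hkk₁
    have hkr3 : (k : ℝ) ≤ k₃ := by exact_mod_cast hkk₃
    have hk60 : 60 * Real.log X ≤ k := by linarith
    have hkK : (k : ℝ) ≤ K₃ * Real.log X := by linarith
    obtain ⟨a, haB, ha⟩ := mx_mem B hBne (fun b => ‖Dk q s k b‖)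
    refine ⟨(Icc 2 (q * ⌈2 * (q : ℝ) ^ (1 + ε₀ / 40)⌉₊)).filter (fun n => Nat.Coprime n q),
      fun n => |cn (Ds q B a) ((q : ℝ) ^ (1 + ε₀ / 40)) n| *
          ((if q < n ∧ a * (un q n)⁻¹ ∈ B then 1 else 0) + 2 * B.card / q.totient), ?_, ?_, ?_, ?_⟩
    · intro n hn
      rw [Finset.mem_filter, Finset.mem_Icc] at hn
      omega
    · intro n _
      refine mul_nonneg (abs_nonneg _) (add_nonneg ?_ (by positivity))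
      split_ifs <;> norm_num
    · exact hΩ a
    · simp only []
      have hsz := C3_size q X (ε₀ / 40) hQ9 hqX he0 (by linarith)
      have h2 := hstep k (by omega) (by linarith) a haB
      rw [ha]
      have h3 := mul_le_mul_of_nonneg_left h2 (pow_nonneg hρ0.le k)
      refine h3.trans ?_
      rw [mul_add, mul_add]
      have h4 : (2 - θ) ^ k * (∑ n ∈ (Icc 2 (q * ⌈2 * (q : ℝ) ^ (1 + ε₀ / 40)⌉₊)).filter
            (fun n => Nat.Coprime n q),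
          (|cn (Ds q B a) ((q : ℝ) ^ (1 + ε₀ / 40)) n| *
            ((if q < n ∧ a * (un q n)⁻¹ ∈ B then 1 else 0) + 2 * B.card / q.totient)) *
          ((∑ i ∈ range (k + 1), (Real.log n) ^ i / (i.factorial : ℝ)
            * mx B (fun b => ‖Dk q s (k - i) b‖)) / (n : ℝ) ^ 2))
          = ∑ n ∈ (Icc 2 (q * ⌈2 * (q : ℝ) ^ (1 + ε₀ / 40)⌉₊)).filter
            (fun n => Nat.Coprime n q),
          (|cn (Ds q B a) ((q : ℝ) ^ (1 + ε₀ / 40)) n| *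
            ((if q < n ∧ a * (un q n)⁻¹ ∈ B then 1 else 0) + 2 * B.card / q.totient)) *
          ((∑ i ∈ range (k + 1), ((2 - θ) * Real.log n) ^ i / (i.factorial : ℝ)
            * ((2 - θ) ^ (k - i) * mx B (fun b => ‖Dk q s (k - i) b‖))) / (n : ℝ) ^ 2) := by
        rw [Finset.mul_sum]
        refine Finset.sum_congr rfl fun n _ => ?_
        have h5 : (∑ i ∈ range (k + 1), ((2 - θ) * Real.log n) ^ i / (i.factorial : ℝ)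
            * ((2 - θ) ^ (k - i) * mx B (fun b => ‖Dk q s (k - i) b‖)))
            = (2 - θ) ^ k * ∑ i ∈ range (k + 1), (Real.log n) ^ i / (i.factorial : ℝ)
            * mx B (fun b => ‖Dk q s (k - i) b‖) := by
          rw [Finset.mul_sum]
          refine Finset.sum_congr rfl fun i hi => ?_
          have h6 : i ≤ k := by
            rw [Finset.mem_range] at hi
            omega
          have h7 : (2 - θ) ^ k = (2 - θ) ^ i * (2 - θ) ^ (k - i) := by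
            rw [← pow_add]
            congr 1
            omega
          rw [h7, mul_pow]
          ring
        rw [h5]
        ring
      rw [h4, add_assoc]
      refine add_le_add le_rfl ?_
      have h5 := C3_betsum S τ θ (X ^ K) (by linarith) hτ hθ hθ1 (by positivity) k
        (Icc 2 (q * ⌈2 * (q : ℝ) ^ (1 + ε₀ / 40)⌉₊))
        (fun n hn => by rw [Finset.mem_Icc] at hn; omega)
        (cn (Ds q B a) ((q : ℝ) ^ (1 + ε₀ / 40))) W (hW a)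
      have h6 := C3_err3 q X K₃ K k hQ1 hqX hk60 hkK hK
      have h7 : 2 * (1 + S) * (τ + 60 * ((3 / 8 : ℝ) ^ k + 3 ^ k * (X ^ K) ^ (-(1 / 2) : ℝ))) * W
          ≤ 2 * (1 + S) * τ * W + 240 * (1 + S) * Cw * (q : ℝ) ^ (-6 : ℝ) := by
        have h8 : ((3 / 8 : ℝ) ^ k + 3 ^ k * (X ^ K) ^ (-(1 / 2) : ℝ)) * W
            ≤ 2 * (q : ℝ) ^ (-10 : ℝ) * (Cw * (q : ℝ) ^ 2) :=
          mul_le_mul h6 hWq hW0 (by positivity)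
        have h9 : (q : ℝ) ^ (-10 : ℝ) * (q : ℝ) ^ 2 ≤ (q : ℝ) ^ (-6 : ℝ) := by
          calc (q : ℝ) ^ (-10 : ℝ) * (q : ℝ) ^ 2
              = (q : ℝ) ^ (-10 : ℝ) * (q : ℝ) ^ (2 : ℝ) := by
                rw [← Real.rpow_natCast (q : ℝ) 2]
                norm_num
            _ = (q : ℝ) ^ (-10 + 2 : ℝ) := by rw [← Real.rpow_add hQ0]
            _ ≤ (q : ℝ) ^ (-6 : ℝ) := Real.rpow_le_rpow_of_exponent_le hQ1 (by norm_num)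
        have h10 : 2 * (q : ℝ) ^ (-10 : ℝ) * (Cw * (q : ℝ) ^ 2) ≤ 2 * Cw * (q : ℝ) ^ (-6 : ℝ) := by
          calc 2 * (q : ℝ) ^ (-10 : ℝ) * (Cw * (q : ℝ) ^ 2)
              = 2 * Cw * ((q : ℝ) ^ (-10 : ℝ) * (q : ℝ) ^ 2) := by ring
            _ ≤ 2 * Cw * (q : ℝ) ^ (-6 : ℝ) := mul_le_mul_of_nonneg_left h9 (by linarith)
        have h11 : 2 * (1 + S) * 60 *
            (((3 / 8 : ℝ) ^ k + 3 ^ k * (X ^ K) ^ (-(1 / 2) : ℝ)) * W)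
            ≤ 2 * (1 + S) * 60 * (2 * Cw * (q : ℝ) ^ (-6 : ℝ)) :=
          mul_le_mul_of_nonneg_left (h8.trans h10) (by linarith)
        calc 2 * (1 + S) * (τ + 60 * ((3 / 8 : ℝ) ^ k + 3 ^ k * (X ^ K) ^ (-(1 / 2) : ℝ))) * W
            = 2 * (1 + S) * τ * W + 2 * (1 + S) * 60 *
            (((3 / 8 : ℝ) ^ k + 3 ^ k * (X ^ K) ^ (-(1 / 2) : ℝ)) * W) := by ring
          _ ≤ 2 * (1 + S) * τ * W + 2 * (1 + S) * 60 * (2 * Cw * (q : ℝ) ^ (-6 : ℝ)) := by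
              linarith
          _ = 2 * (1 + S) * τ * W + 240 * (1 + S) * Cw * (q : ℝ) ^ (-6 : ℝ) := by ring
      have h12 : (2 - θ) ^ k * (Cs * (Ds q B a).card * Err q κ ((q : ℝ) ^ (1 + ε₀ / 40)) k)
          ≤ 2 * Cs * (q : ℝ) ^ (-6 : ℝ) := by
        have h13 := C3_err q κ ((q : ℝ) ^ (1 + ε₀ / 40)) θ (by positivity) hθ hθ1 k
        have h14 := C3_err2 q (ε₀ / 40) X A K₃ κ k hQ1 hqX hXA (by linarith) hkK hκ
        have h15 : (6 / 7 : ℝ) ^ k ≤ X ^ (-8 : ℝ) :=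
          C3_geo (6 / 7) (1 / 7) 8 X (by norm_num) (by norm_num) hX1 k (by linarith)
        have h16 : X ^ (-8 : ℝ) ≤ (q : ℝ) ^ (-8 : ℝ) :=
          Real.rpow_le_rpow_of_nonpos hQ0 hqX (by norm_num)
        have h17 : (q : ℝ) * (6 / 7 : ℝ) ^ k ≤ (q : ℝ) ^ (-7 : ℝ) := by
          calc (q : ℝ) * (6 / 7 : ℝ) ^ k ≤ (q : ℝ) * (q : ℝ) ^ (-8 : ℝ) :=
                mul_le_mul_of_nonneg_left (h15.trans h16) hQ0.le
            _ = (q : ℝ) ^ (1 : ℝ) * (q : ℝ) ^ (-8 : ℝ) := by rw [Real.rpow_one]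
            _ = (q : ℝ) ^ (-7 : ℝ) := by
                rw [← Real.rpow_add hQ0]
                norm_num
        have h18 : (q : ℝ) ^ (-11 : ℝ) ≤ (q : ℝ) ^ (-7 : ℝ) :=
          Real.rpow_le_rpow_of_exponent_le hQ1 (by norm_num)
        have h19 : (2 - θ) ^ k * Err q κ ((q : ℝ) ^ (1 + ε₀ / 40)) k ≤ 2 * (q : ℝ) ^ (-7 : ℝ) := by
          linarith
        have h20 : 0 ≤ (2 - θ) ^ k * Err q κ ((q : ℝ) ^ (1 + ε₀ / 40)) k := by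
          refine mul_nonneg (pow_nonneg hρ0.le k) ?_
          unfold Err
          positivity
        have h21 : ((Ds q B a).card : ℝ) * ((2 - θ) ^ k * Err q κ ((q : ℝ) ^ (1 + ε₀ / 40)) k)
            ≤ q * (2 * (q : ℝ) ^ (-7 : ℝ)) := mul_le_mul (hDs a) h19 h20 hQ0.le
        have h22 : (q : ℝ) * (2 * (q : ℝ) ^ (-7 : ℝ)) = 2 * (q : ℝ) ^ (-6 : ℝ) := by
          have h23 : (q : ℝ) ^ (1 : ℝ) * (q : ℝ) ^ (-7 : ℝ) = (q : ℝ) ^ (-6 : ℝ) := by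
            rw [← Real.rpow_add hQ0]
            norm_num
          rw [Real.rpow_one] at h23
          rw [← h23]
          ring
        rw [h22] at h21
        calc (2 - θ) ^ k * (Cs * (Ds q B a).card * Err q κ ((q : ℝ) ^ (1 + ε₀ / 40)) k)
            = Cs * (((Ds q B a).card : ℝ) *
              ((2 - θ) ^ k * Err q κ ((q : ℝ) ^ (1 + ε₀ / 40)) k)) := by ring
          _ ≤ Cs * (2 * (q : ℝ) ^ (-6 : ℝ)) := mul_le_mul_of_nonneg_left h21 hCs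
          _ = 2 * Cs * (q : ℝ) ^ (-6 : ℝ) := by ring
      have h24 := h5.trans h7
      rw [hT]
      linarith

/-- C3. The core theorem, uniformly in the height. -/
theorem core_unif (θ ε₀ : ℝ) (hθ : 1 / 2 ≤ θ) (hθ1 : θ < 1) (h0 : 0 < ε₀) (h1 : ε₀ ≤ 1 / 10) :
    ∃ C₂ Cw : ℝ, 1 ≤ C₂ ∧ 1 ≤ Cw ∧
    ∀ (A K₃ : ℝ), 1 ≤ A → 1 ≤ K₃ → ∃ K : ℕ, 1 ≤ K ∧ ∃ (η : ℝ) (q₀ : ℕ), 0 < η ∧ η ≤ 1 / 2 ∧
    ∀ (S : ℝ), 3 ≤ S →
    ∀ (q : ℕ) [NeZero q], q₀ ≤ q → S + 2 ≤ (q : ℝ) ^ η →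
    ∀ X : ℝ, (q : ℝ) ≤ X → X ≤ (q : ℝ) ^ A →
    ∀ B : Finset (ZMod q)ˣ, B.Nonempty → (B.card : ℝ) ≤ (q : ℝ) ^ (θ / (2 - θ) - ε₀) →
    ∀ τ : ℝ, 0 ≤ τ →
    (∀ c ∉ B, ∀ c' ∉ B, ∀ x : ℝ, X ≤ x → x ≤ X ^ K → |psiU q c x - psiU q c' x| ≤ τ * x ^ θ) →
    ∀ s : ℂ, s.re = 2 → ‖s‖ ≤ S → ∀ k : ℕ, C₂ * Real.log X ≤ k → (k : ℝ) ≤ K₃ * Real.log X →
    (∀ a ∈ B, ‖Dk q s k a‖ * (2 - θ) ^ k
      ≤ 6 * (1 + S) * Cw * τ * ((B.card : ℝ) * q) ^ (1 - θ) * (q : ℝ) ^ (ε₀ / 4)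
        + (q : ℝ) ^ (-2 : ℝ)) ∧
    (∀ c ∉ B, ‖Dk q s k c‖ * (2 - θ) ^ k ≤ 6 * (1 + S) * Cw * τ + (q : ℝ) ^ (-2 : ℝ)) := by
  obtain ⟨Cw, qw, hCw, hw⟩ := weights θ ε₀ hθ hθ1 h0 h1
  obtain ⟨CD, hCD, hD⟩ := Dk_bound
  have he0 : 0 < ε₀ / 40 := by positivity
  refine ⟨61 + 80 / (ε₀ / 40), Cw, ?_, hCw, ?_⟩
  · have : 0 < 80 / (ε₀ / 40) := by positivity
    linarith
  intro A K₃ hA hK3
  obtain ⟨κ, hκ'⟩ := exists_nat_ge ((12 + A * K₃) / (ε₀ / 40))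
  have hκ : 12 + A * K₃ ≤ ε₀ / 40 * κ := by
    rw [div_le_iff₀ he0] at hκ'
    linarith
  obtain ⟨K, hK⟩ := exists_nat_ge (4 * K₃ + 20)
  have hK1 : 1 ≤ K := by
    have : (1 : ℝ) ≤ K := by linarith
    exact_mod_cast this
  obtain ⟨Cs', hCs', hstep'⟩ := step κ
  obtain ⟨q₁, hq₁⟩ := exists_nat_ge ((2 * (3 * CD + 480 * Cw + 4 * Cs') + 960) ^ 2)
  have hκ1 : (0 : ℝ) < 2 * (κ + 1) := by positivity
  refine ⟨K, hK1, 1 / (2 * (κ + 1)), max qw (max 9 q₁), by positivity, ?_, ?_⟩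
  · rw [div_le_div_iff₀ hκ1 (by norm_num)]
    have : (0 : ℝ) ≤ κ := Nat.cast_nonneg _
    linarith
  intro S hS q _ hq hSq X hqX hXA B hBne hBcard τ hτ h s hs hsS k hkC hkK
  obtain ⟨Cs, hCsdef⟩ : ∃ Cs : ℝ, Cs = Cs' * (S + 2) ^ (κ + 1) := ⟨_, rfl⟩
  have hCs : 0 ≤ Cs := by rw [hCsdef]; exact mul_nonneg hCs' (pow_nonneg (by linarith) _)
  have hstep := hstep' S hS
  rw [← hCsdef] at hstep
  set M : ℝ := 240 * (1 + S) * Cw + 2 * Cs with hM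
  have hM0 : 0 ≤ M := by positivity
  have hqw : qw ≤ q := le_trans (le_max_left _ _) hq
  have hq9 : 9 ≤ q := le_trans (le_trans (le_max_left _ _) (le_max_right _ _)) hq
  have hqq₁ : q₁ ≤ q := le_trans (le_trans (le_max_right _ _) (le_max_right _ _)) hq
  have hQ9 : (9 : ℝ) ≤ q := by exact_mod_cast hq9
  have hQ1 : (1 : ℝ) ≤ q := by linarith
  have hQ0 : (0 : ℝ) < q := by linarith
  -- the size of `S`
  obtain ⟨r, hr⟩ : ∃ r : ℝ, r = (q : ℝ) ^ (1 / 2 : ℝ) := ⟨_, rfl⟩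
  have hr0 : 0 ≤ r := by rw [hr]; positivity
  have hr2 : r * r = q := by
    rw [hr, ← Real.rpow_add hQ0]
    norm_num
  have hrbig : 2 * (3 * CD + 480 * Cw + 4 * Cs') + 960 ≤ r := by
    have h2 : (2 * (3 * CD + 480 * Cw + 4 * Cs') + 960) ^ 2 ≤ r ^ 2 := by
      rw [pow_two r, hr2]
      have h3 : (q₁ : ℝ) ≤ q := by exact_mod_cast hqq₁
      linarith
    have hCw0 : 0 ≤ Cw := by linarith
    exact (pow_le_pow_iff_left₀ (by positivity) hr0 two_ne_zero).mp h2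
  have hSκ : (S + 2) ^ (κ + 1) ≤ r := by
    have h2 : (S + 2) ^ (κ + 1) ≤ ((q : ℝ) ^ (1 / (2 * ((κ : ℝ) + 1)))) ^ (κ + 1) :=
      pow_le_pow_left₀ (by linarith) hSq _
    refine h2.trans (le_of_eq ?_)
    rw [hr, ← Real.rpow_natCast, ← Real.rpow_mul hQ0.le]
    congr 1
    push_cast
    field_simp
  have hSr : 1 + S ≤ r := by
    have h2 : S + 2 ≤ (S + 2) ^ (κ + 1) := le_self_pow₀ (by linarith) (by omega)
    linarith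
  have hMq : 2 * (3 * CD + 2 * M) ≤ q := by
    have h2 : Cs ≤ Cs' * r := by rw [hCsdef]; exact mul_le_mul_of_nonneg_left hSκ hCs'
    have hCw0 : 0 ≤ Cw := by linarith
    have h3 : (1 + S) * Cw ≤ r * Cw := mul_le_mul_of_nonneg_right hSr hCw0
    have hr1 : 1 ≤ r := by linarith
    have h4 : 3 * CD ≤ 3 * CD * r := le_mul_of_one_le_right (by positivity) hr1
    calc 2 * (3 * CD + 2 * M) = 2 * (3 * CD + 480 * ((1 + S) * Cw) + 4 * Cs) := by rw [hM]; ring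
      _ ≤ 2 * (3 * CD * r + 480 * (r * Cw) + 4 * (Cs' * r)) := by linarith
      _ = (2 * (3 * CD + 480 * Cw + 4 * Cs')) * r := by ring
      _ ≤ r * r := mul_le_mul_of_nonneg_right (by linarith) hr0
      _ = q := hr2
  have hSq960 : 960 * (1 + S) ≤ q := by
    calc 960 * (1 + S) ≤ 960 * r := by linarith
      _ ≤ r * r := mul_le_mul_of_nonneg_right (by linarith) hr0
      _ = q := hr2
  have hX1 : 1 ≤ X := by linarith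
  have hX0 : 0 < X := by linarith
  have hl1 : 1 ≤ Real.log X := by
    have h2 : Real.exp 1 ≤ X := by
      have := Real.exp_one_lt_d9
      linarith
    have h3 := Real.log_le_log (Real.exp_pos 1) h2
    rwa [Real.log_exp] at h3
  have hρ0 : 0 < 2 - θ := by linarith
  have hk60 : 60 * Real.log X ≤ k := by
    have h3 : 0 ≤ (1 + 80 / (ε₀ / 40)) * Real.log X := by positivity
    have h4 : (61 + 80 / (ε₀ / 40)) * Real.log X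
        = 60 * Real.log X + (1 + 80 / (ε₀ / 40)) * Real.log X := by ring
    linarith
  have hXK : X ≤ X ^ K := by
    calc X = X ^ 1 := (pow_one X).symm
      _ ≤ X ^ K := pow_le_pow_right₀ hX1 hK1
  have hw' := fun a => hw q hqw B hBne hBcard a
  obtain ⟨a₀, ha₀⟩ := hBne
  have hBφ : 4 * (B.card : ℝ) ≤ q.totient := (hw' a₀).1
  have hBφ2 : 2 * (B.card : ℝ) ≤ q.totient := by
    have : (0 : ℝ) ≤ B.card := Nat.cast_nonneg _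
    linarith
  have hk₁ : 60 * Real.log X ≤ ((⌈60 * Real.log X⌉₊ : ℕ) : ℝ) := Nat.le_ceil _
  have hk₁' : ((⌈60 * Real.log X⌉₊ : ℕ) : ℝ) ≤ 60 * Real.log X + 1 :=
    (Nat.ceil_lt_add_one (by positivity)).le
  have hk10 : 1 ≤ ⌈60 * Real.log X⌉₊ := Nat.one_le_ceil_iff.mpr (by linarith)
  have hk3 : ((⌊K₃ * Real.log X⌋₊ : ℕ) : ℝ) ≤ K₃ * Real.log X := Nat.floor_le (by positivity)
  have hkk3 : k ≤ ⌊K₃ * Real.log X⌋₊ := Nat.le_floor hkK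
  have hQe : (q : ℝ) ≤ (q : ℝ) ^ (1 + ε₀ / 40) := by
    calc (q : ℝ) = (q : ℝ) ^ (1 : ℝ) := (Real.rpow_one _).symm
      _ ≤ (q : ℝ) ^ (1 + ε₀ / 40) := Real.rpow_le_rpow_of_exponent_le hQ1 (by linarith)
  set W : ℝ := Cw * (((B.card : ℝ) * q) ^ (1 - θ) * (q : ℝ) ^ (ε₀ / 4)) with hWdef
  have hW0 : 0 ≤ W := by positivity
  have hmain := C3_step Cw CD Cs S A K₃ ε₀ κ K ⌈60 * Real.log X⌉₊ ⌊K₃ * Real.log X⌋₊ q hq9 h0 h1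
    hCw hCD hCs hS hK3 hκ hK X hqX hXA B ⟨a₀, ha₀⟩ θ hθ hθ1 hBcard τ hτ s hk₁ hk3 hk10
    (fun a => (hw' a).2.2.1) (fun a => (hw' a).2.2.2.1)
    (fun a => by
      have h2 := (hw' a).2.2.2.2
      rw [mul_assoc] at h2
      exact h2)
    (fun k hk1 hk a ha => hstep q (by omega) s hs hsS B hBφ2 X (X ^ K) τ θ hqX hXK hτ hθ hθ1.le h
      ((q : ℝ) ^ (1 + ε₀ / 40)) hQe ⌈2 * (q : ℝ) ^ (1 + ε₀ / 40)⌉₊ (Nat.le_ceil _) k hk1 hk a ha)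
    (fun k a => hD q s hs k a) k hkk3
  have hinit := C3_init CD (ε₀ / 40) X q hCD he0 (by linarith) hQ1 hqX hl1 k
    ⌈60 * Real.log X⌉₊ hk₁' hkC
  have hq62 : (q : ℝ) ^ (-6 : ℝ) = (q : ℝ) ^ (-2 : ℝ) * (q : ℝ) ^ (-4 : ℝ) := by
    rw [← Real.rpow_add hQ0]
    norm_num
  have hq4 : (q : ℝ) ^ (-4 : ℝ) ≤ (q : ℝ)⁻¹ := by
    rw [← Real.rpow_neg_one]
    exact Real.rpow_le_rpow_of_exponent_le hQ1 (by norm_num)
  have hq2n : 0 ≤ (q : ℝ) ^ (-2 : ℝ) := Real.rpow_nonneg hQ0.le _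
  have hjunk : (3 * CD + 2 * M) * (q : ℝ) ^ (-6 : ℝ) ≤ (q : ℝ) ^ (-2 : ℝ) / 2 := by
    have h2 : (3 * CD + 2 * M) * (q : ℝ)⁻¹ ≤ 1 / 2 := by
      rw [← div_eq_mul_inv, div_le_iff₀ hQ0]
      linarith
    have h3 : (3 * CD + 2 * M) * (q : ℝ) ^ (-4 : ℝ) ≤ 1 / 2 :=
      (mul_le_mul_of_nonneg_left hq4 (by positivity)).trans h2
    calc (3 * CD + 2 * M) * (q : ℝ) ^ (-6 : ℝ)
        = (3 * CD + 2 * M) * (q : ℝ) ^ (-4 : ℝ) * (q : ℝ) ^ (-2 : ℝ) := by rw [hq62]; ring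
      _ ≤ 1 / 2 * (q : ℝ) ^ (-2 : ℝ) := mul_le_mul_of_nonneg_right h3 hq2n
      _ = (q : ℝ) ^ (-2 : ℝ) / 2 := by ring
  have hu : (2 - θ) ^ k * mx B (fun b => ‖Dk q s k b‖)
      ≤ 4 * (1 + S) * τ * W + (q : ℝ) ^ (-2 : ℝ) / 2 := by
    have h2 := hmain.trans (add_le_add hinit le_rfl)
    rw [← hM] at h2
    calc (2 - θ) ^ k * mx B (fun b => ‖Dk q s k b‖)
        ≤ 3 * CD * (q : ℝ) ^ (-6 : ℝ) + 2 * (2 * (1 + S) * τ * W + M * (q : ℝ) ^ (-6 : ℝ)) := h2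
      _ = 4 * (1 + S) * τ * W + (3 * CD + 2 * M) * (q : ℝ) ^ (-6 : ℝ) := by ring
      _ ≤ 4 * (1 + S) * τ * W + (q : ℝ) ^ (-2 : ℝ) / 2 := by linarith
  refine ⟨fun a ha => ?_, fun c hc => ?_⟩
  · have h2 := le_mx B (fun b => ‖Dk q s k b‖) a ha
    have h3 := mul_le_mul_of_nonneg_left h2 (pow_nonneg hρ0.le k)
    have h4 : 4 * (1 + S) * τ * W ≤ 6 * (1 + S) * τ * W := by
      have : 0 ≤ (1 + S) * τ * W := by positivity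
      linarith
    have h5 : 6 * (1 + S) * Cw * τ * ((B.card : ℝ) * q) ^ (1 - θ) * (q : ℝ) ^ (ε₀ / 4)
        = 6 * (1 + S) * τ * W := by
      rw [hWdef]
      ring
    rw [h5, mul_comm]
    have h6 : (2 - θ) ^ k * ‖Dk q s k a‖ ≤ (2 - θ) ^ k * mx B (fun b => ‖Dk q s k b‖) := h3
    linarith
  · have h2 := off_step q s hs S (by linarith) hsS B hBφ2 X (X ^ K) τ θ hX1 hXK hτ hθ hθ1.le h k
      (by
        have h3 : (1 : ℝ) ≤ k := by linarith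
        exact_mod_cast h3)
      (by linarith) c hc
    have h3 := mul_le_mul_of_nonneg_left h2 (pow_nonneg hρ0.le k)
    have h4 := C3_bet S τ θ (X ^ K) (by linarith) hτ hθ hθ1 (by positivity) k 1 le_rfl
    rw [Nat.cast_one, Real.one_rpow, mul_one] at h4
    have h6 := C3_err3 q X K₃ K k hQ1 hqX hk60 hkK hK
    have h7 : 120 * (1 + S) * (2 * (q : ℝ) ^ (-10 : ℝ)) ≤ (q : ℝ) ^ (-2 : ℝ) / 4 := by
      have h8 : (q : ℝ) ^ (-10 : ℝ) ≤ (q : ℝ) ^ (-2 : ℝ) * (q : ℝ)⁻¹ := by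
        calc (q : ℝ) ^ (-10 : ℝ) ≤ (q : ℝ) ^ (-3 : ℝ) :=
              Real.rpow_le_rpow_of_exponent_le hQ1 (by norm_num)
          _ = (q : ℝ) ^ (-2 : ℝ) * (q : ℝ) ^ (-1 : ℝ) := by
              rw [← Real.rpow_add hQ0]
              norm_num
          _ = (q : ℝ) ^ (-2 : ℝ) * (q : ℝ)⁻¹ := by rw [Real.rpow_neg_one]
      have h9 : 240 * (1 + S) * (q : ℝ)⁻¹ ≤ 1 / 4 := by
        rw [← div_eq_mul_inv, div_le_iff₀ hQ0]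
        linarith
      calc 120 * (1 + S) * (2 * (q : ℝ) ^ (-10 : ℝ)) = 240 * (1 + S) * (q : ℝ) ^ (-10 : ℝ) := by
            ring
        _ ≤ 240 * (1 + S) * ((q : ℝ) ^ (-2 : ℝ) * (q : ℝ)⁻¹) :=
            mul_le_mul_of_nonneg_left h8 (by linarith)
        _ = 240 * (1 + S) * (q : ℝ)⁻¹ * (q : ℝ) ^ (-2 : ℝ) := by ring
        _ ≤ 1 / 4 * (q : ℝ) ^ (-2 : ℝ) := mul_le_mul_of_nonneg_right h9 hq2n
        _ = (q : ℝ) ^ (-2 : ℝ) / 4 := by ring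
    have h8 : 2 * ((1 + S) * (τ + 60 * ((3 / 8 : ℝ) ^ k + 3 ^ k * (X ^ K) ^ (-(1 / 2) : ℝ))))
        ≤ 2 * (1 + S) * τ + (q : ℝ) ^ (-2 : ℝ) / 4 := by
      have h9 : 120 * (1 + S) * ((3 / 8 : ℝ) ^ k + 3 ^ k * (X ^ K) ^ (-(1 / 2) : ℝ))
          ≤ 120 * (1 + S) * (2 * (q : ℝ) ^ (-10 : ℝ)) :=
        mul_le_mul_of_nonneg_left h6 (by linarith)
      calc 2 * ((1 + S) * (τ + 60 * ((3 / 8 : ℝ) ^ k + 3 ^ k * (X ^ K) ^ (-(1 / 2) : ℝ))))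
          = 2 * (1 + S) * τ
            + 120 * (1 + S) * ((3 / 8 : ℝ) ^ k + 3 ^ k * (X ^ K) ^ (-(1 / 2) : ℝ)) := by ring
        _ ≤ 2 * (1 + S) * τ + (q : ℝ) ^ (-2 : ℝ) / 4 := by linarith
    have hφ0 : (0 : ℝ) < q.totient := by
      have : 0 < q.totient := Nat.totient_pos.mpr (by omega)
      exact_mod_cast this
    have hB1 : (1 : ℝ) ≤ B.card := by
      have : 0 < B.card := Finset.card_pos.mpr ⟨a₀, ha₀⟩
      exact_mod_cast this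
    have h10 : 2 * (B.card : ℝ) / q.totient * W ≤ 1 := by
      have h11 := (hw' a₀).2.1
      rw [mul_assoc Cw] at h11
      exact h11
    have h12 : 2 * (B.card : ℝ) / q.totient ≤ 1 / 2 := by
      rw [div_le_iff₀ hφ0]
      linarith
    have h13 : 2 * (B.card : ℝ) / q.totient *
        ((2 - θ) ^ k * mx B (fun b => ‖Dk q s k b‖))
        ≤ 4 * (1 + S) * τ + (q : ℝ) ^ (-2 : ℝ) / 4 := by
      have h14 : 2 * (B.card : ℝ) / q.totient * ((2 - θ) ^ k * mx B (fun b => ‖Dk q s k b‖))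
          ≤ 2 * (B.card : ℝ) / q.totient *
            (4 * (1 + S) * τ * W + (q : ℝ) ^ (-2 : ℝ) / 2) :=
        mul_le_mul_of_nonneg_left hu (by positivity)
      have h15 : 4 * (1 + S) * τ * (2 * (B.card : ℝ) / q.totient * W)
          ≤ 4 * (1 + S) * τ * 1 := mul_le_mul_of_nonneg_left h10 (by positivity)
      have h16 : 2 * (B.card : ℝ) / q.totient * ((q : ℝ) ^ (-2 : ℝ) / 2)
          ≤ 1 / 2 * ((q : ℝ) ^ (-2 : ℝ) / 2) := mul_le_mul_of_nonneg_right h12 (by positivity)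
      calc 2 * (B.card : ℝ) / q.totient * ((2 - θ) ^ k * mx B (fun b => ‖Dk q s k b‖))
          ≤ 2 * (B.card : ℝ) / q.totient *
            (4 * (1 + S) * τ * W + (q : ℝ) ^ (-2 : ℝ) / 2) := h14
        _ = 4 * (1 + S) * τ * (2 * (B.card : ℝ) / q.totient * W)
            + 2 * (B.card : ℝ) / q.totient * ((q : ℝ) ^ (-2 : ℝ) / 2) := by ring
        _ ≤ 4 * (1 + S) * τ + (q : ℝ) ^ (-2 : ℝ) / 4 := by linarith
    have h17 : 6 * (1 + S) * τ ≤ 6 * (1 + S) * Cw * τ := by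
      have h18 : 6 * (1 + S) * τ * 1 ≤ 6 * (1 + S) * τ * Cw :=
        mul_le_mul_of_nonneg_left hCw (by positivity)
      calc 6 * (1 + S) * τ = 6 * (1 + S) * τ * 1 := by ring
        _ ≤ 6 * (1 + S) * τ * Cw := h18
        _ = 6 * (1 + S) * Cw * τ := by ring
    rw [mul_comm]
    calc (2 - θ) ^ k * ‖Dk q s k c‖
        ≤ (2 - θ) ^ k * (2 * bet S τ θ (X ^ K) k 1
          + 2 * B.card / q.totient * mx B (fun b => ‖Dk q s k b‖)) := h3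
      _ = 2 * ((2 - θ) ^ k * bet S τ θ (X ^ K) k 1)
          + 2 * (B.card : ℝ) / q.totient *
            ((2 - θ) ^ k * mx B (fun b => ‖Dk q s k b‖)) := by ring
      _ ≤ 2 * ((1 + S) * (τ + 60 * ((3 / 8 : ℝ) ^ k + 3 ^ k * (X ^ K) ^ (-(1 / 2) : ℝ))))
          + (4 * (1 + S) * τ + (q : ℝ) ^ (-2 : ℝ) / 4) :=
          add_le_add (mul_le_mul_of_nonneg_left h4 (by norm_num)) h13
      _ ≤ 6 * (1 + S) * Cw * τ + (q : ℝ) ^ (-2 : ℝ) := by linarith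

/-- C3. The core theorem. -/
theorem core (θ ε₀ : ℝ) (hθ : 1 / 2 ≤ θ) (hθ1 : θ < 1) (h0 : 0 < ε₀) (h1 : ε₀ ≤ 1 / 10) :
    ∃ C₂ : ℝ, 1 ≤ C₂ ∧
    ∀ (A K₃ : ℝ), 1 ≤ A → 1 ≤ K₃ → ∃ K : ℕ, 1 ≤ K ∧ ∀ S : ℝ, 3 ≤ S → ∃ (C : ℝ) (q₀ : ℕ), 1 ≤ C ∧
    ∀ (q : ℕ) [NeZero q], q₀ ≤ q → ∀ X : ℝ, (q : ℝ) ≤ X → X ≤ (q : ℝ) ^ A →
    ∀ B : Finset (ZMod q)ˣ, B.Nonempty → (B.card : ℝ) ≤ (q : ℝ) ^ (θ / (2 - θ) - ε₀) →
    ∀ τ : ℝ, 0 ≤ τ →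
    (∀ c ∉ B, ∀ c' ∉ B, ∀ x : ℝ, X ≤ x → x ≤ X ^ K → |psiU q c x - psiU q c' x| ≤ τ * x ^ θ) →
    ∀ s : ℂ, s.re = 2 → ‖s‖ ≤ S → ∀ k : ℕ, C₂ * Real.log X ≤ k → (k : ℝ) ≤ K₃ * Real.log X →
    (∀ a ∈ B, ‖Dk q s k a‖ * (2 - θ) ^ k
      ≤ C * τ * ((B.card : ℝ) * q) ^ (1 - θ) * (q : ℝ) ^ (ε₀ / 4) + (q : ℝ) ^ (-2 : ℝ)) ∧
    (∀ c ∉ B, ‖Dk q s k c‖ * (2 - θ) ^ k ≤ C * τ + (q : ℝ) ^ (-2 : ℝ)) := by
  obtain ⟨C₂, Cw, hC₂, hCw, h⟩ := core_unif θ ε₀ hθ hθ1 h0 h1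
  refine ⟨C₂, hC₂, fun A K₃ hA hK₃ => ?_⟩
  obtain ⟨K, hK, η, q₀, hη, _, hmain⟩ := h A K₃ hA hK₃
  refine ⟨K, hK, fun S hS => ?_⟩
  obtain ⟨n₀, hn₀⟩ := Filter.eventually_atTop.mp
    (((tendsto_rpow_atTop hη).comp tendsto_natCast_atTop_atTop).eventually_ge_atTop (S + 2))
  refine ⟨6 * (1 + S) * Cw, max q₀ n₀,
    one_le_mul_of_one_le_of_one_le (by linarith) hCw, fun q _ hq => ?_⟩
  exact hmain S hS q ((le_max_left _ _).trans hq) (hn₀ q ((le_max_right _ _).trans hq))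

end Pool.Agent.MY
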