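import Mathlib
import Pool.Agent.Lib.MP_9cfc0a_nt.MY.Defs
import Pool.Agent.Lib.MP_9cfc0a_nt.C1A
import Pool.Agent.Lib.MP_9cfc0a_nt.MY.C3
import Pool.Agent.Lib.MP_9cfc0a_nt.Mg.G032
import Pool.Agent.Lib.MP_9cfc0a_nt.Mg.G031

set_option autoImplicit false

namespace Pool.Agent.MY

open Complex Finset

lemma G4_TC_neg (F : ℂ → ℂ) (s : ℂ) (k : ℕ) :
    ‖TC F s k‖ = ‖TC (fun z => -F z) s k‖ := by
  unfold TC
  rw [iteratedDeriv_fun_neg, neg_div, norm_neg]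

/-- A class outside a small set. -/
lemma G4_out (ε₀ : ℝ) (h0 : 0 < ε₀) : ∃ n₀ : ℕ, ∀ (q : ℕ) [NeZero q], n₀ ≤ q →
    ∀ B : Finset (ZMod q)ˣ, (B.card : ℝ) ≤ (q : ℝ) ^ (1 - ε₀) → ∃ c, c ∉ B := by
  obtain ⟨C, hC, htot⟩ := MC.C1.P5_div_totient (ε₀ / 2) (by positivity)
  obtain ⟨n₁, hn₁⟩ := Filter.eventually_atTop.mp
    (((tendsto_rpow_atTop (show 0 < ε₀ / 2 by positivity)).comp
      tendsto_natCast_atTop_atTop).eventually_ge_atTop (C + 1))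
  refine ⟨max n₁ 1, fun q _ hq B hB => ?_⟩
  have hq1 : 1 ≤ q := (le_max_right _ _).trans hq
  have hq0 : (0 : ℝ) < q := by exact_mod_cast hq1
  by_contra hne
  push Not at hne
  have h1 : B = univ := by
    ext c
    simp [hne c]
  have h2 : B.card = q.totient := by
    rw [h1, card_univ, ZMod.card_units_eq_totient]
  rw [h2] at hB
  have hφ0 : (0 : ℝ) < q.totient := by exact_mod_cast Nat.totient_pos.mpr (by omega)
  have h3 := htot q hq1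
  have h4 : (C + 1 : ℝ) ≤ (q : ℝ) ^ (ε₀ / 2) := hn₁ q ((le_max_left _ _).trans hq)
  have h5 : (q : ℝ) ≤ C * (q : ℝ) ^ (ε₀ / 2) * q.totient := by
    rw [div_le_div_iff₀ hφ0 hq0] at h3
    linarith
  have h6 : (q : ℝ) ^ (ε₀ / 2) * ((q : ℝ) ^ (ε₀ / 2) * (q : ℝ) ^ (1 - ε₀)) = q := by
    rw [← Real.rpow_add hq0, ← Real.rpow_add hq0]
    conv_rhs => rw [← Real.rpow_one (q : ℝ)]
    congr 1
    ring
  have h7 : (0 : ℝ) < (q : ℝ) ^ (ε₀ / 2) := by positivity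
  have h8 : (0 : ℝ) < (q : ℝ) ^ (1 - ε₀) := by positivity
  have h9 : (q : ℝ) ≤ C * ((q : ℝ) ^ (ε₀ / 2) * (q : ℝ) ^ (1 - ε₀)) := by
    calc (q : ℝ) ≤ C * (q : ℝ) ^ (ε₀ / 2) * q.totient := h5
      _ ≤ C * (q : ℝ) ^ (ε₀ / 2) * (q : ℝ) ^ (1 - ε₀) := by gcongr
      _ = _ := by ring
  have h10 : C * ((q : ℝ) ^ (ε₀ / 2) * (q : ℝ) ^ (1 - ε₀))
      < (q : ℝ) ^ (ε₀ / 2) * ((q : ℝ) ^ (ε₀ / 2) * (q : ℝ) ^ (1 - ε₀)) := by
    refine mul_lt_mul_of_pos_right (by linarith) (mul_pos h7 h8)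
  rw [h6] at h10
  linarith

/-- The elementary size of the bound on `B`. -/
lemma G4_W (θ Q b ε₀ : ℝ) (hθ : 1 / 2 ≤ θ) (hθ1 : θ < 1) (hQ : 1 ≤ Q) (h0 : 0 < ε₀)
    (h1 : ε₀ ≤ 1 / 10) (hb1 : 1 ≤ b) (hb : b ≤ Q ^ (1 - ε₀)) :
    1 ≤ (b * Q) ^ (1 - θ) * Q ^ (ε₀ / 4) ∧ (b * Q) ^ (1 - θ) * Q ^ (ε₀ / 4) ≤ Q := by
  have hQ0 : 0 < Q := by linarith
  have hbQ : 1 ≤ b * Q := by nlinarith
  constructor
  · have h3 : 1 ≤ (b * Q) ^ (1 - θ) := Real.one_le_rpow hbQ (by linarith)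
    have h4 : 1 ≤ Q ^ (ε₀ / 4) := Real.one_le_rpow hQ (by positivity)
    nlinarith
  · have h2 : b * Q ≤ Q ^ (2 - ε₀) := by
      calc b * Q ≤ Q ^ (1 - ε₀) * Q := by gcongr
        _ = Q ^ (1 - ε₀) * Q ^ (1 : ℝ) := by rw [Real.rpow_one]
        _ = Q ^ (2 - ε₀) := by
            rw [← Real.rpow_add hQ0]
            congr 1
            ring
    have h3 : (b * Q) ^ (1 - θ) ≤ Q ^ ((2 - ε₀) * (1 / 2)) := by
      calc (b * Q) ^ (1 - θ) ≤ (b * Q) ^ (1 / 2 : ℝ) :=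
            Real.rpow_le_rpow_of_exponent_le hbQ (by linarith)
        _ ≤ (Q ^ (2 - ε₀)) ^ (1 / 2 : ℝ) :=
            Real.rpow_le_rpow (by positivity) h2 (by norm_num)
        _ = Q ^ ((2 - ε₀) * (1 / 2)) := by rw [Real.rpow_mul hQ0.le]
    calc (b * Q) ^ (1 - θ) * Q ^ (ε₀ / 4)
        ≤ Q ^ ((2 - ε₀) * (1 / 2)) * Q ^ (ε₀ / 4) := by gcongr
      _ = Q ^ ((2 - ε₀) * (1 / 2) + ε₀ / 4) := (Real.rpow_add hQ0 _ _).symm
      _ ≤ Q ^ (1 : ℝ) := Real.rpow_le_rpow_of_exponent_le hQ (by linarith)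
      _ = Q := Real.rpow_one Q

/-- `bet` for `n = 1`. -/
lemma G4_bet (S P θ Q A K₃ : ℝ) (K k : ℕ) (hS : 3 ≤ S) (hP : 1 ≤ P) (hQ : 1 ≤ Q)
    (hθ : 1 / 2 ≤ θ) (hθ1 : θ < 1) (hk : (k : ℝ) ≤ K₃ * (A * Real.log Q))
    (hK : 11 / 5 * (A * K₃) ≤ K) :
    bet S P θ (Q ^ K) k 1 * (2 - θ) ^ k ≤ 121 * (1 + S) * P := by
  have hQ0 : 0 < Q := by linarith
  have hl : 0 ≤ Real.log Q := Real.log_nonneg hQ
  have hρ0 : 0 < 2 - θ := by linarith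
  have hρk : 0 < (2 - θ) ^ k := by positivity
  have h1 : (1 / 4 : ℝ) ^ k * (2 - θ) ^ k ≤ 1 := by
    rw [← mul_pow]
    exact pow_le_one₀ (by nlinarith) (by nlinarith)
  have h2 : (2 : ℝ) ^ k * (Q ^ K) ^ (-(1 / 2) : ℝ) * (2 - θ) ^ k ≤ 1 := by
    have h3 : (2 : ℝ) ^ k * (2 - θ) ^ k ≤ 3 ^ k := by
      rw [← mul_pow]
      exact pow_le_pow_left₀ (by nlinarith) (by nlinarith) k
    have h4 : (3 : ℝ) ^ k ≤ Real.exp (11 / 10 * k) := by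
      rw [← Real.exp_log (show (0 : ℝ) < 3 by norm_num), ← Real.exp_nat_mul]
      refine Real.exp_le_exp.mpr ?_
      have h5 : Real.log 3 ≤ 11 / 10 := by
        rw [Real.log_le_iff_le_exp (by norm_num)]
        have h6 := Real.exp_one_gt_d9
        have h7 : Real.exp (11 / 10 : ℝ) = Real.exp 1 * Real.exp (1 / 10) := by
          rw [← Real.exp_add]; norm_num
        have h8 : (1 : ℝ) / 10 + (1 / 10) ^ 2 / 2 + 1 ≤ Real.exp (1 / 10) := by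
          have := Real.quadratic_le_exp_of_nonneg (show (0 : ℝ) ≤ 1 / 10 by norm_num)
          linarith
        rw [h7]
        nlinarith
      nlinarith [Nat.cast_nonneg (α := ℝ) k]
    have h5 : (Q ^ K) ^ (-(1 / 2) : ℝ) = Real.exp (-(1 / 2) * (K * Real.log Q)) := by
      rw [← Real.rpow_natCast, ← Real.rpow_mul hQ0.le, Real.rpow_def_of_pos hQ0]
      congr 1
      ring
    calc (2 : ℝ) ^ k * (Q ^ K) ^ (-(1 / 2) : ℝ) * (2 - θ) ^ k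
        = (2 : ℝ) ^ k * (2 - θ) ^ k * (Q ^ K) ^ (-(1 / 2) : ℝ) := by ring
      _ ≤ Real.exp (11 / 10 * k) * Real.exp (-(1 / 2) * (K * Real.log Q)) := by
          rw [h5]
          gcongr
          exact h3.trans h4
      _ = Real.exp (11 / 10 * k - 1 / 2 * (K * Real.log Q)) := by
          rw [← Real.exp_add]
          congr 1
          ring
      _ ≤ 1 := by
          rw [Real.exp_le_one_iff]
          have h6 : 11 / 5 * (A * K₃) * Real.log Q ≤ K * Real.log Q := by gcongr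
          nlinarith
  unfold bet
  have h7 : ((1 + S) * (P * ((1 : ℕ) : ℝ) ^ (-θ) * ((2 - θ) ^ k)⁻¹
      + 60 * ((1 : ℕ) : ℝ)⁻¹ * ((1 / 4 : ℝ) ^ k + 2 ^ k * (Q ^ K) ^ (-(1 / 2) : ℝ)))) * (2 - θ) ^ k
      = (1 + S) * (P + 60 * ((1 / 4 : ℝ) ^ k * (2 - θ) ^ k
        + 2 ^ k * (Q ^ K) ^ (-(1 / 2) : ℝ) * (2 - θ) ^ k)) := by
    rw [Nat.cast_one, Real.one_rpow, inv_one]
    field_simp
  rw [h7]
  have h8 : P + 60 * ((1 / 4 : ℝ) ^ k * (2 - θ) ^ k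
        + 2 ^ k * (Q ^ K) ^ (-(1 / 2) : ℝ) * (2 - θ) ^ k) ≤ 121 * P := by linarith
  calc (1 + S) * (P + 60 * ((1 / 4 : ℝ) ^ k * (2 - θ) ^ k
        + 2 ^ k * (Q ^ K) ^ (-(1 / 2) : ℝ) * (2 - θ) ^ k)) ≤ (1 + S) * (121 * P) := by
        gcongr
    _ = 121 * (1 + S) * P := by ring

/-- G4. All characters modulo `q` (window `[q^A, q^K]`). -/
theorem all_char (θ β : ℝ) (hθ : 1 / 2 ≤ θ) (hθ1 : θ < 1) (hβ0 : 0 ≤ β) (hβ : β < θ / (2 - θ)) :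
    ∃ C₂ : ℝ, 1 ≤ C₂ ∧
    ∀ (A C K₃ : ℝ), 1 ≤ A → 0 ≤ C → 1 ≤ K₃ → ∃ (K : ℕ) (η : ℝ) (q₀ : ℕ), 0 < η ∧ η ≤ 1 / 2 ∧
    ∀ S : ℝ, 3 ≤ S →
    ∀ (q : ℕ) [NeZero q], q₀ ≤ q → S + 2 ≤ (q : ℝ) ^ η → ∀ B : Finset ℕ, (B.card : ℝ) ≤ (q : ℝ) ^ β →
    (∀ a : ℕ, 1 ≤ a → a ≤ q → Nat.Coprime a q → a ∉ B → ∀ x : ℝ, (q : ℝ) ^ A ≤ x →
      x ≤ (q : ℝ) ^ K → |EM.psi x q a - x / (q.totient : ℝ)| ≤ (q : ℝ) ^ C * x ^ θ) →
    ∀ χ : DirichletCharacter ℂ q, ∀ s : ℂ, s.re = 2 → ‖s‖ ≤ S → ∀ k : ℕ,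
      C₂ * (A * Real.log q) ≤ k → (k : ℝ) ≤ K₃ * (A * Real.log q) →
      ‖TC (logDeriv (MC.FF q χ)) s k‖ * (2 - θ) ^ k ≤ (q : ℝ) ^ (C + 4) := by
  classical
  set β₀ : ℝ := θ / (2 - θ) with hβ₀
  have hβ₀1 : β₀ ≤ 1 := by
    rw [hβ₀, div_le_one (by linarith)]
    linarith
  obtain ⟨ε₀, h0, h1, hβε⟩ : ∃ ε₀ : ℝ, 0 < ε₀ ∧ ε₀ ≤ 1 / 10 ∧ 0 < β₀ - ε₀ - β := by
    refine ⟨min ((β₀ - β) / 2) (1 / 10), lt_min (by linarith) (by norm_num),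
      min_le_right _ _, ?_⟩
    have := min_le_left ((β₀ - β) / 2) (1 / 10 : ℝ)
    linarith
  obtain ⟨C₂, Cw, hC₂, hCw, hcore⟩ := core_unif θ ε₀ hθ hθ1 h0 h1
  refine ⟨max C₂ 12, hC₂.trans (le_max_left _ _), fun A C K₃ hA hC hK₃ => ?_⟩
  obtain ⟨K', hK', η, q', hη0, hη2, hcoreS⟩ := hcore A K₃ hA hK₃
  obtain ⟨n₁, hn₁⟩ := Filter.eventually_atTop.mp
    (((tendsto_rpow_atTop hβε).comp tendsto_natCast_atTop_atTop).eventually_ge_atTop (2 : ℝ))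
  obtain ⟨K, hKA, hKB⟩ : ∃ K : ℕ, A * K' ≤ K ∧ 11 / 5 * (A * K₃) ≤ K := by
    refine ⟨max ⌈A * K'⌉₊ ⌈11 / 5 * (A * K₃)⌉₊, ?_, ?_⟩
    · exact (Nat.le_ceil _).trans (by exact_mod_cast le_max_left _ _)
    · exact (Nat.le_ceil _).trans (by exact_mod_cast le_max_right _ _)
  obtain ⟨m, hm⟩ := exists_nat_ge ((12 * Cw + 121 + 9) ^ 2)
  obtain ⟨n₂, hn₂⟩ := G4_out ε₀ h0
  refine ⟨K, η, max (max q' (max n₁ n₂)) m, hη0, hη2,
    fun S hS q _ hq hSq B hB hyp χ s hs hsS k hk1 hk2 => ?_⟩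
  have hq' := hcoreS S hS
  obtain ⟨C', hC'def⟩ : ∃ C' : ℝ, C' = 6 * (1 + S) * Cw := ⟨_, rfl⟩
  have hC' : 1 ≤ C' := by
    rw [hC'def]
    exact one_le_mul_of_one_le_of_one_le (by linarith) hCw
  have hqq' : q' ≤ q := (le_max_left _ _).trans ((le_max_left _ _).trans hq)
  have hqn₁ : n₁ ≤ q := (le_max_left _ _).trans ((le_max_right _ _).trans
    ((le_max_left _ _).trans hq))
  have hqn₂ : n₂ ≤ q := (le_max_right _ _).trans ((le_max_right _ _).trans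
    ((le_max_left _ _).trans hq))
  have hqm : (m : ℝ) ≤ q := by exact_mod_cast (le_max_right _ _).trans hq
  have hcw2 : (9 : ℝ) ≤ (12 * Cw + 121 + 9) ^ 2 := by
    have h2 : (9 : ℝ) ≤ 12 * Cw + 121 + 9 := by linarith
    calc (9 : ℝ) ≤ 12 * Cw + 121 + 9 := h2
      _ ≤ (12 * Cw + 121 + 9) ^ 2 := le_self_pow₀ (by linarith) two_ne_zero
  have hQ9 : (9 : ℝ) ≤ q := hcw2.trans (hm.trans hqm)
  have hQM : 2 * C' + 121 * (1 + S) + 9 ≤ (q : ℝ) := by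
    have hQ0 : (0 : ℝ) < q := by linarith
    obtain ⟨r, hr⟩ : ∃ r : ℝ, r = (q : ℝ) ^ (1 / 2 : ℝ) := ⟨_, rfl⟩
    have hr0 : 0 ≤ r := by rw [hr]; positivity
    have hr2 : r * r = q := by
      rw [hr, ← Real.rpow_add hQ0]
      norm_num
    have hrbig : 12 * Cw + 121 + 9 ≤ r := by
      have h2 : (12 * Cw + 121 + 9) ^ 2 ≤ r ^ 2 := by
        rw [pow_two r, hr2]
        exact hm.trans hqm
      exact (pow_le_pow_iff_left₀ (by linarith) hr0 two_ne_zero).mp h2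
    have hSr : 1 + S ≤ r := by
      have h2 : (q : ℝ) ^ η ≤ r := by
        rw [hr]
        exact Real.rpow_le_rpow_of_exponent_le (by linarith) hη2
      linarith
    have h1S : 1 ≤ 1 + S := by linarith
    calc 2 * C' + 121 * (1 + S) + 9 = (1 + S) * (12 * Cw + 121) + 9 := by rw [hC'def]; ring
      _ ≤ (1 + S) * (12 * Cw + 121) + 9 * (1 + S) := by linarith
      _ = (1 + S) * (12 * Cw + 121 + 9) := by ring
      _ ≤ r * r := mul_le_mul hSr hrbig (by linarith) hr0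
      _ = q := hr2
  have hq9 : 9 ≤ q := by exact_mod_cast hQ9
  have hQ1 : (1 : ℝ) ≤ q := by linarith
  have hQ0 : (0 : ℝ) < q := by linarith
  have hlogQ : 0 < Real.log q := Real.log_pos (by linarith)
  have hlogX : Real.log ((q : ℝ) ^ A) = A * Real.log q := Real.log_rpow hQ0 A
  have hβq : 2 * (q : ℝ) ^ β ≤ (q : ℝ) ^ (β₀ - ε₀) := by
    have h2 : (2 : ℝ) ≤ (q : ℝ) ^ (β₀ - ε₀ - β) := hn₁ q hqn₁
    calc 2 * (q : ℝ) ^ β ≤ (q : ℝ) ^ (β₀ - ε₀ - β) * (q : ℝ) ^ β := by gcongr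
      _ = (q : ℝ) ^ (β₀ - ε₀) := by
          rw [← Real.rpow_add hQ0]
          congr 1
          ring
  -- the classes
  set B' : Finset (ZMod q)ˣ := insert 1 (B.image (un q)) with hB'
  have hB'ne : B'.Nonempty := ⟨1, mem_insert_self _ _⟩
  have hB'1 : (1 : ℝ) ≤ B'.card := by exact_mod_cast hB'ne.card_pos
  have hB'c : (B'.card : ℝ) ≤ (q : ℝ) ^ (β₀ - ε₀) := by
    have h2 : B'.card ≤ B.card + 1 := by
      rw [hB']
      exact (card_insert_le _ _).trans (Nat.add_le_add_right card_image_le 1)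
    have h3 : (1 : ℝ) ≤ (q : ℝ) ^ β := Real.one_le_rpow hQ1 hβ0
    calc (B'.card : ℝ) ≤ B.card + 1 := by exact_mod_cast h2
      _ ≤ (q : ℝ) ^ β + (q : ℝ) ^ β := by gcongr
      _ ≤ _ := by linarith
  have hB'c1 : (B'.card : ℝ) ≤ (q : ℝ) ^ (1 - ε₀) :=
    hB'c.trans (Real.rpow_le_rpow_of_exponent_le hQ1 (by linarith))
  set P : ℝ := (q : ℝ) ^ C with hP
  have hP1 : 1 ≤ P := Real.one_le_rpow hQ1 hC
  have hpsi : ∀ c ∉ B', ∀ x : ℝ, (q : ℝ) ^ A ≤ x → x ≤ (q : ℝ) ^ K →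
      |psiU q c x - x / (q.totient : ℝ)| ≤ P * x ^ θ := by
    intro c hc x hx1 hx2
    obtain ⟨a, ha1, haq, hac, hau⟩ := exists_rep q c
    have haB : a ∉ B := by
      intro haB
      refine hc (mem_insert_of_mem ?_)
      rw [← hau]
      exact mem_image_of_mem _ haB
    have h2 := hyp a ha1 haq hac haB x hx1 hx2
    rw [← psiU_eq q a hac x, hau] at h2
    exact h2
  have hXK : ((q : ℝ) ^ A) ^ K' ≤ (q : ℝ) ^ K := by
    rw [← Real.rpow_natCast, ← Real.rpow_mul hQ0.le, ← Real.rpow_natCast]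
    exact Real.rpow_le_rpow_of_exponent_le hQ1 hKA
  have hX1 : (1 : ℝ) ≤ (q : ℝ) ^ A := Real.one_le_rpow hQ1 (by linarith)
  have hqX : (q : ℝ) ≤ (q : ℝ) ^ A := by
    calc (q : ℝ) = (q : ℝ) ^ (1 : ℝ) := (Real.rpow_one _).symm
      _ ≤ _ := Real.rpow_le_rpow_of_exponent_le hQ1 hA
  have hdiff : ∀ c ∉ B', ∀ c' ∉ B', ∀ x : ℝ, (q : ℝ) ^ A ≤ x → x ≤ ((q : ℝ) ^ A) ^ K' →
      |psiU q c x - psiU q c' x| ≤ (2 * P) * x ^ θ := by
    intro c hc c' hc' x hx1 hx2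
    have h2 := hpsi c hc x hx1 (hx2.trans hXK)
    have h3 := hpsi c' hc' x hx1 (hx2.trans hXK)
    rw [abs_sub_comm] at h3
    calc |psiU q c x - psiU q c' x|
        = |(psiU q c x - x / (q.totient : ℝ)) + (x / (q.totient : ℝ) - psiU q c' x)| := by
          congr 1; ring
      _ ≤ _ := abs_add_le _ _
      _ ≤ P * x ^ θ + P * x ^ θ := add_le_add h2 h3
      _ = _ := by ring
  have hk1' : C₂ * Real.log ((q : ℝ) ^ A) ≤ k := by
    rw [hlogX]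
    refine le_trans ?_ hk1
    have : 0 ≤ A * Real.log q := by positivity
    exact mul_le_mul_of_nonneg_right (le_max_left _ _) this
  have hk12 : 12 * Real.log ((q : ℝ) ^ A) ≤ k := by
    rw [hlogX]
    refine le_trans ?_ hk1
    have : 0 ≤ A * Real.log q := by positivity
    exact mul_le_mul_of_nonneg_right (le_max_right _ _) this
  have hk2' : (k : ℝ) ≤ K₃ * Real.log ((q : ℝ) ^ A) := by rw [hlogX]; exact hk2
  obtain ⟨hin, hout⟩ := hq' q hqq' hSq ((q : ℝ) ^ A) hqX le_rfl B' hB'ne hB'c (2 * P)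
    (by positivity) hdiff s hs hsS k hk1' hk2'
  rw [← hC'def] at hin hout
  have hρ0 : 0 < 2 - θ := by linarith
  have hρk : 0 < (2 - θ) ^ k := by positivity
  have hq2 : (q : ℝ) ^ (-2 : ℝ) ≤ 1 := Real.rpow_le_one_of_one_le_of_nonpos hQ1 (by norm_num)
  have hPq : (q : ℝ) ^ (C + 4) = P * (q : ℝ) ^ 4 := by
    rw [Real.rpow_add hQ0, hP]
    congr 1
    exact_mod_cast Real.rpow_natCast (q : ℝ) 4
  have hφq : (q.totient : ℝ) ≤ q := by exact_mod_cast Nat.totient_le q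
  have hq2' : (q : ℝ) ^ 2 ≤ (q : ℝ) ^ 4 := pow_le_pow_right₀ hQ1 (by norm_num)
  have hq3' : (q : ℝ) ^ 3 ≤ (q : ℝ) ^ 4 := pow_le_pow_right₀ hQ1 (by norm_num)
  rw [hPq]
  by_cases hχ : χ = 1
  · subst hχ
    obtain ⟨c, hc⟩ := hn₂ q hqn₂ B' hB'c1
    have hkpos : 1 ≤ k := by
      by_contra hlt
      push Not at hlt
      have hk0 : k = 0 := by omega
      rw [hk0, hlogX] at hk12
      have : 0 < A * Real.log q := by positivity
      push_cast at hk12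
      linarith
    have hXY : (q : ℝ) ^ A ≤ (q : ℝ) ^ K := by
      refine le_trans ?_ hXK
      exact le_self_pow₀ hX1 (by omega)
    have h2 := triv_char q s hs S (by linarith) hsS k c ((q : ℝ) ^ A) ((q : ℝ) ^ K) P θ hX1 hXY
      (by positivity) hθ hθ1.le hkpos hk12 (hpsi c hc)
    have h3 := G4_bet S P θ q A K₃ K k hS hP1 hQ1 hθ hθ1 hk2 hKB
    have h4 := hout c hc
    have h5 : bet S P θ ((q : ℝ) ^ K) k 1 * (2 - θ) ^ k + ‖Dk q s k c‖ * (2 - θ) ^ k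
        ≤ P * q := by
      have h6 : C' * (2 * P) + (q : ℝ) ^ (-2 : ℝ) ≤ (2 * C' + 1) * P := by
        have : C' * (2 * P) + (q : ℝ) ^ (-2 : ℝ) ≤ C' * (2 * P) + 1 := by gcongr
        linarith
      calc bet S P θ ((q : ℝ) ^ K) k 1 * (2 - θ) ^ k + ‖Dk q s k c‖ * (2 - θ) ^ k
          ≤ 121 * (1 + S) * P + (2 * C' + 1) * P := add_le_add h3 (h4.trans h6)
        _ = P * (2 * C' + 121 * (1 + S) + 1) := by ring
        _ ≤ P * q := by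
            gcongr
            linarith
    have hbpos : 0 ≤ bet S P θ ((q : ℝ) ^ K) k 1 * (2 - θ) ^ k + ‖Dk q s k c‖ * (2 - θ) ^ k := by
      have h7 : 0 ≤ q.totient * (bet S P θ ((q : ℝ) ^ K) k 1 + ‖Dk q s k c‖) :=
        (norm_nonneg _).trans h2
      have h8 : (0 : ℝ) < q.totient := by
        exact_mod_cast Nat.totient_pos.mpr (by omega)
      have h9 : 0 ≤ bet S P θ ((q : ℝ) ^ K) k 1 + ‖Dk q s k c‖ := by
        by_contra hneg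
        push Not at hneg
        exact absurd h7 (not_le.mpr (mul_neg_of_pos_of_neg h8 hneg))
      rw [← add_mul]
      positivity
    calc ‖TC (logDeriv (MC.FF q 1)) s k‖ * (2 - θ) ^ k
        ≤ q.totient * (bet S P θ ((q : ℝ) ^ K) k 1 + ‖Dk q s k c‖) * (2 - θ) ^ k := by gcongr
      _ = q.totient * (bet S P θ ((q : ℝ) ^ K) k 1 * (2 - θ) ^ k
          + ‖Dk q s k c‖ * (2 - θ) ^ k) := by ring
      _ ≤ q * (P * q) := by
          exact mul_le_mul hφq h5 hbpos hQ0.le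
      _ = P * (q : ℝ) ^ 2 := by ring
      _ ≤ P * (q : ℝ) ^ 4 := by gcongr
  · obtain ⟨hW1, hW2⟩ := G4_W θ q B'.card ε₀ hθ hθ1 hQ1 h0 h1 hB'1 hB'c1
    have hone : ∀ a : (ZMod q)ˣ, ‖Dk q s k a‖ * (2 - θ) ^ k ≤ (2 * C' + 1) * P * q := by
      intro a
      have h6 : C' * (2 * P) * q + 1 ≤ (2 * C' + 1) * P * q := by
        have : 1 ≤ P * q := by nlinarith
        linarith
      by_cases haB : a ∈ B'
      · have h2 := hin a haB
        rw [mul_assoc] at h2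
        calc ‖Dk q s k a‖ * (2 - θ) ^ k
            ≤ C' * (2 * P) * (((B'.card : ℝ) * q) ^ (1 - θ) * (q : ℝ) ^ (ε₀ / 4))
              + (q : ℝ) ^ (-2 : ℝ) := h2
          _ ≤ C' * (2 * P) * q + 1 := by gcongr
          _ ≤ _ := h6
      · have h2 := hout a haB
        calc ‖Dk q s k a‖ * (2 - θ) ^ k
            ≤ C' * (2 * P) + (q : ℝ) ^ (-2 : ℝ) := h2
          _ ≤ C' * (2 * P) * q + 1 := by
              refine add_le_add ?_ hq2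
              have : 0 ≤ C' * (2 * P) := by positivity
              nlinarith
          _ ≤ _ := h6
    have h2 := coeff_le q s k χ hχ
    rw [MC.FF_of_ne q χ hχ, G4_TC_neg]
    calc ‖TC (fun z => -logDeriv χ.LFunction z) s k‖ * (2 - θ) ^ k
        ≤ (∑ a : (ZMod q)ˣ, ‖Dk q s k a‖) * (2 - θ) ^ k := by gcongr
      _ = ∑ a : (ZMod q)ˣ, ‖Dk q s k a‖ * (2 - θ) ^ k := by rw [sum_mul]
      _ ≤ ∑ a : (ZMod q)ˣ, (2 * C' + 1) * P * q := sum_le_sum fun a _ => hone a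
      _ = q.totient * ((2 * C' + 1) * P * q) := by
          rw [sum_const, card_univ, ZMod.card_units_eq_totient, nsmul_eq_mul]
      _ ≤ q * (q * P * q) := by
          gcongr
          linarith
      _ = P * (q : ℝ) ^ 3 := by ring
      _ ≤ P * (q : ℝ) ^ 4 := by gcongr

end Pool.Agent.MY
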