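import Mathlib
import Pool.Agent.Lib.MP_9cfc0a_nt.MY.Defs
import Pool.Agent.Lib.MP_9cfc0a_nt.EMCoeff

set_option autoImplicit false

namespace Pool.Agent.MY

open Complex Metric Set MeasureTheory EM

/-- L1. `EM.coeff_lower` at a point near the ordinate of the zero (same proof). -/
lemma coeff_lower' (η : ℝ) (hη : 0 < η) (hη1 : η ≤ 1) :
    ∃ (L : ℕ) (X₁ : ℝ), ∀ (q : ℕ) [NeZero q] (X : ℝ), (q : ℝ) ≤ X → X₁ ≤ X →
      ∀ χ : DirichletCharacter ℂ q, χ ≠ 1 →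
      ∀ ρ₀ : ℂ, χ.LFunction ρ₀ = 0 → 1 / 2 ≤ ρ₀.re → ρ₀.re < 1 → |ρ₀.im| ≤ 19 / 10 →
      ∀ s₀ : ℂ, s₀.re = 2 → |s₀.im - ρ₀.im| ≤ 1 / Real.log X → ∃ k : ℕ,
        12 * Real.log X ≤ k ∧ ((k : ℝ) + 2) ≤ L * (12 * Real.log X + 3) ∧
        (1 / 4) * X ^ (-(η / 2)) * (2 / 3 : ℝ) ^ (k + 2)
          ≤ ‖iteratedDeriv (k + 1) (logDeriv χ.LFunction) s₀ / ((k + 1).factorial : ℂ)‖ := by
  obtain ⟨C, hC1, hloc⟩ := local_zeros
  obtain ⟨L, m₀, htur⟩ := turan_window (η / 48) C (by positivity) (by linarith)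
  have hev := ((((((evX_logC 10).and (evX_logC (4 / η))).and (evX_logC m₀)).and
    (evX_log (16 * C) (1 / 2) (by norm_num))).and (Filter.eventually_ge_atTop 300)).and
    (evX_logC (26 * L)))
  obtain ⟨X₁, hX₁⟩ := Filter.eventually_atTop.mp hev
  refine ⟨L, X₁, fun q _ X hqX hX χ hχ ρ₀ hρ₀ hre1 hre2 him s₀ hs₀re hs₀im => ?_⟩
  obtain ⟨⟨⟨⟨⟨hlog10, hlogη⟩, hlogm⟩, hlogC⟩, hq300R⟩, hlogL⟩ := hX₁ X hX
  have hlog1 : 1 ≤ Real.log X := by linarith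
  have hq0 : (0 : ℝ) < X := by linarith
  have hqn0 : (1 : ℝ) ≤ (q : ℝ) := by exact_mod_cast Nat.pos_of_ne_zero (NeZero.ne q)
  set ℓ : ℝ := Real.log X with hℓ
  have hℓ0 : 0 < ℓ := by linarith
  have him2 : |s₀.im| ≤ 2 := by
    have h1 : |s₀.im| ≤ |s₀.im - ρ₀.im| + |ρ₀.im| := by
      calc |s₀.im| = |(s₀.im - ρ₀.im) + ρ₀.im| := by ring_nf
        _ ≤ _ := abs_add_le _ _
    have h2 : 1 / ℓ ≤ 1 / 10 := one_div_le_one_div_of_le (by norm_num) hlog10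
    linarith
  have hs₀n : ‖s₀‖ ≤ 3 := by
    have h1 : ‖s₀‖ ^ 2 = 2 * 2 + s₀.im * s₀.im := by
      rw [← Complex.normSq_eq_norm_sq, Complex.normSq_apply, hs₀re]
    have h2 : s₀.im * s₀.im ≤ 2 ^ 2 := by
      rw [← sq, ← sq_abs]
      gcongr
    nlinarith only [h1, h2, norm_nonneg s₀]
  -- local zeros
  have hexpT : Real.exp (2 * ℓ) = X ^ (2 : ℕ) := by
    rw [two_mul, Real.exp_add, hℓ, Real.exp_log hq0]; ring
  have hana : AnalyticOnNhd ℂ χ.LFunction (closedBall s₀ (39 / 20)) := by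
    have h1 := DirichletCharacter.differentiable_LFunction hχ
    exact (h1.differentiableOn.analyticOnNhd isOpen_univ).mono (subset_univ _)
  have hbd : ∀ z ∈ closedBall s₀ (39 / 20), ‖χ.LFunction z‖ ≤ Real.exp (2 * ℓ) := by
    intro z hz
    rw [mem_closedBall, dist_eq_norm] at hz
    have hre := Complex.abs_re_le_norm (z - s₀)
    rw [Complex.sub_re, hs₀re, abs_le] at hre
    have h3 := L_growth q χ hχ z (by linarith)
    have h4 : ‖z‖ ≤ 5 := by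
      calc ‖z‖ = ‖(z - s₀) + s₀‖ := by ring_nf
        _ ≤ ‖z - s₀‖ + ‖s₀‖ := norm_add_le _ _
        _ ≤ 39 / 20 + 3 := by gcongr
        _ ≤ 5 := by norm_num
    rw [hexpT]
    calc ‖χ.LFunction z‖ ≤ 20 * (2 * q + 1) * ‖z‖ := h3
      _ ≤ 20 * (2 * q + 1) * 5 := by gcongr
      _ ≤ X ^ 2 := by nlinarith only [hqX, hq300R]
  have hlow : Real.exp (-(2 * ℓ)) ≤ ‖χ.LFunction s₀‖ := by
    refine le_trans ?_ (MC.LFunction_lower q χ s₀ hs₀re)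
    rw [Real.exp_neg, hexpT, inv_le_comm₀ (by positivity) (by norm_num)]
    nlinarith only [hq300R]
  obtain ⟨n, ρ, hn, hρz, hρcov, hρco⟩ := hloc χ.LFunction s₀ (2 * ℓ) (by linarith) hana hbd hlow
  have hρre : ∀ j, (ρ j).re < 1 := by
    intro j
    by_contra hge
    exact DirichletCharacter.LFunction_ne_zero_of_one_le_re χ (.inl hχ) (not_lt.mp hge) (hρz j)
  have hsρ : ∀ j, s₀ - ρ j ≠ 0 := by
    intro j h
    have h1 := congrArg Complex.re h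
    rw [Complex.sub_re, hs₀re, Complex.zero_re] at h1
    linarith [hρre j]
  set r₀ : ℝ := 3 / 2 * (1 + 1 / ℓ ^ 2) with hr₀
  have hr₀p : 0 < r₀ := by positivity
  have hr₀2 : r₀ ≤ 7 / 4 := by
    have h1 : 1 / ℓ ^ 2 ≤ 1 / 10 ^ 2 := one_div_le_one_div_of_le (by norm_num) (by gcongr)
    rw [hr₀]
    linarith
  have hdist0 : ‖s₀ - ρ₀‖ ≤ r₀ := by
    have h1 : ‖s₀ - ρ₀‖ ^ 2 = (2 - ρ₀.re) * (2 - ρ₀.re) + (s₀.im - ρ₀.im) * (s₀.im - ρ₀.im) := by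
      rw [← Complex.normSq_eq_norm_sq, Complex.normSq_apply, Complex.sub_re, Complex.sub_im, hs₀re]
    have h2 : (s₀.im - ρ₀.im) * (s₀.im - ρ₀.im) ≤ 1 / ℓ ^ 2 := by
      rw [← sq, ← sq_abs]
      calc |s₀.im - ρ₀.im| ^ 2 ≤ (1 / ℓ) ^ 2 := by gcongr
        _ = 1 / ℓ ^ 2 := by rw [div_pow, one_pow]
    have h3 : (2 - ρ₀.re) * (2 - ρ₀.re) ≤ 3 / 2 * (3 / 2) := by
      apply mul_le_mul <;> linarith
    have h4 : 0 ≤ 1 / ℓ ^ 2 := by positivity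
    have h5 : ‖s₀ - ρ₀‖ ^ 2 ≤ r₀ ^ 2 := by
      rw [h1, hr₀]
      nlinarith only [h2, h3, h4]
    exact le_of_sq_le_sq h5 hr₀p.le
  obtain ⟨j₁, hj₁⟩ := hρcov ρ₀ (by
    rw [mem_closedBall, dist_eq_norm, ← norm_neg, neg_sub]; linarith) hρ₀
  have : Nonempty (Fin n) := ⟨j₁⟩
  obtain ⟨js, hjs⟩ := Finite.exists_min (fun j => ‖s₀ - ρ j‖)
  have hr32 : ‖s₀ - ρ js‖ ≤ r₀ := by
    have := hjs j₁
    rw [hj₁] at this
    linarith
  have hr0 : 0 < ‖s₀ - ρ js‖ := norm_pos_iff.mpr (hsρ js)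
  -- the power sum lemma
  set m : ℕ := ⌈12 * ℓ⌉₊ + 2 with hm
  have hmR1 : 12 * ℓ + 2 ≤ m := by
    rw [hm]; push_cast
    linarith [Nat.le_ceil (12 * ℓ)]
  have hmR2 : (m : ℝ) ≤ 12 * ℓ + 3 := by
    rw [hm]; push_cast
    have h1 := Nat.ceil_lt_add_one (show 0 ≤ 12 * ℓ by positivity)
    linarith
  have hmm₀ : m₀ ≤ m := by
    have h1 : (m₀ : ℝ) ≤ m := by linarith only [hlogm, hmR1, hℓ0]
    exact_mod_cast h1
  have hcard : (Fintype.card (Fin n) : ℝ) ≤ C * m := by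
    rw [Fintype.card_fin]
    refine hn.trans ?_
    gcongr
    linarith only [hmR1, hℓ0]
  obtain ⟨k', hk1, hk2, hk3⟩ := htur m hmm₀ (Fin n) (fun j => (s₀ - ρ j) / (s₀ - ρ js)) hcard
    (by
      intro j
      rw [norm_div, one_le_div hr0]
      exact hjs j)
    ⟨js, div_self (hsρ js)⟩
  obtain ⟨k, rfl⟩ : ∃ k, k' = k + 2 := ⟨k' - 2, by omega⟩
  refine ⟨k, ?_, ?_, ?_⟩
  · have h1 : (m : ℝ) ≤ k + 2 := by exact_mod_cast hk1
    linarith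
  · have h1 : ((k : ℝ) + 2) ≤ L * m := by exact_mod_cast hk2
    refine h1.trans ?_
    gcongr
  have hsum : ∑ j, ((s₀ - ρ j)⁻¹) ^ (k + 1 + 1)
      = ((s₀ - ρ js)⁻¹) ^ (k + 2) * ∑ j, ((fun j => (s₀ - ρ j) / (s₀ - ρ js)) j)⁻¹ ^ (k + 2) := by
    rw [Finset.mul_sum]
    refine Finset.sum_congr rfl fun j _ => ?_
    simp only
    rw [← mul_pow, inv_div]
    congr 1
    field_simp [hsρ j, hsρ js]
  have hk2R : ((k : ℝ) + 2) ≤ 1 / 2 * ℓ ^ 2 := by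
    have h1 : ((k + 2 : ℕ) : ℝ) ≤ L * m := by exact_mod_cast hk2
    push_cast at h1
    have hL0 : (0 : ℝ) ≤ L := Nat.cast_nonneg L
    calc (k : ℝ) + 2 ≤ L * m := h1
      _ ≤ L * (13 * ℓ) := by gcongr; linarith
      _ = 1 / 2 * ((26 * L) * ℓ) := by ring
      _ ≤ 1 / 2 * (ℓ * ℓ) := by gcongr
      _ = 1 / 2 * ℓ ^ 2 := by ring
  have hr0pow : r₀ ^ (k + 2) ≤ 2 * (3 / 2 : ℝ) ^ (k + 2) := by
    rw [hr₀, mul_pow, mul_comm]
    gcongr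
    calc (1 + 1 / ℓ ^ 2) ^ (k + 2) ≤ (Real.exp (1 / ℓ ^ 2)) ^ (k + 2) := by
          gcongr
          have := Real.add_one_le_exp (1 / ℓ ^ 2)
          linarith
      _ = Real.exp (((k + 2 : ℕ) : ℝ) * (1 / ℓ ^ 2)) := by rw [← Real.exp_nat_mul]
      _ ≤ Real.exp (1 / 2) := by
          rw [Real.exp_le_exp, mul_one_div, div_le_iff₀ (by positivity)]
          push_cast
          exact hk2R
      _ ≤ 2 := by
          have h1 : Real.exp (1 / 2) ^ 2 = Real.exp 1 := by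
            rw [← Real.exp_nat_mul]; norm_num
          nlinarith only [h1, Real.exp_one_lt_d9, Real.exp_pos (1 / 2)]
  have hmain : X ^ (-(η / 2)) * ((1 / 2) * (2 / 3 : ℝ) ^ (k + 2))
      ≤ ‖(-1 : ℂ) ^ (k + 1) * ∑ j, ((s₀ - ρ j)⁻¹) ^ (k + 1 + 1)‖ := by
    rw [norm_mul, norm_pow, norm_neg, norm_one, one_pow, one_mul, hsum, norm_mul, mul_comm]
    gcongr
    · rw [norm_pow, norm_inv]
      have h1 : ‖s₀ - ρ js‖ ^ (k + 2) ≤ 2 * (3 / 2 : ℝ) ^ (k + 2) :=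
        (pow_le_pow_left₀ (norm_nonneg _) hr32 _).trans hr0pow
      have h2 : (1 / 2) * (2 / 3 : ℝ) ^ (k + 2) = (2 * (3 / 2 : ℝ) ^ (k + 2))⁻¹ := by
        rw [mul_inv, ← inv_pow]
        norm_num
      rw [h2, inv_pow]
      exact inv_anti₀ (by positivity) h1
    · refine le_trans ?_ hk3
      rw [Real.rpow_def_of_pos hq0, Real.exp_le_exp, ← hℓ]
      have h1 : 4 ≤ η * ℓ := by
        rw [div_le_iff₀ hη] at hlogη; linarith
      have h2 : η / 48 * m ≤ η / 48 * (12 * ℓ + 3) := by gcongr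
      linarith
  have herr : C * (2 * ℓ) * (10 / 17 : ℝ) ^ (k + 1)
      ≤ (1 / 4) * X ^ (-(η / 2)) * (2 / 3 : ℝ) ^ (k + 2) := by
    have h1 : 16 * C * ℓ ≤ X ^ (1 / 2 : ℝ) := hlogC
    have h2 : X ^ (1 / 2 : ℝ) * X ^ (η / 2) ≤ X := by
      rw [← Real.rpow_add hq0]
      calc X ^ (1 / 2 + η / 2) ≤ X ^ (1 : ℝ) := by
            apply Real.rpow_le_rpow_of_exponent_le <;> linarith
        _ = X := Real.rpow_one _
    have h3 : X ≤ (17 / 15 : ℝ) ^ (k + 2) := by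
      have h4 := exp_le_pow (17 / 15) (2 / 17) (by norm_num) (by
        have := Real.one_sub_inv_le_log_of_pos (show (0 : ℝ) < 17 / 15 by norm_num)
        norm_num at this ⊢
        linarith) (12 * ℓ) (k + 2) (by norm_num) (by
          have h1 : (m : ℝ) ≤ k + 2 := by exact_mod_cast hk1
          push_cast
          linarith only [h1, hmR1])
      refine le_trans ?_ h4
      rw [show (2 / 17 : ℝ) * (12 * ℓ) = ℓ + 7 / 17 * ℓ by ring, Real.exp_add, hℓ, Real.exp_log hq0]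
      have h5 : 1 ≤ Real.exp (7 / 17 * Real.log X) := by
        exact Real.one_le_exp (by linarith)
      linarith only [mul_le_mul_of_nonneg_left h5 hq0.le]
    have h5 : (2 / 3 : ℝ) ^ (k + 2) = (17 / 15) ^ (k + 2) * (10 / 17) ^ (k + 2) := by
      rw [← mul_pow]; norm_num
    have h6 : X ^ (-(η / 2)) * X ^ (η / 2) = 1 := by
      rw [← Real.rpow_add hq0]; simp
    have h7 : 16 * C * ℓ * X ^ (η / 2) ≤ (17 / 15 : ℝ) ^ (k + 2) := by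
      calc 16 * C * ℓ * X ^ (η / 2) ≤ X ^ (1 / 2 : ℝ) * X ^ (η / 2) := by gcongr
        _ ≤ X := h2
        _ ≤ _ := h3
    have h8 : (10 / 17 : ℝ) ^ (k + 1) = (17 / 10) * (10 / 17) ^ (k + 2) := by
      rw [pow_succ (10 / 17 : ℝ) (k + 1)]; ring
    rw [h5, h8]
    have h9 : C * (2 * ℓ) * (17 / 10) ≤ 1 / 4 * X ^ (-(η / 2)) * (17 / 15) ^ (k + 2) := by
      calc C * (2 * ℓ) * (17 / 10) ≤ 1 / 4 * (16 * C * ℓ) := by
            linarith only [mul_nonneg (show (0 : ℝ) ≤ C by linarith only [hC1]) hℓ0.le]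
        _ = 1 / 4 * (X ^ (-(η / 2)) * X ^ (η / 2)) * (16 * C * ℓ) := by rw [h6]; ring
        _ = 1 / 4 * X ^ (-(η / 2)) * (16 * C * ℓ * X ^ (η / 2)) := by ring
        _ ≤ _ := by gcongr
    calc C * (2 * ℓ) * (17 / 10 * (10 / 17) ^ (k + 2))
        = C * (2 * ℓ) * (17 / 10) * (10 / 17) ^ (k + 2) := by ring
      _ ≤ 1 / 4 * X ^ (-(η / 2)) * (17 / 15) ^ (k + 2) * (10 / 17) ^ (k + 2) := by gcongr
      _ = _ := by ring
  have h1 := hρco (k + 1)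
  set a : ℂ := iteratedDeriv (k + 1) (logDeriv χ.LFunction) s₀ / ((k + 1).factorial : ℂ) with ha
  set b : ℂ := (-1 : ℂ) ^ (k + 1) * ∑ j, ((s₀ - ρ j)⁻¹) ^ (k + 1 + 1) with hb
  have h2 : ‖b‖ ≤ ‖a‖ + ‖a - b‖ := by
    calc ‖b‖ = ‖a - (a - b)‖ := by congr 1; ring
      _ ≤ _ := norm_sub_le _ _
  linarith


end Pool.Agent.MY
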