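import Mathlib
import Pool.Agent.Lib.MP_9cfc0a_nt.MY.Defs
import Pool.Agent.Lib.MP_9cfc0a_nt.MY.A2
import Pool.Agent.Lib.MP_9cfc0a_nt.MY.L1
import Pool.Agent.Lib.MP_9cfc0a_nt.Mg.G043

set_option autoImplicit false

namespace Pool.Agent.MY

open Complex Finset

lemma L2_norm_TC (q : ℕ) [NeZero q] (χ : DirichletCharacter ℂ q) (s : ℂ) (k : ℕ) :
    ‖TC (fun z => -logDeriv χ.LFunction z) s k‖
      = ‖iteratedDeriv k (logDeriv χ.LFunction) s / (k.factorial : ℂ)‖ := by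
  unfold TC
  have h : iteratedDeriv k (fun z => -logDeriv χ.LFunction z) s
      = -iteratedDeriv k (logDeriv χ.LFunction) s := iteratedDeriv_fun_neg k _ s
  rw [h, neg_div, norm_neg]

/-- Numbers. -/
lemma L2_ev (C A J η : ℝ) (hC : 0 ≤ C) (hA : 1 ≤ A) (hJ : 12 ≤ J) (hη : 0 < η) :
    ∀ᶠ q : ℕ in Filter.atTop, C * (J / 12 * (A * Real.log q)) ^ 2 ≤ (q : ℝ) ^ (η / 2) := by
  have h1 := EM.ev_log ((C + 1) * (J / 12 * A)) (η / 4) (by positivity)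
  have h2 := EM.ev_logC 0
  filter_upwards [h1, h2] with q hq1 hq2
  have e1 : (q : ℝ) ^ (η / 2) = ((q : ℝ) ^ (η / 4)) ^ 2 := by
    rw [← Real.rpow_natCast, ← Real.rpow_mul (Nat.cast_nonneg q)]
    congr 1
    push_cast
    ring
  rw [e1]
  have hJA : 0 ≤ J / 12 * A := by positivity
  have e2 : 0 ≤ (C + 1) * (J / 12 * A) * Real.log q := by positivity
  have e3 := pow_le_pow_left₀ e2 hq1 2
  refine le_trans ?_ e3
  have e4 : C ≤ (C + 1) ^ 2 := by nlinarith only [hC]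
  have e5 : 0 ≤ (J / 12 * (A * Real.log q)) ^ 2 := sq_nonneg _
  calc C * (J / 12 * (A * Real.log q)) ^ 2 ≤ (C + 1) ^ 2 * (J / 12 * (A * Real.log q)) ^ 2 :=
        mul_le_mul_of_nonneg_right e4 e5
    _ = ((C + 1) * (J / 12 * A) * Real.log q) ^ 2 := by ring

/-- L2. The lower bound for the energy of the coefficients at one point `s` and one `k`. -/
theorem lower (A J η : ℝ) (hA : 1 ≤ A) (hJ : 12 ≤ J) (hη : 0 < η) :
    ∃ (K₃ : ℝ) (q₀ : ℕ), 1 ≤ K₃ ∧ ∀ (q : ℕ) [NeZero q], q₀ ≤ q → ∀ X : ℝ, (q : ℝ) ≤ X →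
    X ≤ (q : ℝ) ^ A → ∃ s : ℂ, s.re = 2 ∧ ‖s‖ ≤ 3 ∧ ∃ k : ℕ, J * Real.log X ≤ k ∧
      (k : ℝ) ≤ K₃ * Real.log X ∧
      (q : ℝ) ^ (-η) ≤ ∑ a : (ZMod q)ˣ, (‖Dk q s k a‖ * (3 / 2 : ℝ) ^ k) ^ 2 := by
  classical
  obtain ⟨η', hη'⟩ : ∃ η' : ℝ, η' = min 1 (6 * η / (A * J)) := ⟨_, rfl⟩
  have hη'0 : 0 < η' := by rw [hη']; exact lt_min one_pos (by positivity)
  have hη'1 : η' ≤ 1 := by rw [hη']; exact min_le_left _ _
  have hη'2 : η' * (A * J) ≤ 6 * η := by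
    have h : η' ≤ 6 * η / (A * J) := by rw [hη']; exact min_le_right _ _
    rwa [le_div_iff₀ (by positivity)] at h
  obtain ⟨L, X₁, hL⟩ := coeff_lower' η' hη'0 hη'1
  obtain ⟨qz, hz⟩ := many_zeros
  obtain ⟨C, hCdef⟩ : ∃ C : ℝ, C = 144 * ((15 * L + 1) * 9) := ⟨_, rfl⟩
  have hC0 : 0 ≤ C := by rw [hCdef]; positivity
  have hev := ((((L2_ev C A J η hC0 hA hJ hη).and (EM.ev_logC 10)).and
    (Filter.eventually_ge_atTop qz)).and (EM.ev_const X₁ 1 one_pos)).and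
    (Filter.eventually_ge_atTop 2)
  obtain ⟨q₀, hq₀⟩ := Filter.eventually_atTop.mp hev
  refine ⟨max 1 (15 * L * (J / 12)), q₀, le_max_left _ _, fun q _ hq X hqX hXA => ?_⟩
  obtain ⟨⟨⟨⟨hq1, hq2⟩, hq3⟩, hq4⟩, hq5⟩ := hq₀ q hq
  rw [Real.rpow_one] at hq4
  have hqR : (2 : ℝ) ≤ q := by exact_mod_cast hq5
  have hq0 : (0 : ℝ) < q := by linarith
  have hX0 : (0 : ℝ) < X := by linarith
  have hlogX : Real.log q ≤ Real.log X := Real.log_le_log hq0 hqX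
  have hlogXA : Real.log X ≤ A * Real.log q := by
    have h := Real.log_le_log hX0 hXA
    rwa [Real.log_rpow hq0] at h
  have hlX10 : 10 ≤ Real.log X := by linarith
  have hJ1 : 1 ≤ J / 12 := by rw [le_div_iff₀ (by norm_num)]; linarith
  obtain ⟨X', hX'⟩ : ∃ X' : ℝ, X' = X ^ (J / 12) := ⟨_, rfl⟩
  have hX'0 : 0 < X' := by rw [hX']; positivity
  have hX1 : 1 ≤ X := by linarith
  have hXX' : X ≤ X' := by
    rw [hX']
    calc X = X ^ (1 : ℝ) := (Real.rpow_one X).symm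
      _ ≤ X ^ (J / 12) := Real.rpow_le_rpow_of_exponent_le hX1 hJ1
  obtain ⟨ℓ, hℓ⟩ : ∃ ℓ : ℝ, ℓ = Real.log X' := ⟨_, rfl⟩
  have hℓ1 : ℓ = J / 12 * Real.log X := by rw [hℓ, hX', Real.log_rpow hX0]
  have hℓ10 : 10 ≤ ℓ := by rw [hℓ1]; nlinarith only [hJ1, hlX10]
  have hℓ0 : 0 < ℓ := by linarith
  have hℓu : ℓ ≤ J / 12 * (A * Real.log q) := by
    rw [hℓ1]
    exact mul_le_mul_of_nonneg_left hlogXA (by linarith)
  obtain ⟨T, hTcard, hT⟩ := hz q hq3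
  have hphi : (0 : ℝ) < q.totient := by
    exact_mod_cast Nat.totient_pos.mpr (Nat.pos_of_ne_zero (NeZero.ne q))
  -- the index set
  obtain ⟨K, hK⟩ : ∃ K : ℕ, K = ⌊15 * L * ℓ⌋₊ := ⟨_, rfl⟩
  obtain ⟨M, hM⟩ : ∃ M : ℕ, M = ⌈2 * ℓ⌉₊ := ⟨_, rfl⟩
  have hKu : (K : ℝ) ≤ 15 * L * ℓ := by rw [hK]; exact Nat.floor_le (by positivity)
  have hMl : 2 * ℓ ≤ M := by rw [hM]; exact Nat.le_ceil _
  have hMu : (M : ℝ) ≤ 2 * ℓ + 1 := by rw [hM]; exact (Nat.ceil_lt_add_one (by positivity)).le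
  obtain ⟨I, hI⟩ : ∃ I : Finset (ℕ × ℤ), I = range (K + 1) ×ˢ Finset.Icc (-(M : ℤ)) M := ⟨_, rfl⟩
  have hIcard : (I.card : ℝ) ≤ (15 * L + 1) * 9 * ℓ ^ 2 := by
    have e1 : I.card = (K + 1) * (2 * M + 1) := by
      rw [hI, card_product, card_range, Int.card_Icc]
      congr 1
      omega
    rw [e1]
    push_cast
    have e2 : (K : ℝ) + 1 ≤ (15 * L + 1) * ℓ := by
      have : (15 * (L : ℝ) + 1) * ℓ = 15 * L * ℓ + ℓ := by ring
      linarith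
    have e3 : 2 * (M : ℝ) + 1 ≤ 9 * ℓ := by linarith
    calc ((K : ℝ) + 1) * (2 * M + 1) ≤ ((15 * L + 1) * ℓ) * (9 * ℓ) := by gcongr
      _ = (15 * L + 1) * 9 * ℓ ^ 2 := by ring
  have hIne : I.Nonempty := by
    rw [hI]
    refine ⟨(0, 0), ?_⟩
    rw [mem_product]
    refine ⟨by simp, ?_⟩
    rw [Finset.mem_Icc]
    constructor <;> simp
  have hI0 : (0 : ℝ) < I.card := by exact_mod_cast hIne.card_pos
  -- the property
  obtain ⟨P, hP⟩ : ∃ P : DirichletCharacter ℂ q → ℕ × ℤ → Prop, P = fun χ y =>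
      12 * ℓ ≤ y.1 ∧ ((y.1 : ℝ) + 2) ≤ L * (12 * ℓ + 3) ∧ |(y.2 : ℝ)| ≤ 19 / 10 * ℓ + 1 / 2 ∧
      (1 / 4) * X' ^ (-(η' / 2)) * (2 / 3 : ℝ) ^ (y.1 + 2)
        ≤ ‖TC (fun z => -logDeriv χ.LFunction z) (2 + ((y.2 : ℝ) / ℓ : ℝ) * Complex.I) (y.1 + 1)‖ :=
    ⟨_, rfl⟩
  have hex : ∀ χ ∈ T, ∃ y : ℕ × ℤ, y ∈ I ∧ P χ y := by
    intro χ hχ
    obtain ⟨hχ1, ρ, hρ0, hρ1, hρ2, hρ3⟩ := hT χ hχ
    have hround := abs_sub_round (ρ.im * ℓ)
    obtain ⟨j, hj⟩ : ∃ j : ℤ, j = round (ρ.im * ℓ) := ⟨_, rfl⟩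
    rw [← hj] at hround
    have him : ((2 + ((j : ℝ) / ℓ : ℝ) * Complex.I : ℂ)).im = (j : ℝ) / ℓ := by simp
    have hre : ((2 + ((j : ℝ) / ℓ : ℝ) * Complex.I : ℂ)).re = 2 := by simp
    obtain ⟨k, hk1, hk2, hk3⟩ := hL q X' (le_trans hqX hXX') (by linarith) χ hχ1 ρ hρ0 hρ1 hρ2 hρ3
      (2 + ((j : ℝ) / ℓ : ℝ) * Complex.I) hre (by
        rw [him, ← hℓ]
        have e1 : (j : ℝ) / ℓ - ρ.im = -((ρ.im * ℓ - j) / ℓ) := by
          field_simp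
          ring
        rw [e1, abs_neg, abs_div, abs_of_pos hℓ0]
        gcongr
        linarith)
    rw [← hℓ] at hk1 hk2
    have hjabs : |(j : ℝ)| ≤ 19 / 10 * ℓ + 1 / 2 := by
      have e1 : |(j : ℝ)| ≤ |ρ.im * ℓ| + |ρ.im * ℓ - j| := by
        have e2 : (j : ℝ) = ρ.im * ℓ - (ρ.im * ℓ - j) := by ring
        calc |(j : ℝ)| = |ρ.im * ℓ - (ρ.im * ℓ - j)| := by rw [← e2]
          _ ≤ _ := abs_sub _ _
      rw [abs_mul, abs_of_pos hℓ0] at e1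
      have e3 : |ρ.im| * ℓ ≤ 19 / 10 * ℓ := mul_le_mul_of_nonneg_right hρ3 hℓ0.le
      linarith
    refine ⟨(k, j), ?_, ?_⟩
    · rw [hI, mem_product, mem_range, Finset.mem_Icc]
      refine ⟨?_, ?_, ?_⟩
      · have e1 : (k : ℝ) ≤ 15 * L * ℓ := by
          have e2 : (L : ℝ) * (12 * ℓ + 3) ≤ L * (15 * ℓ) := by
            gcongr
            linarith
          linarith
        have e3 : k ≤ K := by rw [hK]; exact Nat.le_floor e1
        omega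
      · have e1 := neg_abs_le (j : ℝ)
        have e2 : (-(M : ℝ)) ≤ (j : ℝ) := by linarith
        exact_mod_cast e2
      · have e1 := le_abs_self (j : ℝ)
        have e2 : (j : ℝ) ≤ (M : ℝ) := by linarith
        exact_mod_cast e2
    · rw [hP]
      refine ⟨hk1, hk2, hjabs, ?_⟩
      rw [L2_norm_TC]
      exact hk3
  choose! f hf using hex
  obtain ⟨y, hyI, hyc⟩ := Finset.exists_le_card_fiber_of_nsmul_le_card_of_maps_to
    (s := T) (t := I) (f := f) (fun χ hχ => (hf χ hχ).1) hIne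
    (b := (T.card : ℝ) / I.card) (by
      rw [nsmul_eq_mul, mul_div_cancel₀ _ hI0.ne'])
  have hT0 : 0 < (T.card : ℝ) := by linarith [show 0 < (q.totient : ℝ) / 4 by linarith]
  obtain ⟨T', hT'⟩ : ∃ T' : Finset (DirichletCharacter ℂ q), T' = T.filter (fun χ => f χ = y) :=
    ⟨_, rfl⟩
  rw [← hT'] at hyc
  have hT'0 : 0 < (T'.card : ℝ) := lt_of_lt_of_le (by positivity) hyc
  have hprop : ∀ χ ∈ T', χ ≠ 1 ∧ P χ y := by
    intro χ hχ
    rw [hT', mem_filter] at hχ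
    refine ⟨(hT χ hχ.1).1, ?_⟩
    have := (hf χ hχ.1).2
    rwa [hχ.2] at this
  obtain ⟨χ₀, hχ₀⟩ : T'.Nonempty := by
    rw [← Finset.card_pos]
    exact_mod_cast hT'0
  obtain ⟨k, j⟩ := y
  obtain ⟨s, hs⟩ : ∃ s : ℂ, s = 2 + ((j : ℝ) / ℓ : ℝ) * Complex.I := ⟨_, rfl⟩
  have hP0 := (hprop χ₀ hχ₀).2
  rw [hP] at hP0
  obtain ⟨hk1, hk2, hj, -⟩ := hP0
  simp only at hk1 hk2 hj
  have hsre : s.re = 2 := by rw [hs]; simp
  have hsim : s.im = (j : ℝ) / ℓ := by rw [hs]; simp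
  refine ⟨s, hsre, ?_, k + 1, ?_, ?_, ?_⟩
  · have e1 : |s.im| ≤ 2 := by
      rw [hsim, abs_div, abs_of_pos hℓ0, div_le_iff₀ hℓ0]
      linarith
    have e2 : ‖s‖ ^ 2 = 2 * 2 + s.im * s.im := by
      rw [← Complex.normSq_eq_norm_sq, Complex.normSq_apply, hsre]
    have e3 : s.im * s.im ≤ 2 ^ 2 := by
      rw [← sq, ← sq_abs]
      gcongr
    nlinarith only [e2, e3, norm_nonneg s]
  · have e1 : J * Real.log X = 12 * ℓ := by rw [hℓ1]; ring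
    rw [e1]
    push_cast
    linarith
  · push_cast
    have e1 : (L : ℝ) * (12 * ℓ + 3) ≤ L * (15 * ℓ) := by
      gcongr
      linarith
    have e2 : (L : ℝ) * (15 * ℓ) = 15 * L * (J / 12) * Real.log X := by rw [hℓ1]; ring
    have e3 : 15 * L * (J / 12) * Real.log X ≤ max 1 (15 * L * (J / 12)) * Real.log X :=
      mul_le_mul_of_nonneg_right (le_max_right _ _) (by linarith)
    linarith
  · -- the energy
    have hsplit : ∑ a : (ZMod q)ˣ, (‖Dk q s (k + 1) a‖ * (3 / 2 : ℝ) ^ (k + 1)) ^ 2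
        = (3 / 2 : ℝ) ^ (2 * (k + 1)) * ∑ a : (ZMod q)ˣ, ‖Dk q s (k + 1) a‖ ^ 2 := by
      rw [mul_sum]
      refine sum_congr rfl fun a _ => ?_
      rw [mul_pow, ← pow_mul, mul_comm (k + 1) 2]
      ring
    rw [hsplit, parseval]
    obtain ⟨Q, hQ⟩ : ∃ Q : ℝ, Q = (1 / 4) * X' ^ (-(η' / 2)) * (2 / 3 : ℝ) ^ (k + 2) := ⟨_, rfl⟩
    have hQ0 : 0 ≤ Q := by rw [hQ]; positivity
    have hsum : (T'.card : ℝ) * Q ^ 2
        ≤ ∑ χ ∈ nt q, ‖TC (fun z => -logDeriv χ.LFunction z) s (k + 1)‖ ^ 2 := by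
      have h1 : T' ⊆ nt q := fun χ hχ => (mem_nt q χ).mpr (hprop χ hχ).1
      have h2 : ∑ χ ∈ T', ‖TC (fun z => -logDeriv χ.LFunction z) s (k + 1)‖ ^ 2
          ≤ ∑ χ ∈ nt q, ‖TC (fun z => -logDeriv χ.LFunction z) s (k + 1)‖ ^ 2 :=
        sum_le_sum_of_subset_of_nonneg h1 fun _ _ _ => sq_nonneg _
      refine le_trans ?_ h2
      have h3 : (T'.card : ℝ) * Q ^ 2 = ∑ χ ∈ T', Q ^ 2 := by rw [sum_const, nsmul_eq_mul]
      rw [h3]
      refine sum_le_sum fun χ hχ => ?_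
      have h4 := (hprop χ hχ).2
      rw [hP] at h4
      obtain ⟨-, -, -, h5⟩ := h4
      simp only at h5
      rw [← hQ, ← hs] at h5
      exact pow_le_pow_left₀ hQ0 h5 2
    have hcard2 : (q.totient : ℝ) / (4 * I.card) ≤ T'.card := by
      refine le_trans ?_ hyc
      rw [div_le_div_iff₀ (by positivity) hI0]
      have h4 : (q.totient : ℝ) ≤ 4 * T.card := by linarith only [hTcard]
      nlinarith only [mul_le_mul_of_nonneg_right h4 hI0.le]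
    have hQ2 : (3 / 2 : ℝ) ^ (2 * (k + 1)) * Q ^ 2 = 1 / 36 * X' ^ (-η') := by
      have e1 : (X' ^ (-(η' / 2))) ^ 2 = X' ^ (-η') := by
        rw [← Real.rpow_natCast, ← Real.rpow_mul hX'0.le]
        congr 1
        push_cast
        ring
      have e2 : (3 / 2 : ℝ) ^ (2 * (k + 1)) * ((2 / 3 : ℝ) ^ (k + 2)) ^ 2 = 4 / 9 := by
        have e3 : ((2 / 3 : ℝ) ^ (k + 2)) ^ 2 = (2 / 3 : ℝ) ^ (2 * (k + 1)) * (4 / 9) := by
          rw [← pow_mul]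
          have : (k + 2) * 2 = 2 * (k + 1) + 2 := by ring
          rw [this, pow_add]
          norm_num
        rw [e3, ← mul_assoc, ← mul_pow]
        norm_num
      rw [hQ, mul_pow, mul_pow, e1]
      calc (3 / 2 : ℝ) ^ (2 * (k + 1)) * ((1 / 4) ^ 2 * X' ^ (-η') * ((2 / 3 : ℝ) ^ (k + 2)) ^ 2)
          = (1 / 4) ^ 2 * X' ^ (-η') * ((3 / 2 : ℝ) ^ (2 * (k + 1)) * ((2 / 3 : ℝ) ^ (k + 2)) ^ 2) := by
            ring
        _ = 1 / 36 * X' ^ (-η') := by rw [e2]; ring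
    have hXη : (q : ℝ) ^ (-(η / 2)) ≤ X' ^ (-η') := by
      rw [Real.rpow_def_of_pos hq0, Real.rpow_def_of_pos hX'0, ← hℓ]
      apply Real.exp_le_exp.mpr
      have e1 : ℓ * η' ≤ J / 12 * (A * Real.log q) * η' := mul_le_mul_of_nonneg_right hℓu hη'0.le
      have e2 : J / 12 * (A * Real.log q) * η' = η' * (A * J) * Real.log q / 12 := by ring
      have e3 : η' * (A * J) * Real.log q ≤ 6 * η * Real.log q :=
        mul_le_mul_of_nonneg_right hη'2 (by linarith only [hq2])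
      linarith only [e1, e2, e3]
    have hIu : 144 * (I.card : ℝ) ≤ (q : ℝ) ^ (η / 2) := by
      refine le_trans ?_ hq1
      have e1 : ℓ ^ 2 ≤ (J / 12 * (A * Real.log q)) ^ 2 := pow_le_pow_left₀ hℓ0.le hℓu 2
      calc 144 * (I.card : ℝ) ≤ 144 * ((15 * L + 1) * 9 * ℓ ^ 2) := by linarith
        _ = C * ℓ ^ 2 := by rw [hCdef]; ring
        _ ≤ C * (J / 12 * (A * Real.log q)) ^ 2 := mul_le_mul_of_nonneg_left e1 hC0
    have hfin : 1 / (144 * (I.card : ℝ)) * X' ^ (-η')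
        ≤ (3 / 2 : ℝ) ^ (2 * (k + 1)) * (1 / (q.totient : ℝ) *
          ∑ χ ∈ nt q, ‖TC (fun z => -logDeriv χ.LFunction z) s (k + 1)‖ ^ 2) := by
      have e1 : (q.totient : ℝ) / (4 * I.card) * Q ^ 2
          ≤ ∑ χ ∈ nt q, ‖TC (fun z => -logDeriv χ.LFunction z) s (k + 1)‖ ^ 2 :=
        le_trans (mul_le_mul_of_nonneg_right hcard2 (sq_nonneg Q)) hsum
      have e2 : 1 / (144 * (I.card : ℝ)) * X' ^ (-η')
          = (3 / 2 : ℝ) ^ (2 * (k + 1)) * (1 / (q.totient : ℝ) *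
            ((q.totient : ℝ) / (4 * I.card) * Q ^ 2)) := by
        have e3 : (3 / 2 : ℝ) ^ (2 * (k + 1)) * (1 / (q.totient : ℝ) *
            ((q.totient : ℝ) / (4 * I.card) * Q ^ 2))
            = 1 / (4 * I.card) * ((3 / 2 : ℝ) ^ (2 * (k + 1)) * Q ^ 2) := by
          field_simp
        rw [e3, hQ2]
        ring
      rw [e2]
      gcongr
    refine le_trans ?_ hfin
    have e1 : (q : ℝ) ^ (-η) = (q : ℝ) ^ (-(η / 2)) * (q : ℝ) ^ (-(η / 2)) := by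
      rw [← Real.rpow_add hq0]
      congr 1
      ring
    rw [e1]
    have e2 : (q : ℝ) ^ (-(η / 2)) ≤ 1 / (144 * (I.card : ℝ)) := by
      rw [Real.rpow_neg hq0.le, ← one_div]
      exact one_div_le_one_div_of_le (by positivity) hIu
    exact mul_le_mul e2 hXη (by positivity) (by positivity)

end Pool.Agent.MY
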