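import Mathlib
import Pool.Agent.Lib.MP_9cfc0a_nt.MY.Defs
import Pool.Agent.Lib.MP_9cfc0a_nt.MY.G6a

set_option autoImplicit false

namespace Pool.Agent.MY

open Complex Finset

/-- G6. Zero free half planes imply the bound for all classes. -/
theorem bound_of_zf (θ C : ℝ) (hθ : 1 / 2 ≤ θ) (hθ1 : θ < 1) (hC : 0 ≤ C)
    (h : ∀ (d : ℕ) [NeZero d] (χ : DirichletCharacter ℂ d) (s : ℂ), θ < s.re → s.re < 1 →
      χ.LFunction s ≠ 0) (ε : ℝ) (hε : 0 < ε) :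
    ∃ q₀ : ℕ, ∀ q : ℕ, q₀ ≤ q → ∀ a : ℕ, Nat.Coprime a q → ∀ x : ℝ, (q : ℝ) ≤ x →
      |EM.psi x q a - x / (q.totient : ℝ)| ≤ (q : ℝ) ^ C * x ^ (θ + ε) := by
  obtain ⟨C₀, hC₀, h₀⟩ := V.EBV_of_ZF θ hθ hθ1 (ε / 2) (ε / 4) (by positivity) (by positivity)
  obtain ⟨n₀, hn₀⟩ := Filter.eventually_atTop.mp
    (((tendsto_rpow_atTop (show 0 < ε / 4 by positivity)).comp
      tendsto_natCast_atTop_atTop).eventually_ge_atTop C₀)
  refine ⟨max n₀ 1, fun q hq a ha x hx => ?_⟩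
  have hq1 : 1 ≤ q := le_trans (le_max_right _ _) hq
  have hqR : (1 : ℝ) ≤ q := by exact_mod_cast hq1
  have hx1 : 1 ≤ x := hqR.trans hx
  have hx0 : 0 < x := by linarith
  have : NeZero q := ⟨by omega⟩
  have hb := h₀ q (fun χ s h1 h2 => h q χ s h1 h2) x hx1 a ha
  have hc : C₀ ≤ (q : ℝ) ^ (ε / 4) := hn₀ q (le_trans (le_max_left _ _) hq)
  have hqx : (q : ℝ) ^ (ε / 4) ≤ x ^ (ε / 4) := Real.rpow_le_rpow (by linarith) hx (by positivity)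
  have hc2 : C₀ ≤ x ^ (ε / 4) := hc.trans hqx
  have hqC : (1 : ℝ) ≤ (q : ℝ) ^ C := Real.one_le_rpow hqR hC
  have hpsi : EM.psi x q a = MC.psiR x q a := rfl
  rw [hpsi]
  calc |MC.psiR x q a - x / (q.totient : ℝ)|
      ≤ C₀ * (q : ℝ) ^ (ε / 4) * x ^ (θ + ε / 2) := hb
    _ ≤ x ^ (ε / 4) * x ^ (ε / 4) * x ^ (θ + ε / 2) := by gcongr
    _ = x ^ (θ + ε) := by
        rw [← Real.rpow_add hx0, ← Real.rpow_add hx0]
        congr 1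
        ring
    _ = 1 * x ^ (θ + ε) := (one_mul _).symm
    _ ≤ (q : ℝ) ^ C * x ^ (θ + ε) := by gcongr

end Pool.Agent.MY
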