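import Mathlib
import Pool.Agent.Lib.MP_9cfc0a_nt.MY.Defs
import Pool.Agent.Lib.MP_9cfc0a_nt.Mg.G033
import Pool.Agent.Lib.MP_9cfc0a_nt.MY.G6
import Pool.Agent.Lib.MP_9cfc0a_nt.Mg.G040

set_option autoImplicit false

namespace Pool.Agent.MY

open Complex Finset

/-- The converse: zero free half planes give the bound for all classes. -/
theorem few_of_zf (θ C A : ℝ) (hθ : 1 / 2 ≤ θ) (hθ1 : θ < 1) (hC : 0 ≤ C) (hA : 1 ≤ A)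
    (h : ∀ (d : ℕ) [NeZero d] (χ : DirichletCharacter ℂ d) (s : ℂ), θ < s.re → s.re < 1 →
      χ.LFunction s ≠ 0) (d : ℕ) (hd : 1 ≤ d) (ε : ℝ) (hε : 0 < ε) (K Q₀ : ℕ) :
    ∃ q : ℕ, Q₀ ≤ q ∧ d ∣ q ∧ ∃ B : Finset ℕ, (B.card : ℝ) ≤ (q : ℝ) ^ (θ / (2 - θ)) ∧
      ∀ a : ℕ, 1 ≤ a → a ≤ q → Nat.Coprime a q → a ∉ B → ∀ x : ℝ, (q : ℝ) ^ A ≤ x →
        x ≤ (q : ℝ) ^ K → |EM.psi x q a - x / (q.totient : ℝ)| ≤ (q : ℝ) ^ C * x ^ (θ + ε) := by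
  obtain ⟨q₀, hq₀⟩ := bound_of_zf θ C hθ hθ1 hC h ε hε
  have hle : Q₀ + q₀ + 1 ≤ d * (Q₀ + q₀ + 1) := Nat.le_mul_of_pos_left _ hd
  refine ⟨d * (Q₀ + q₀ + 1), by omega, Dvd.intro _ rfl, ∅, by
    rw [card_empty, Nat.cast_zero]; positivity, fun a _ _ ha _ x hx _ => ?_⟩
  refine hq₀ (d * (Q₀ + q₀ + 1)) (by omega) a ha x (le_trans ?_ hx)
  have h1 : (1 : ℝ) ≤ ((d * (Q₀ + q₀ + 1) : ℕ) : ℝ) := by
    have : 1 ≤ d * (Q₀ + q₀ + 1) := by omega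
    exact_mod_cast this
  calc ((d * (Q₀ + q₀ + 1) : ℕ) : ℝ) = ((d * (Q₀ + q₀ + 1) : ℕ) : ℝ) ^ (1 : ℝ) := (Real.rpow_one _).symm
    _ ≤ _ := Real.rpow_le_rpow_of_exponent_le h1 hA

/-- A zero free half plane for all moduli is equivalent to the bound outside few classes for
arbitrarily large multiples of every `d`. -/
theorem zf_iff (θ C A : ℝ) (hθ : 1 / 2 ≤ θ) (hθ1 : θ < 1) (hC : 0 ≤ C) (hA : 1 ≤ A) :
    (∀ (d : ℕ) [NeZero d] (χ : DirichletCharacter ℂ d) (s : ℂ), θ < s.re → s.re < 1 →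
      χ.LFunction s ≠ 0) ↔ ∀ d : ℕ, 1 ≤ d → ∀ ε : ℝ, 0 < ε → ∀ K Q₀ : ℕ,
    ∃ q : ℕ, Q₀ ≤ q ∧ d ∣ q ∧ ∃ B : Finset ℕ, (B.card : ℝ) ≤ (q : ℝ) ^ (θ / (2 - θ)) ∧
      ∀ a : ℕ, 1 ≤ a → a ≤ q → Nat.Coprime a q → a ∉ B → ∀ x : ℝ, (q : ℝ) ^ A ≤ x →
        x ≤ (q : ℝ) ^ K → |EM.psi x q a - x / (q.totient : ℝ)| ≤ (q : ℝ) ^ C * x ^ (θ + ε) := by
  constructor
  · intro h d hd ε hε K Q₀
    exact few_of_zf θ C A hθ hθ1 hC hA h d hd ε hε K Q₀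
  · intro h d _ χ s hs1 hs2 hzero
    obtain ⟨ε, K, q₀, hε, hz⟩ := zero_free_local θ C A (s.re - θ) hθ hθ1 hC hA
      (by linarith)
    obtain ⟨n₀, hn₀⟩ := Filter.eventually_atTop.mp
      (((tendsto_rpow_atTop hε).comp tendsto_natCast_atTop_atTop).eventually_ge_atTop |s.im|)
    obtain ⟨q, hq, hdq, B, hB, hyp⟩ := h d (Nat.one_le_iff_ne_zero.mpr (NeZero.ne d)) ε hε K
      (q₀ + n₀ + 1)
    have : NeZero q := ⟨by omega⟩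
    refine hz q (by omega) B hB hyp (DirichletCharacter.changeLevel hdq χ) s (by linarith) hs2
      (hn₀ q (by omega)) ?_
    have hs : s ≠ 1 := by
      intro h1; rw [h1] at hs2; simp at hs2
    rw [DirichletCharacter.LFunction_changeLevel hdq χ (Or.inr hs), hzero, zero_mul]

end Pool.Agent.MY
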